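import Pool.Agent.ACV.St

/-!
# ACV, module Ass: associated primes and regular sequences
-/

set_option autoImplicit false

namespace Pool.Agent.ACV

open RingTheory Sequence IsLocalRing Pointwise

/-- One step: an associated prime `p` of `M` is properly contained in an associated prime of `M / x M`. -/
theorem ass_step (R : Type) [CommRing R] [IsLocalRing R] [IsNoetherianRing R] (M : Type)
    [AddCommGroup M] [Module R M] [Module.Finite R M] (x : R) (hx : x ∈ maximalIdeal R)
    (hreg : IsSMulRegular M x) (p : Ideal R) (hp : p ∈ associatedPrimes R M) :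
    ∃ q ∈ associatedPrimes R (QuotSMulTop x M), p ≤ q ∧ x ∈ q ∧ x ∉ p := by
  have hp' : IsAssociatedPrime p M := hp
  rw [isAssociatedPrime_iff] at hp'
  obtain ⟨hpp, m0, hm0⟩ := hp'
  have hm00 : m0 ≠ 0 := by
    rintro rfl
    refine hpp.ne_top ?_
    rw [hm0, Ideal.eq_top_iff_one, Submodule.mem_colon_singleton, smul_zero]
    exact Submodule.zero_mem _
  have hpm : ∀ a ∈ p, a • m0 = 0 := by
    intro a ha
    rw [hm0, Submodule.mem_colon_singleton, Submodule.mem_bot] at ha
    exact ha
  have hxp : x ∉ p := fun h => hm00 (hreg (by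
    show x • m0 = x • 0
    rw [hpm x h, smul_zero]))
  have hN : ∃ m : M, (∀ a ∈ p, a • m = 0) ∧ m ∉ x • (⊤ : Submodule R M) := by
    by_contra hcon
    push Not at hcon
    let N : Submodule R M := Submodule.torsionBySet R M (p : Set R)
    have hmem : ∀ m, m ∈ N ↔ ∀ a ∈ p, a • m = 0 := by
      intro m
      rw [Submodule.mem_torsionBySet_iff]
      exact ⟨fun h a ha => h ⟨a, ha⟩, fun h a => h a.1 a.2⟩
    have hNle : N ≤ Ideal.span {x} • N := by
      intro m hm
      have h1 := hcon m ((hmem m).mp hm)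
      rw [Submodule.mem_smul_pointwise_iff_exists] at h1
      obtain ⟨m', -, rfl⟩ := h1
      refine Submodule.smul_mem_smul (Ideal.mem_span_singleton_self x) ?_
      rw [hmem]
      intro a ha
      refine hreg ?_
      show x • a • m' = x • (0 : M)
      rw [smul_zero, smul_comm]
      exact (hmem _).mp hm a ha
    have hbot := Submodule.eq_bot_of_le_smul_of_le_jacobson_bot (Ideal.span {x}) N
      (IsNoetherian.noetherian N) hNle (by
        rw [IsLocalRing.jacobson_eq_maximalIdeal _ bot_ne_top, Ideal.span_singleton_le_iff_mem]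
        exact hx)
    have h2 : m0 ∈ N := (hmem m0).mpr hpm
    rw [hbot, Submodule.mem_bot] at h2
    exact hm00 h2
  obtain ⟨m, hm1, hm2⟩ := hN
  have hne : (Submodule.Quotient.mk m : QuotSMulTop x M) ≠ 0 := by
    intro h
    exact hm2 ((Submodule.Quotient.mk_eq_zero _).mp h)
  obtain ⟨q, hq1, hq2⟩ := exists_le_isAssociatedPrime_of_isNoetherianRing R
    (Submodule.Quotient.mk m : QuotSMulTop x M) hne
  refine ⟨q, hq1, ?_, ?_, hxp⟩
  · intro a ha
    refine hq2 ?_
    rw [Submodule.mem_colon_singleton, Submodule.mem_bot, ← Submodule.Quotient.mk_smul, hm1 a ha]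
    rfl
  · refine hq2 ?_
    rw [Submodule.mem_colon_singleton, Submodule.mem_bot, ← Submodule.Quotient.mk_smul,
      Submodule.Quotient.mk_eq_zero]
    exact Submodule.smul_mem_pointwise_smul m x ⊤ Submodule.mem_top

theorem ass_dim (R : Type) [CommRing R] (p q : Ideal R) (hp : p.IsPrime) (hpq : p ≤ q) (x : R)
    (hxq : x ∈ q) (hxp : x ∉ p) : ringKrullDim (R ⧸ q) + 1 ≤ ringKrullDim (R ⧸ p) := by
  have hx0 : (Ideal.Quotient.mk p x) ∈ nonZeroDivisors (R ⧸ p) := by
    rw [mem_nonZeroDivisors_iff_ne_zero]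
    intro h
    exact hxp (Ideal.Quotient.eq_zero_iff_mem.mp h)
  refine ringKrullDim_succ_le_of_surjective (Ideal.Quotient.factor hpq)
    (Ideal.Quotient.factor_surjective hpq) hx0 ?_
  rw [Ideal.Quotient.factor_mk]
  exact Ideal.Quotient.eq_zero_iff_mem.mpr hxq

theorem thm_Ass : St_Ass := by
  intro R _ _ _ M _ _ _ rs hmem hreg
  induction rs generalizing M with
  | nil =>
    intro p hp
    have hpp : p.IsPrime := hp.isPrime
    have : Nontrivial (R ⧸ p) := Ideal.Quotient.nontrivial_iff.mpr hpp.ne_top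
    rw [List.length_nil]
    exact ringKrullDim_nonneg_of_nontrivial
  | cons x rs ih =>
    intro p hp
    rw [isRegular_cons_iff] at hreg
    obtain ⟨q, hq, hpq, hxq, hxp⟩ := ass_step R M x (hmem x (by simp)) hreg.1 p hp
    have h1 := ih (QuotSMulTop x M) (fun r hr => hmem r (by simp [hr])) hreg.2 q hq
    have h2 := ass_dim R p q hp.isPrime hpq x hxq hxp
    refine le_trans ?_ h2
    rw [List.length_cons]
    push_cast
    gcongr

end Pool.Agent.ACV
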