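import Pool.Agent.ACV.St
import Pool.Agent.Helper40.Licci.Koszul

/-!
# ACV, CI: the graded form (helper63)
-/

set_option autoImplicit false
set_option linter.unusedVariables false

noncomputable section

namespace Pool.Agent.ACV

open MvPolynomial RingTheory.Sequence
open Pool.Agent.Helper40.Licci (WReg ofList_take_eq)

section comp

variable {k : Type} [Field k] {σ : Type}

theorem ci_hc {A : MvPolynomial σ k} {a : ℕ} (hA : A.IsHomogeneous a) (x : MvPolynomial σ k)
    (N : ℕ) : homogeneousComponent N (A * x) =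
      if a ≤ N then A * homogeneousComponent (N - a) x else 0 := by
  classical
  have h1 : A * x = ∑ i ∈ Finset.range (x.totalDegree + 1), A * homogeneousComponent i x := by
    rw [← Finset.mul_sum, sum_homogeneousComponent]
  rw [h1, map_sum]
  have h2 : ∀ i, homogeneousComponent N (A * homogeneousComponent i x) =
      if N = a + i then A * homogeneousComponent i x else 0 := fun i =>
    homogeneousComponent_of_mem (hA.mul (homogeneousComponent_isHomogeneous i x))
  rw [Finset.sum_congr rfl fun i _ => h2 i]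
  split_ifs with h
  · by_cases h3 : N - a ∈ Finset.range (x.totalDegree + 1)
    · rw [Finset.sum_eq_single_of_mem (N - a) h3 fun i _ hi => if_neg (by omega),
        if_pos (by omega)]
    · have h4 : x.totalDegree < N - a := by
        rw [Finset.mem_range] at h3
        omega
      rw [homogeneousComponent_eq_zero _ _ h4, mul_zero]
      refine Finset.sum_eq_zero fun i hi => if_neg ?_
      rw [Finset.mem_range] at hi
      omega
  · exact Finset.sum_eq_zero fun i _ => if_neg (by omega)

theorem ci_comp {τ : Type} [Fintype τ] {f : τ → MvPolynomial σ k} {d : τ → ℕ}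
    (hf : ∀ i, (f i).IsHomogeneous (d i)) {x : MvPolynomial σ k}
    (hx : x ∈ Ideal.span (Set.range f)) (N : ℕ) :
    homogeneousComponent N x ∈ Ideal.span (Set.range f) := by
  classical
  obtain ⟨c, hc⟩ := (Ideal.mem_span_range_iff_exists_fun (R := MvPolynomial σ k)).1 hx
  rw [← hc, map_sum]
  refine Ideal.sum_mem _ fun i _ => ?_
  rw [mul_comm, ci_hc (hf i)]
  split_ifs
  · exact Ideal.mul_mem_right _ _ (Ideal.subset_span ⟨i, rfl⟩)
  · exact Ideal.zero_mem _

theorem ci_const {A : MvPolynomial σ k} {a : ℕ} (hA : A.IsHomogeneous a) (ha : 0 < a) :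
    constantCoeff A = 0 := by
  by_contra h
  have h1 : coeff 0 A ≠ 0 := h
  have h2 := hA h1
  simp at h2
  omega

end comp

section wreg

variable {k : Type} [Field k] {σ : Type}

theorem ci_weak {c : ℕ} (e : Fin c ≃ σ) :
    IsWeaklyRegular (MvPolynomial σ k) (List.ofFn fun i => (X (e i) : MvPolynomial σ k)) := by
  classical
  set α : Fin c → MvPolynomial σ k := fun i => X (e i) with hα
  have hW : ∀ (i : Fin c) (r : MvPolynomial σ k), r * α i ∈ Ideal.span (α '' {j | j < i}) →
      r ∈ Ideal.span (α '' {j | j < i}) := by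
    intro i r hr
    have himg : α '' {j | j < i} = X '' (e '' {j | j < i}) := by
      rw [← Set.image_comp]; rfl
    rw [himg, mem_ideal_span_X_image] at hr ⊢
    intro m hm
    have h1 : m + Finsupp.single (e i) 1 ∈ (r * α i).support := by
      rw [mem_support_iff]
      show coeff (m + Finsupp.single (e i) 1) (r * X (e i)) ≠ 0
      rw [coeff_mul_X]
      exact mem_support_iff.mp hm
    obtain ⟨v, hv, h2⟩ := hr _ h1
    refine ⟨v, hv, ?_⟩
    obtain ⟨j, hj, rfl⟩ := hv
    have hne : e i ≠ e j := fun h => (ne_of_lt hj) (e.injective h.symm)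
    rw [Finsupp.add_apply, Finsupp.single_apply, if_neg hne, add_zero] at h2
    exact h2
  rw [isWeaklyRegular_iff_Fin]
  intro i
  have hi : i.val < c := lt_of_lt_of_eq i.2 List.length_ofFn
  have hget : (List.ofFn α)[i] = α ⟨i.val, hi⟩ := by
    simp
  have htake : Ideal.ofList ((List.ofFn α).take i) =
      Ideal.span (α '' {j | j < ⟨i.val, hi⟩}) := by
    rw [ofList_take_eq]
    congr 1
    ext x
    constructor
    · rintro ⟨j, hj, rfl⟩
      have hj' : j.val < c := lt_of_lt_of_eq j.2 List.length_ofFn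
      refine ⟨⟨j.val, hj'⟩, hj, ?_⟩
      simp
    · rintro ⟨j, hj, rfl⟩
      refine ⟨⟨j.val, by rw [List.length_ofFn]; exact j.2⟩, hj, ?_⟩
      simp
  have key : ∀ x : MvPolynomial σ k, (Submodule.Quotient.mk x :
      MvPolynomial σ k ⧸ (Ideal.ofList ((List.ofFn α).take i) • (⊤ : Ideal (MvPolynomial σ k)))) = 0
      ↔ x ∈ Ideal.ofList ((List.ofFn α).take i) := by
    intro x
    rw [Submodule.Quotient.mk_eq_zero]
    simp
  intro x y hxy
  obtain ⟨x, rfl⟩ := Submodule.Quotient.mk_surjective _ x
  obtain ⟨y, rfl⟩ := Submodule.Quotient.mk_surjective _ y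
  rw [hget] at hxy
  change α ⟨i.val, hi⟩ • (Submodule.Quotient.mk x :
      MvPolynomial σ k ⧸ (Ideal.ofList ((List.ofFn α).take i) • (⊤ : Ideal (MvPolynomial σ k))))
    = α ⟨i.val, hi⟩ • Submodule.Quotient.mk y at hxy
  rw [← sub_eq_zero, ← smul_sub, ← Submodule.Quotient.mk_sub, ← Submodule.Quotient.mk_smul,
    key, htake, smul_eq_mul, mul_comm] at hxy
  rw [← sub_eq_zero, ← Submodule.Quotient.mk_sub, key, htake]
  exact hW _ _ hxy

end wreg

section dim

/-- the dimension of a quotient of a localization -/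
theorem ci_dim (S : Type) [CommRing S] (p : Ideal S) [p.IsPrime] (J : Ideal S) (s t : ℕ)
    (h : ∀ P : Ideal S, P.IsPrime → J ≤ P →
      ringKrullDim (S ⧸ P) + ((t : ℕ) : WithBot ℕ∞) ≤ ((s : ℕ) : WithBot ℕ∞)) :
    ringKrullDim (Localization.AtPrime p ⧸ J.map (algebraMap S (Localization.AtPrime p))) +
      ((t : ℕ) : WithBot ℕ∞) ≤ ((s : ℕ) : WithBot ℕ∞) := by
  classical
  set R := Localization.AtPrime p with hR
  have key : ∀ l : LTSeries (PrimeSpectrum.zeroLocus
      ((J.map (algebraMap S R) : Ideal R) : Set R)), l.length + t ≤ s := by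
    intro l
    set P : PrimeSpectrum S := PrimeSpectrum.comap (algebraMap S R) l.head.1 with hP
    have hJP : J ≤ P.asIdeal := by
      have h1 : J.map (algebraMap S R) ≤ l.head.1.asIdeal := l.head.2
      exact Ideal.map_le_iff_le_comap.1 h1
    have hstrict : ∀ Q Q' : PrimeSpectrum R, Q < Q' →
        PrimeSpectrum.comap (algebraMap S R) Q < PrimeSpectrum.comap (algebraMap S R) Q' := by
      intro Q Q' hQ
      refine lt_of_le_of_ne ?_ ?_
      · exact Ideal.comap_mono (le_of_lt hQ)
      · intro he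
        exact (ne_of_lt hQ) (PrimeSpectrum.localization_comap_injective R p.primeCompl he)
    let l' : LTSeries (PrimeSpectrum.zeroLocus ((P.asIdeal : Ideal S) : Set S)) :=
      { length := l.length
        toFun := fun i => ⟨PrimeSpectrum.comap (algebraMap S R) (l i).1, by
          have h1 : l.head ≤ l i := LTSeries.head_le l i
          exact Ideal.comap_mono h1⟩
        step := fun i => hstrict _ _ (l.step i) }
    have h2 := h P.asIdeal P.isPrime hJP
    have h3 : ((l.length : ℕ) : WithBot ℕ∞) ≤ ringKrullDim (S ⧸ P.asIdeal) := by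
      rw [ringKrullDim_quotient]
      exact le_iSup (fun q : LTSeries (PrimeSpectrum.zeroLocus ((P.asIdeal : Ideal S) : Set S)) =>
        ((q.length : ℕ) : WithBot ℕ∞)) l'
    have h4 : ((l.length : ℕ) : WithBot ℕ∞) + ((t : ℕ) : WithBot ℕ∞) ≤ ((s : ℕ) : WithBot ℕ∞) :=
      (add_le_add_left h3 _).trans h2
    exact_mod_cast h4
  rw [ringKrullDim_quotient]
  rcases isEmpty_or_nonempty (PrimeSpectrum.zeroLocus
      ((J.map (algebraMap S R) : Ideal R) : Set R)) with hE | hN
  · rw [Order.krullDim_eq_bot]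
    simp
  · obtain ⟨q⟩ := hN
    have hts : t ≤ s := le_trans (Nat.le_add_left _ _) (key (RelSeries.singleton _ q))
    have h1 : Order.krullDim (PrimeSpectrum.zeroLocus
        ((J.map (algebraMap S R) : Ideal R) : Set R)) ≤ ((s - t : ℕ) : WithBot ℕ∞) := by
      rw [Order.krullDim]
      refine iSup_le fun l => ?_
      have := key l
      exact_mod_cast (Nat.le_sub_of_add_le this)
    refine (add_le_add_left h1 _).trans ?_
    have h2 : (s - t) + t = s := Nat.sub_add_cancel hts
    exact_mod_cast h2.le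

end dim

theorem thm_CI (hCMl : St_CMl) : St_CI := by
  classical
  intro k _ σ _ τ _ f d D e hf hD he hdim
  -- the origin
  set O : Ideal (MvPolynomial σ k) := RingHom.ker (constantCoeff : MvPolynomial σ k →+* k) with hO
  have hOm : O.IsMaximal :=
    RingHom.ker_isMaximal_of_surjective _ (fun a => ⟨C a, constantCoeff_C _ a⟩)
  have hOp : O.IsPrime := hOm.isPrime
  have mem_O : ∀ u : MvPolynomial σ k, u ∈ O ↔ constantCoeff u = 0 := fun u => RingHom.mem_ker
  set R := Localization.AtPrime O with hR
  have hmaxR : ∀ u : MvPolynomial σ k, constantCoeff u = 0 →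
      algebraMap (MvPolynomial σ k) R u ∈ IsLocalRing.maximalIdeal R := fun u hu =>
    (IsLocalization.AtPrime.to_map_mem_maximal_iff R O u).2 ((mem_O u).2 hu)
  let eσ : Fin (Fintype.card σ) ≃ σ := (Fintype.equivFin σ).symm
  let eτ : Fin (Fintype.card τ) ≃ τ := (Fintype.equivFin τ).symm
  have hreg : IsRegular R ((List.ofFn fun i => (X (eσ i) : MvPolynomial σ k)).map
      (algebraMap (MvPolynomial σ k) R)) := by
    refine (ci_weak eσ).isRegular_of_isLocalization_of_mem (S := R) O ?_
    intro r hr
    rw [List.mem_ofFn] at hr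
    obtain ⟨v, rfl⟩ := hr
    rw [mem_O, constantCoeff_X]
  have hmem : ∀ r ∈ ((List.ofFn fun i => (X (eσ i) : MvPolynomial σ k)).map
      (algebraMap (MvPolynomial σ k) R)), r ∈ IsLocalRing.maximalIdeal R := by
    intro r hr
    rw [List.mem_map] at hr
    obtain ⟨u, hu, rfl⟩ := hr
    rw [List.mem_ofFn] at hu
    obtain ⟨v, rfl⟩ := hu
    exact hmaxR _ (by rw [constantCoeff_X])
  have hrange : Ideal.span (Set.range fun i => algebraMap (MvPolynomial σ k) R (f (eτ i))) =
      (Ideal.span (Set.range f)).map (algebraMap (MvPolynomial σ k) R) := by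
    rw [Ideal.map_span]
    congr 1
    ext x
    constructor
    · rintro ⟨i, rfl⟩
      exact ⟨f (eτ i), ⟨eτ i, rfl⟩, rfl⟩
    · rintro ⟨_, ⟨i, rfl⟩, rfl⟩
      exact ⟨eτ.symm i, by simp⟩
  have hsup : Ideal.span (Set.range fun i => algebraMap (MvPolynomial σ k) R (f (eτ i))) ⊔
      Ideal.span {algebraMap (MvPolynomial σ k) R D} =
      (Ideal.span (Set.range f) ⊔ Ideal.span {D}).map (algebraMap (MvPolynomial σ k) R) := by
    rw [hrange, Ideal.map_sup, Ideal.map_span _ {D}, Set.image_singleton]
  have hdimR : ringKrullDim (R ⧸ (Ideal.span (Set.range fun i =>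
      algebraMap (MvPolynomial σ k) R (f (eτ i))) ⊔
      Ideal.span {algebraMap (MvPolynomial σ k) R D})) +
      ((Fintype.card τ + 1 : ℕ) : WithBot ℕ∞) ≤ ((Fintype.card σ : ℕ) : WithBot ℕ∞) := by
    rw [hsup]
    refine ci_dim (MvPolynomial σ k) O _ (Fintype.card σ) (Fintype.card τ + 1) ?_
    intro P hP hle
    refine hdim P hP (fun i => hle ?_) (hle ?_)
    · exact Ideal.mem_sup_left (Ideal.subset_span ⟨i, rfl⟩)
    · exact Ideal.mem_sup_right (Ideal.subset_span rfl)
  have hloc := hCMl R (Fintype.card σ) (Fintype.card τ) _ hmem hreg (by simp)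
    (fun i => algebraMap (MvPolynomial σ k) R (f (eτ i))) (algebraMap (MvPolynomial σ k) R D)
    (fun i => hmaxR _ (ci_const (hf (eτ i)).1 (hf (eτ i)).2)) (hmaxR _ (ci_const hD he)) hdimR
  -- homogeneous elements
  have hom : ∀ (N : ℕ) (g : MvPolynomial σ k), g.IsHomogeneous N →
      D * g ∈ Ideal.span (Set.range f) → g ∈ Ideal.span (Set.range f) := by
    intro N g hg hDg
    have h1 : algebraMap (MvPolynomial σ k) R g ∈
        (Ideal.span (Set.range f)).map (algebraMap (MvPolynomial σ k) R) := by
      rw [← hrange]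
      refine hloc _ ?_
      rw [hrange, ← map_mul]
      exact Ideal.mem_map_of_mem _ hDg
    rw [IsLocalization.algebraMap_mem_map_algebraMap_iff O.primeCompl] at h1
    obtain ⟨u, hu, hug⟩ := h1
    have hu0 : constantCoeff u ≠ 0 := fun h => hu ((mem_O u).2 h)
    have h2 := ci_comp (fun i => (hf i).1) hug N
    rw [mul_comm, ci_hc hg, if_pos le_rfl, Nat.sub_self, homogeneousComponent_zero, mul_comm] at h2
    have h3 := Ideal.mul_mem_left _ (C (constantCoeff u)⁻¹) h2
    rw [← mul_assoc, ← C_mul] at h3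
    have h4 : (constantCoeff u)⁻¹ * coeff 0 u = 1 := inv_mul_cancel₀ hu0
    rwa [h4, C_1, one_mul] at h3
  intro g hg
  rw [← sum_homogeneousComponent g]
  refine Ideal.sum_mem _ fun N _ => hom N _ (homogeneousComponent_isHomogeneous N g) ?_
  have h1 := ci_comp (fun i => (hf i).1) hg (N + e)
  rwa [ci_hc hD, if_pos (Nat.le_add_left _ _), Nat.add_sub_cancel] at h1

end Pool.Agent.ACV
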