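import Pool.Agent.ACV.St
import Pool.Agent.Helper40.Licci.ExtShift

/-!
# ACV, module CMl: parameters in a local ring of depth `s` (helper6)
-/

set_option autoImplicit false
set_option linter.unusedVariables false

noncomputable section

namespace Pool.Agent.ACV

open Module IsLocalRing RingTheory.Sequence CategoryTheory CategoryTheory.Abelian Pointwise
open Pool.Agent.Helper40.Licci (kk subsingleton_ext_X3 subsingleton_ext_of_weaklyRegular)

theorem cml_aux (a : WithBot ℕ∞) (k n : ℕ)
    (h : a + ((k + 1 : ℕ) : WithBot ℕ∞) ≤ ((n : ℕ) : WithBot ℕ∞)) :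
    a + ((k : ℕ) : WithBot ℕ∞) ≤ ((n - 1 : ℕ) : WithBot ℕ∞) := by
  induction a using WithBot.recBotCoe with
  | bot => simp
  | coe a =>
    induction a using ENat.recTopCoe with
    | top =>
      exfalso
      have h1 : ((⊤ : ℕ∞) : WithBot ℕ∞) + ((k + 1 : ℕ) : WithBot ℕ∞) = ((⊤ : ℕ∞) : WithBot ℕ∞) := rfl
      rw [h1] at h
      have h2 : (⊤ : ℕ∞) ≤ (n : ℕ∞) := WithBot.coe_le_coe.1 h
      exact absurd h2 (by simp)
    | coe m =>
      have h1 : ((m + (k + 1) : ℕ) : WithBot ℕ∞) ≤ ((n : ℕ) : WithBot ℕ∞) := by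
        rw [Nat.cast_add]
        exact h
      have h2 : m + (k + 1) ≤ n := by exact_mod_cast h1
      have h3 : m + k ≤ n - 1 := by omega
      have h4 : ((m + k : ℕ) : WithBot ℕ∞) ≤ ((n - 1 : ℕ) : WithBot ℕ∞) := by exact_mod_cast h3
      rw [Nat.cast_add] at h4
      exact h4

section

variable {R : Type} [CommRing R] [IsLocalRing R] [IsNoetherianRing R]

theorem cml_drop (L : List R) : ∀ (M : Type) [AddCommGroup M] [Module R M] [Module.Finite R M],
    (∀ r ∈ L, r ∈ maximalIdeal R) →
    supportDim R M ≤ supportDim R (M ⧸ (Ideal.ofList L • (⊤ : Submodule R M))) +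
      ((L.length : ℕ) : WithBot ℕ∞) := by
  induction L with
  | nil =>
    intro M _ _ _ _
    rw [Ideal.ofList_nil, Submodule.bot_smul]
    have h := supportDim_eq_of_equiv (Submodule.quotEquivOfEqBot (⊥ : Submodule R M) rfl)
    simp [h]
  | cons x L ih =>
    intro M _ _ _ h
    have h1 := supportDim_le_supportDim_quotSMulTop_succ (M := M) (h x (by simp))
    have h2 := ih (QuotSMulTop x M) (fun r hr => h r (by simp [hr]))
    rw [supportDim_eq_of_equiv (Submodule.quotOfListConsSMulTopEquivQuotSMulTopInner M x L)]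
    calc supportDim R M ≤ supportDim R (QuotSMulTop x M) + 1 := h1
      _ ≤ (supportDim R (QuotSMulTop x M ⧸
            (Ideal.ofList L • (⊤ : Submodule R (QuotSMulTop x M)))) +
            ((L.length : ℕ) : WithBot ℕ∞)) + 1 := by gcongr
      _ = _ := by rw [add_assoc, List.length_cons, Nat.cast_add, Nat.cast_one]

theorem cml_step (hAss : St_Ass) (M : Type) [AddCommGroup M] [Module R M] [Module.Finite R M]
    (n : ℕ) (hE : ∀ i < n, Subsingleton (Ext (kk R) (ModuleCat.of R M) i)) (x : R)
    (hx : x ∈ maximalIdeal R)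
    (hd : supportDim R (QuotSMulTop x M) + 1 ≤ ((n : ℕ) : WithBot ℕ∞)) : IsSMulRegular M x := by
  by_contra hreg
  have hnt : Nontrivial M := by
    by_contra h
    rw [not_nontrivial_iff_subsingleton] at h
    exact hreg fun a b _ => Subsingleton.elim a b
  have hlt : maximalIdeal R • (⊤ : Submodule R M) < ⊤ := by
    refine lt_top_iff_ne_top.2 fun h => ?_
    have h1 : (⊤ : Submodule R M) = ⊥ := by
      refine Submodule.eq_bot_of_le_smul_of_le_jacobson_bot (maximalIdeal R) ⊤
        Module.Finite.fg_top (le_of_eq h.symm) ?_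
      rw [jacobson_eq_maximalIdeal ⊥ bot_ne_top]
    exact top_ne_bot h1
  have hsupp : Module.support R (kk R) = PrimeSpectrum.zeroLocus (maximalIdeal R) := by
    show Module.support R (R ⧸ maximalIdeal R) = _
    rw [Module.support_eq_zeroLocus, Ideal.annihilator_quotient]
  obtain ⟨rs, hlen, hmem, hrs⟩ := ModuleCat.exists_isRegular_of_exists_subsingleton_ext
    (maximalIdeal R) n (ModuleCat.of R M) hlt (kk R) hsupp hE
  have h1 : x ∈ ⋃ p ∈ associatedPrimes R M, (p : Set R) := by
    rw [biUnion_associatedPrimes_eq_compl_regular R M]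
    exact hreg
  simp only [Set.mem_iUnion] at h1
  obtain ⟨p, hp, hxp⟩ := h1
  have hpp : p.IsPrime := hp.isPrime
  have h2 := hAss R M rs hmem hrs p hp
  rw [hlen] at h2
  have h3 : ringKrullDim (R ⧸ p) ≤ supportDim R (QuotSMulTop x M) := by
    rw [← supportDim_quotient_eq_ringKrullDim]
    have hsub : Module.support R (R ⧸ p) ⊆ Module.support R (QuotSMulTop x M) := by
      intro q hq
      rw [Module.support_eq_zeroLocus, Ideal.annihilator_quotient] at hq
      have hq' : p ≤ q.asIdeal := hq
      rw [Module.support_quotSMulTop]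
      refine ⟨?_, ?_⟩
      · rw [Module.support_eq_zeroLocus]
        have h4 : Module.annihilator R M ≤ p := by
          rw [← Submodule.annihilator_top]
          exact IsAssociatedPrime.annihilator_le hp
        exact le_trans h4 hq'
      · rw [PrimeSpectrum.mem_zeroLocus, Set.singleton_subset_iff]
        exact hq' hxp
    exact Order.krullDim_le_of_strictMono (Set.inclusion hsub) (fun _ _ h => h)
  have h4 : ((n : ℕ) : WithBot ℕ∞) + 1 ≤ ((n : ℕ) : WithBot ℕ∞) :=
    le_trans (add_le_add_left (le_trans h2 h3) 1) hd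
  have h5 : ((n + 1 : ℕ) : WithBot ℕ∞) ≤ ((n : ℕ) : WithBot ℕ∞) := by
    rw [Nat.cast_add, Nat.cast_one]
    exact h4
  have h6 : n + 1 ≤ n := by exact_mod_cast h5
  omega

theorem cml_main (hAss : St_Ass) (L : List R) : ∀ (M : Type) [AddCommGroup M] [Module R M]
    [Module.Finite R M] (n : ℕ), (∀ r ∈ L, r ∈ maximalIdeal R) →
    (∀ i < n, Subsingleton (Ext (kk R) (ModuleCat.of R M) i)) →
    supportDim R (M ⧸ (Ideal.ofList L • (⊤ : Submodule R M))) +
      ((L.length : ℕ) : WithBot ℕ∞) ≤ ((n : ℕ) : WithBot ℕ∞) → IsWeaklyRegular M L := by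
  induction L with
  | nil => intro M _ _ _ n _ _ _; exact IsWeaklyRegular.nil R M
  | cons x L ih =>
    intro M _ _ _ n hmem hE hd
    rw [supportDim_eq_of_equiv (Submodule.quotOfListConsSMulTopEquivQuotSMulTopInner M x L),
      List.length_cons] at hd
    have h1 := cml_drop L (QuotSMulTop x M) (fun r hr => hmem r (by simp [hr]))
    have hreg : IsSMulRegular M x := by
      refine cml_step hAss M n hE x (hmem x (by simp)) (le_trans ?_ hd)
      rw [Nat.cast_add, Nat.cast_one, ← add_assoc]
      exact add_le_add_left h1 1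
    rw [isWeaklyRegular_cons_iff]
    refine ⟨hreg, ih (QuotSMulTop x M) (n - 1) (fun r hr => hmem r (by simp [hr])) ?_
      (cml_aux _ _ _ hd)⟩
    intro i hi
    have hS := (show IsSMulRegular (ModuleCat.of R M) x from hreg).smulShortComplex_shortExact
    exact subsingleton_ext_X3 (kk R) hS i (hE i (by omega)) (hE (i + 1) (by omega))

end

/-- **CMl** -/
theorem thm_CMl (hAss : St_Ass) : St_CMl := by
  intro R _ _ _ s t rs hmem hrs hlen f D hf hD hd g hg
  have hE : ∀ i < s, Subsingleton (Ext (kk R) (ModuleCat.of R R) i) := by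
    intro i hi
    rw [← hlen] at hi
    exact subsingleton_ext_of_weaklyRegular rs hmem (ModuleCat.of R R) hrs.toIsWeaklyRegular i hi
  have e1 : Ideal.ofList (List.ofFn f) = Ideal.span (Set.range f) := by
    unfold Ideal.ofList
    congr 1
    ext r
    simp [List.mem_ofFn]
  have e2 : Ideal.ofList (List.ofFn f ++ [D]) = Ideal.span (Set.range f) ⊔ Ideal.span {D} := by
    rw [Ideal.ofList_append, e1, Ideal.ofList_singleton]
  have hw : IsWeaklyRegular R (List.ofFn f ++ [D]) := by
    refine cml_main hAss (List.ofFn f ++ [D]) R s ?_ hE ?_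
    · intro r hr
      rcases List.mem_append.1 hr with h | h
      · rw [List.mem_ofFn] at h
        obtain ⟨i, rfl⟩ := h
        exact hf i
      · rw [List.mem_singleton] at h
        rw [h]
        exact hD
    · have e3 : (Ideal.ofList (List.ofFn f ++ [D]) • (⊤ : Submodule R R)) =
          Ideal.span (Set.range f) ⊔ Ideal.span {D} := by
        rw [e2, smul_eq_mul, Ideal.mul_top]
      rw [e3, supportDim_quotient_eq_ringKrullDim, List.length_append, List.length_ofFn,
        List.length_singleton]
      exact hd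
  rw [isWeaklyRegular_append_iff] at hw
  have h1 := hw.2
  rw [isWeaklyRegular_singleton_iff] at h1
  have e4 : (Ideal.ofList (List.ofFn f) • (⊤ : Submodule R R)) = Ideal.span (Set.range f) := by
    rw [e1, smul_eq_mul, Ideal.mul_top]
  have h2 : (Submodule.Quotient.mk g : R ⧸ (Ideal.ofList (List.ofFn f) • (⊤ : Submodule R R))) =
      0 := by
    apply h1
    show D • (Submodule.Quotient.mk g : R ⧸ (Ideal.ofList (List.ofFn f) • (⊤ : Submodule R R))) =
      D • 0
    rw [smul_zero, ← Submodule.Quotient.mk_smul, Submodule.Quotient.mk_eq_zero, e4]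
    exact hg
  rw [Submodule.Quotient.mk_eq_zero, e4] at h2
  exact h2

end Pool.Agent.ACV
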