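import Pool.Agent.ACV.St

/-!
# ACV: Der — dimension and derivations
-/

set_option autoImplicit false

noncomputable section

namespace Pool.Agent.ACV

/-- Incomparability: the Krull dimension does not grow in integral extensions. -/
theorem der_dim_le (A R : Type) [CommRing A] [CommRing R] [Algebra A R]
    [Algebra.IsIntegral A R] : ringKrullDim R ≤ ringKrullDim A := by
  refine Order.krullDim_le_of_strictMono
    (fun I => (⟨Ideal.comap (algebraMap A R) I.asIdeal, inferInstance⟩ : PrimeSpectrum A)) ?_
  intro I J hIJ
  have h1 : I.asIdeal < J.asIdeal := hIJ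
  obtain ⟨x, hx1, hx2⟩ := Set.exists_of_ssubset h1
  exact Ideal.comap_lt_comap_of_integral_mem_sdiff h1.le ⟨hx1, hx2⟩
    (Algebra.IsIntegral.isIntegral x)

section

open KaehlerDifferential TensorProduct

/-- Extension of derivations. -/
theorem der_ext {k A L : Type} [Field k] [CharZero k] [CommRing A] [IsDomain A] [Algebra k A]
    [Field L] [Algebra k L] [Algebra A L] [IsScalarTower k A L]
    (hinj : Function.Injective (algebraMap A L))
    (hint : ∀ y : L, IsAlgebraic A y) (d0 : Derivation k A L) :
    ∃ D : Derivation k L L, ∀ a : A, D (algebraMap A L a) = d0 a := by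
  classical
  let K := FractionRing A
  let _ : Algebra K L := (IsFractionRing.lift (K := K) hinj : K →+* L).toAlgebra
  have hst : IsScalarTower A K L := IsScalarTower.of_algebraMap_eq (fun p => by
    exact (IsFractionRing.lift_algebraMap hinj p).symm)
  have hkA : Function.Injective (algebraMap k A) := (algebraMap k A).injective
  have : CharZero A := charZero_of_injective_algebraMap hkA
  have : CharZero K := charZero_of_injective_algebraMap (IsFractionRing.injective A K)
  have : Algebra.IsAlgebraic K L := by
    constructor
    intro y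
    exact (IsFractionRing.isAlgebraic_iff A K L).1 (hint y)
  have : Algebra.IsSeparable K L := inferInstance
  have : Algebra.FormallyEtale K L := Algebra.FormallyEtale.of_isSeparable _ _
  have : Algebra.FormallyEtale A K :=
    Algebra.FormallyEtale.of_isLocalization (nonZeroDivisors A)
  have : Algebra.FormallyEtale A L := Algebra.FormallyEtale.comp A K L
  let l0 : Ω[A⁄k] →ₗ[A] L := d0.liftKaehlerDifferential
  let l1 : L ⊗[A] Ω[A⁄k] →ₗ[L] L := l0.liftBaseChange L
  let e := KaehlerDifferential.tensorKaehlerEquivOfFormallyEtale k A L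
  let l2 : Ω[L⁄k] →ₗ[L] L := l1.comp e.symm.toLinearMap
  refine ⟨l2.compDer (KaehlerDifferential.D k L), ?_⟩
  intro a
  change l1 (e.symm (KaehlerDifferential.D k L (algebraMap A L a))) = d0 a
  rw [KaehlerDifferential.tensorKaehlerEquivOfFormallyEtale_symm_D_algebraMap,
    LinearMap.liftBaseChange_tmul, one_smul, Derivation.liftKaehlerDifferential_comp_D]

end

/-- Linear combinations of derivations. -/
theorem der_sum {k L : Type} [Field k] [Field L] [Algebra k L] (s : ℕ) (c : Fin s → L)
    (δ : Fin s → Derivation k L L) (x : L) :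
    (∑ l, c l • δ l) x = ∑ l, c l * δ l x := by
  have h := congrFun (map_sum (Derivation.coeFnAddMonoidHom (R := k) (A := L) (M := L))
    (fun l => c l • δ l) Finset.univ) x
  rw [Finset.sum_apply] at h
  exact h

/-- The general form. -/
theorem der_main (k R L : Type) [Field k] [CharZero k] [CommRing R] [IsDomain R] [Algebra k R]
    [Algebra.FiniteType k R] [Field L] [Algebra k L] [Algebra R L] [IsScalarTower k R L]
    (hinj : Function.Injective (algebraMap R L)) (halg : ∀ y : L, IsAlgebraic R y)
    (σ : Type) [Finite σ] (a : σ → R) (ha : Algebra.adjoin k (Set.range a) = ⊤)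
    (T : Submodule L (σ → L))
    (hT : ∀ δ : Derivation k L L, (fun i => δ (algebraMap R L (a i))) ∈ T) :
    ringKrullDim R ≤ Module.finrank L T := by
  obtain ⟨s, g, hg, hgf⟩ := exists_finite_inj_algHom_of_fg k R
  let _ : Algebra (MvPolynomial (Fin s) k) R := g.toRingHom.toAlgebra
  have hst1 : IsScalarTower k (MvPolynomial (Fin s) k) R := IsScalarTower.of_algebraMap_eq
    (fun c => (g.commutes c).symm)
  have hfin : Module.Finite (MvPolynomial (Fin s) k) R := hgf
  have hdim : ringKrullDim R ≤ (s : WithBot ℕ∞) := by
    refine (der_dim_le (MvPolynomial (Fin s) k) R).trans (le_of_eq ?_)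
    rw [MvPolynomial.ringKrullDim_of_isNoetherianRing, ringKrullDim_eq_zero_of_field, zero_add,
      Nat.card_eq_fintype_card, Fintype.card_fin]
  refine hdim.trans ?_
  let _ : Algebra (MvPolynomial (Fin s) k) L :=
    ((algebraMap R L).comp (algebraMap (MvPolynomial (Fin s) k) R)).toAlgebra
  have hst2 : IsScalarTower (MvPolynomial (Fin s) k) R L := IsScalarTower.of_algebraMap_eq
    (fun c => rfl)
  have hst3 : IsScalarTower k (MvPolynomial (Fin s) k) L := IsScalarTower.of_algebraMap_eq
    (fun c => by
      rw [IsScalarTower.algebraMap_apply k R L,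
        IsScalarTower.algebraMap_apply k (MvPolynomial (Fin s) k) R]
      rfl)
  have hinj2 : Function.Injective (algebraMap (MvPolynomial (Fin s) k) L) := hinj.comp hg
  have halg2 : ∀ y : L, IsAlgebraic (MvPolynomial (Fin s) k) y := by
    intro y
    exact (halg y).restrictScalars_of_isIntegral (MvPolynomial (Fin s) k)
  -- the derivations
  have hδ : ∀ l : Fin s, ∃ D : Derivation k L L, ∀ m : Fin s,
      D (algebraMap R L (g (MvPolynomial.X m))) = if m = l then 1 else 0 := by
    intro l
    obtain ⟨D, hD⟩ := der_ext hinj2 halg2 (MvPolynomial.mkDerivation k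
      (fun m : Fin s => if m = l then (1 : L) else 0))
    refine ⟨D, fun m => ?_⟩
    have h := hD (MvPolynomial.X m)
    rw [MvPolynomial.mkDerivation_X] at h
    exact h
  choose δ hδ using hδ
  -- a derivation killing the generators kills everything
  have hkill : ∀ D : Derivation k L L, (∀ i, D (algebraMap R L (a i)) = 0) →
      ∀ r : R, D (algebraMap R L r) = 0 := by
    intro D hD r
    have hr : r ∈ Algebra.adjoin k (Set.range a) := by rw [ha]; trivial
    induction hr using Algebra.adjoin_induction with
    | mem x hx =>
      obtain ⟨i, rfl⟩ := hx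
      exact hD i
    | algebraMap c =>
      rw [← IsScalarTower.algebraMap_apply k R L]
      exact D.map_algebraMap c
    | add x y _ _ hx hy => rw [map_add, map_add, hx, hy, add_zero]
    | mul x y _ _ hx hy => rw [map_mul, D.leibniz, hx, hy, smul_zero, smul_zero, add_zero]
  have hli : LinearIndependent L (fun l : Fin s =>
      (⟨fun i => δ l (algebraMap R L (a i)), hT (δ l)⟩ : T)) := by
    rw [Fintype.linearIndependent_iff]
    intro c hc m
    have h1 : ∀ i, (∑ l, c l • δ l) (algebraMap R L (a i)) = 0 := by
      intro i
      have h2 := congrFun (congrArg Subtype.val hc) i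
      rw [AddSubmonoidClass.coe_finsetSum, Finset.sum_apply] at h2
      rw [der_sum]
      exact h2
    have h3 := hkill _ h1 (g (MvPolynomial.X m))
    rw [der_sum] at h3
    simp only [hδ] at h3
    simpa using h3
  have hcard := hli.fintype_card_le_finrank
  rw [Fintype.card_fin] at hcard
  exact_mod_cast hcard

theorem der_inj (R : Type) [CommRing R] [IsDomain R] :
    Function.Injective (algebraMap R (AlgebraicClosure (FractionRing R))) := by
  rw [IsScalarTower.algebraMap_eq R (FractionRing R) (AlgebraicClosure (FractionRing R))]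
  exact (algebraMap (FractionRing R) _).injective.comp (IsFractionRing.injective R (FractionRing R))

theorem der_alg (R : Type) [CommRing R] [IsDomain R] (y : AlgebraicClosure (FractionRing R)) :
    IsAlgebraic R y :=
  (IsFractionRing.isAlgebraic_iff R (FractionRing R) (AlgebraicClosure (FractionRing R))).2
    (Algebra.IsAlgebraic.isAlgebraic y)

theorem der_adj (k σ : Type) [Field k] (P : Ideal (MvPolynomial σ k)) :
    Algebra.adjoin k (Set.range fun i => Ideal.Quotient.mk P (MvPolynomial.X i)) = ⊤ := by
  have h := congrArg (Subalgebra.map (Ideal.Quotient.mkₐ k P))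
    (MvPolynomial.adjoin_range_X (R := k) (σ := σ))
  rw [AlgHom.map_adjoin, Algebra.map_top, (AlgHom.range_eq_top _).2
    (Ideal.Quotient.mkₐ_surjective k P), ← Set.range_comp] at h
  exact h

theorem thm_Der : St_Der := by
  intro k _ _ σ _ P _ T hT
  refine der_main k (MvPolynomial σ k ⧸ P)
    (AlgebraicClosure (FractionRing (MvPolynomial σ k ⧸ P))) ?_ ?_ σ
    (fun i => Ideal.Quotient.mk P (MvPolynomial.X i)) ?_ T hT
  · exact der_inj _
  · exact der_alg _
  · exact der_adj k σ P

end Pool.Agent.ACV
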