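import Pool.Agent.ACV.St

/-!
# ACV, module Dg: diagonalization over a local ring
-/

set_option autoImplicit false

namespace Pool.Agent.ACV

open Matrix IsLocalRing

/-- the residue of the product of the `A - l_d`, applied to the lift of an eigenvector -/
theorem dg_prod (R : Type) [CommRing R] [IsLocalRing R] (n : ℕ) (A : Matrix (Fin n) (Fin n) R)
    (l : Fin n → R) (μ : ResidueField R) (w : Fin n → R)
    (hw : (A.map (residue R)) *ᵥ (residue R ∘ w) = μ • (residue R ∘ w)) (s : Finset (Fin n)) :
    residue R ∘ ((Polynomial.aeval A (∏ d ∈ s, (Polynomial.X - Polynomial.C (l d)))) *ᵥ w) =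
      (∏ d ∈ s, (μ - residue R (l d))) • (residue R ∘ w) := by
  classical
  induction s using Finset.induction_on with
  | empty => simp
  | insert a s ha ih =>
    rw [Finset.prod_insert ha, Finset.prod_insert ha, map_mul, ← Matrix.mulVec_mulVec]
    set u := (Polynomial.aeval A (∏ d ∈ s, (Polynomial.X - Polynomial.C (l d)))) *ᵥ w with hu
    have h1 : Polynomial.aeval A (Polynomial.X - Polynomial.C (l a)) = A - l a • (1 : Matrix (Fin n) (Fin n) R) := by
      rw [map_sub, Polynomial.aeval_X, Polynomial.aeval_C, Algebra.algebraMap_eq_smul_one]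
    have h2 : residue R ∘ ((A - l a • (1 : Matrix (Fin n) (Fin n) R)) *ᵥ u) =
        (A.map (residue R)) *ᵥ (residue R ∘ u) - residue R (l a) • (residue R ∘ u) := by
      rw [Matrix.sub_mulVec, Matrix.smul_mulVec, Matrix.one_mulVec]
      funext i
      simp only [Function.comp_apply, Pi.sub_apply, Pi.smul_apply, map_sub, smul_eq_mul, map_mul]
      rw [RingHom.map_mulVec]
    rw [h1, h2, ih, Matrix.mulVec_smul, hw, smul_comm _ μ, ← sub_smul, smul_smul]

/-- A lift of an eigenvector. -/
theorem dg_lift (R : Type) [CommRing R] [IsLocalRing R] (n : ℕ) (A : Matrix (Fin n) (Fin n) R)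
    (l : Fin n → R) (hch : A.charpoly = ∏ i, (Polynomial.X - Polynomial.C (l i))) (c : Fin n) :
    ∃ w : Fin n → R, residue R ∘ w ≠ 0 ∧
      (A.map (residue R)) *ᵥ (residue R ∘ w) = residue R (l c) • (residue R ∘ w) := by
  have h1 : (Matrix.scalar (Fin n) (l c) - A).det = 0 := by
    rw [← Matrix.eval_charpoly, hch, Polynomial.eval_prod]
    exact Finset.prod_eq_zero (Finset.mem_univ c) (by simp)
  have h2 : ((Matrix.scalar (Fin n) (l c) - A).map (residue R)).det = 0 := by
    rw [← RingHom.mapMatrix_apply, ← RingHom.map_det, h1, map_zero]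
  obtain ⟨w', hw0, hw⟩ := Matrix.exists_mulVec_eq_zero_iff.mpr h2
  choose w hw' using fun i => residue_surjective (R := R) (w' i)
  have h3 : residue R ∘ w = w' := funext hw'
  have h4 : (Matrix.scalar (Fin n) (l c) - A).map (residue R) =
      residue R (l c) • (1 : Matrix (Fin n) (Fin n) (ResidueField R)) - A.map (residue R) := by
    ext i j
    by_cases hij : i = j
    · subst hij
      simp
    · simp [hij]
  refine ⟨w, by rw [h3]; exact hw0, ?_⟩
  rw [h3]
  rw [h4, Matrix.sub_mulVec, Matrix.smul_mulVec, Matrix.one_mulVec, sub_eq_zero] at hw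
  exact hw.symm

theorem thm_Dg : St_Dg := by
  classical
  intro R _ _ n A l hch hl
  choose w hw0 hw using dg_lift R n A l hch
  let N : Fin n → Matrix (Fin n) (Fin n) R := fun c =>
    Polynomial.aeval A (∏ d ∈ Finset.univ.erase c, (Polynomial.X - Polynomial.C (l d)))
  have hN : ∀ c, A * N c = l c • N c := by
    intro c
    have h1 : (A - l c • (1 : Matrix (Fin n) (Fin n) R)) * N c = 0 := by
      have h2 : Polynomial.aeval A (Polynomial.X - Polynomial.C (l c)) =
          A - l c • (1 : Matrix (Fin n) (Fin n) R) := by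
        rw [map_sub, Polynomial.aeval_X, Polynomial.aeval_C, Algebra.algebraMap_eq_smul_one]
      rw [← h2, ← map_mul, Finset.mul_prod_erase Finset.univ
        (fun d => Polynomial.X - Polynomial.C (l d)) (Finset.mem_univ c), ← hch]
      exact Matrix.aeval_self_charpoly A
    rw [sub_mul, smul_mul_assoc, one_mul, sub_eq_zero] at h1
    exact h1
  let g : Matrix (Fin n) (Fin n) R := Matrix.of fun i c => (N c *ᵥ w c) i
  refine ⟨g, ?_, ?_⟩
  · rw [← residue_ne_zero_iff_isUnit, RingHom.map_det, RingHom.mapMatrix_apply, ← isUnit_iff_ne_zero,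
      ← Matrix.isUnit_iff_isUnit_det, ← Matrix.linearIndependent_cols_iff_isUnit]
    have hcol : ∀ c, (g.map (residue R)).col c =
        (∏ d ∈ Finset.univ.erase c, (residue R (l c) - residue R (l d))) •
          (residue R ∘ w c) := by
      intro c
      rw [← dg_prod R n A l (residue R (l c)) (w c) (hw c) (Finset.univ.erase c)]
      rfl
    have hne : ∀ c d, c ≠ d → residue R (l c) - residue R (l d) ≠ 0 := by
      intro c d hcd
      rw [← map_sub, residue_ne_zero_iff_isUnit]
      exact hl c d hcd
    refine Module.End.eigenvectors_linearIndependent' (Matrix.mulVecLin (A.map (residue R)))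
      (fun c => residue R (l c)) ?_ _ ?_
    · intro c d hcd
      by_contra h
      exact hne c d h (sub_eq_zero.mpr hcd)
    · intro c
      refine ⟨?_, ?_⟩
      · rw [Module.End.mem_eigenspace_iff, Matrix.mulVecLin_apply, hcol, Matrix.mulVec_smul, hw,
          smul_comm]
      · rw [hcol]
        refine smul_ne_zero ?_ (hw0 c)
        rw [Finset.prod_ne_zero_iff]
        intro d hd
        exact hne c d (Finset.ne_of_mem_erase hd).symm
  · ext i c
    rw [Matrix.mul_diagonal]
    have h1 : (A * g) i c = (A *ᵥ (N c *ᵥ w c)) i := rfl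
    rw [h1, Matrix.mulVec_mulVec, hN, Matrix.smul_mulVec, Pi.smul_apply, smul_eq_mul, mul_comm]
    rfl

end Pool.Agent.ACV
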