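import Pool.Agent.ACV.St

/-!
# ACV: Dm, the dimension of the almost commuting scheme
-/

set_option autoImplicit false

noncomputable section

namespace Pool.Agent.ACV

open Matrix

theorem dm_dsc {R S : Type} [CommRing R] [CommRing S] (f : R →+* S) {n : ℕ}
    (M : Matrix (Fin n) (Fin n) R) : dsc (M.map f) = f (dsc M) := by
  unfold dsc
  rw [RingHom.map_det]
  congr 1
  ext a b
  simp only [RingHom.mapMatrix_apply, Matrix.map_apply, Matrix.of_apply]
  have h1 : (M.map f) ^ ((a : ℕ) + b) = (M ^ ((a : ℕ) + b)).map f :=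
    (map_pow (RingHom.mapMatrix f) M ((a : ℕ) + b)).symm
  rw [h1]
  simp only [Matrix.trace, Matrix.diag_apply, Matrix.map_apply, map_sum]

theorem thm_Dm (hDer : St_Der) (hJBx : St_JBx) (hTA : St_TA) (hVd : St_Vd) : St_Dm := by
  intro k _ _ n P hP hIJ
  classical
  let L := AlgebraicClosure (FractionRing (RS k n ⧸ P))
  let φ : RS k n →+* L := (algebraMap (RS k n ⧸ P) L).comp (Ideal.Quotient.mk P)
  have hφ : ∀ f ∈ P, φ f = 0 := by
    intro f hf
    change algebraMap (RS k n ⧸ P) L (Ideal.Quotient.mk P f) = 0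
    rw [Ideal.Quotient.eq_zero_iff_mem.mpr hf, map_zero]
  let A : Matrix (Fin n) (Fin n) L := (sX k n).map φ
  let B : Matrix (Fin n) (Fin n) L := (sY k n).map φ
  let v : Fin n → L := fun i => φ (sv k n i)
  let j : Fin n → L := fun i => φ (sj k n i)
  have hrel : A * B - B * A + vecMulVec v j = 0 := by
    ext a b
    have h1 : φ (eqn k n (a, b)) = 0 := hφ _ (hIJ (Ideal.subset_span ⟨(a, b), rfl⟩))
    have h2 : φ (eqn k n (a, b)) = (A * B - B * A + vecMulVec v j) a b := by
      simp only [eqn, Matrix.add_apply, Matrix.sub_apply, Matrix.mul_apply, vecMulVec_apply,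
        map_add, map_sub, map_sum, map_mul, A, B, v, j, Matrix.map_apply]
    rw [← h2, h1, Matrix.zero_apply]
  obtain ⟨κ, _, ℓ, μ, b, hb⟩ := hJBx L n A
  obtain ⟨T, hT, hδ⟩ := hTA k L n A B v j hrel κ ℓ μ b hb
  obtain ⟨h1, h2⟩ := hVd L n A κ ℓ μ b hb
  have hco : ∀ i, co A B v j i = algebraMap (RS k n ⧸ P) L
      (Ideal.Quotient.mk P (MvPolynomial.X i)) := by
    rintro (⟨s, a, b⟩ | ⟨s, a⟩)
    · fin_cases s <;> rfl
    · fin_cases s <;> rfl
  have hdim := hDer k (Sg n) P T (fun δ => by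
    have h3 := hδ δ
    simp_rw [hco] at h3
    exact h3)
  have hle : ringKrullDim (RS k n ⧸ P) ≤
      ((n ^ 2 + n + (Finset.univ.image μ).card : ℕ) : WithBot ℕ∞) :=
    hdim.trans (by exact_mod_cast hT)
  refine ⟨hle.trans (by exact_mod_cast (by omega)), fun hd => ?_⟩
  have h3 : (Finset.univ.image μ).card ≠ n := by
    intro h
    apply h2 h
    rw [dm_dsc, hφ _ hd]
  have h4 : (Finset.univ.image μ).card + 1 ≤ n := by omega
  calc ringKrullDim (RS k n ⧸ P) + 1
      ≤ ((n ^ 2 + n + (Finset.univ.image μ).card : ℕ) : WithBot ℕ∞) + 1 :=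
        add_le_add_left hle 1
    _ = ((n ^ 2 + n + (Finset.univ.image μ).card + 1 : ℕ) : WithBot ℕ∞) := by push_cast; rfl
    _ ≤ _ := by exact_mod_cast (by omega)

end Pool.Agent.ACV
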