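import Pool.Agent.ACV.St

/-!
# ACV Dsc: if the discriminant is a unit, the eigenvalues have unit differences
-/

set_option autoImplicit false
set_option linter.unusedVariables false

noncomputable section

namespace Pool.Agent.ACV

open Matrix

theorem dsc_map {R S : Type} [CommRing R] [CommRing S] (φ : R →+* S) {n : ℕ}
    (A : Matrix (Fin n) (Fin n) R) : φ (dsc A) = dsc (A.map φ) := by
  unfold dsc
  rw [RingHom.map_det]
  congr 1
  ext a b
  simp only [RingHom.mapMatrix_apply, Matrix.map_apply, Matrix.of_apply]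
  have h : (A.map φ) ^ ((a : ℕ) + b) = (A ^ ((a : ℕ) + b)).map φ :=
    (map_pow φ.mapMatrix A _).symm
  rw [h, Matrix.trace, Matrix.trace, map_sum]
  rfl

theorem dsc_zero {F : Type} [Field F] (n : ℕ) (A : Matrix (Fin n) (Fin n) F) (l : Fin n → F)
    (hA : A.charpoly = ∏ i, (Polynomial.X - Polynomial.C (l i))) (c d : Fin n) (hcd : c ≠ d)
    (hl : l c = l d) : dsc A = 0 := by
  classical
  obtain ⟨p, hp⟩ : ∃ p : Polynomial F,
      p = ∏ i ∈ Finset.univ.erase c, (Polynomial.X - Polynomial.C (l i)) := ⟨_, rfl⟩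
  obtain ⟨s, hs⟩ : ∃ s : Polynomial F,
      s = ∏ i ∈ (Finset.univ.erase c).erase d, (Polynomial.X - Polynomial.C (l i)) := ⟨_, rfl⟩
  have h1 : p = (Polynomial.X - Polynomial.C (l d)) * s := by
    rw [hp, hs]
    exact (Finset.mul_prod_erase _ _ (Finset.mem_erase.2 ⟨hcd.symm, Finset.mem_univ _⟩)).symm
  have h2 : A.charpoly = (Polynomial.X - Polynomial.C (l d)) * p := by
    rw [hA, ← hl, hp]
    exact (Finset.mul_prod_erase _ _ (Finset.mem_univ c)).symm
  have h3 : p * p = A.charpoly * s := by
    rw [h2, mul_right_comm, ← h1]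
  have h4 : Polynomial.aeval A p * Polynomial.aeval A p = 0 := by
    rw [← map_mul, h3, map_mul, Matrix.aeval_self_charpoly, zero_mul]
  have hpm : p.Monic := by
    rw [hp]
    exact Polynomial.monic_prod_of_monic _ _ fun i _ => Polynomial.monic_X_sub_C _
  have hdeg : p.natDegree + 1 = n := by
    rw [hp, Polynomial.natDegree_prod_of_monic _ _ fun i _ => Polynomial.monic_X_sub_C _]
    simp only [Polynomial.natDegree_X_sub_C, Finset.sum_const, smul_eq_mul, mul_one]
    rw [Finset.card_erase_add_one (Finset.mem_univ c), Finset.card_univ, Fintype.card_fin]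
  have hnil : ∀ a : ℕ, (A ^ a * Polynomial.aeval A p).trace = 0 := by
    intro a
    have hc : Commute (A ^ a) (Polynomial.aeval A p) := by
      have : A ^ a = Polynomial.aeval A (Polynomial.X ^ a : Polynomial F) := by
        rw [map_pow, Polynomial.aeval_X]
      rw [this]
      show Polynomial.aeval A (Polynomial.X ^ a) * Polynomial.aeval A p =
        Polynomial.aeval A p * Polynomial.aeval A (Polynomial.X ^ a)
      rw [← map_mul, ← map_mul, mul_comm]
    have h5 : IsNilpotent (A ^ a * Polynomial.aeval A p) :=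
      ⟨2, by rw [hc.mul_pow, pow_two (Polynomial.aeval A p), h4, mul_zero]⟩
    exact (Matrix.isNilpotent_trace_of_isNilpotent h5).eq_zero
  unfold dsc
  refine Matrix.exists_mulVec_eq_zero_iff.1 ⟨fun b => p.coeff b, ?_, ?_⟩
  · intro h
    have h6 := congrFun h ⟨p.natDegree, by omega⟩
    have h7 : p.coeff p.natDegree = 1 := hpm.coeff_natDegree
    rw [Pi.zero_apply] at h6
    exact one_ne_zero (h7.symm.trans h6)
  · funext a
    rw [Pi.zero_apply, ← hnil a, Polynomial.aeval_eq_sum_range' (n := n) (by omega) A,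
      Finset.mul_sum, Matrix.trace_sum, ← Fin.sum_univ_eq_sum_range
        (fun b => (A ^ (a : ℕ) * p.coeff b • A ^ b).trace)]
    show ∑ b : Fin n, (Matrix.of fun a b : Fin n => (A ^ ((a : ℕ) + b)).trace) a b * p.coeff b = _
    refine Finset.sum_congr rfl fun b _ => ?_
    rw [Matrix.of_apply, mul_smul_comm, Matrix.trace_smul, ← pow_add, smul_eq_mul, mul_comm]

theorem thm_Dsc : St_Dsc := by
  intro R _ _ n A l hA hu c d hcd
  by_contra hne
  have h1 : l c - l d ∈ IsLocalRing.maximalIdeal R := (IsLocalRing.mem_maximalIdeal _).2 hne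
  have h2 : IsLocalRing.residue R (l c) = IsLocalRing.residue R (l d) := by
    rw [← sub_eq_zero, ← map_sub]
    exact (IsLocalRing.residue_eq_zero_iff _).2 h1
  have h3 : (A.map (IsLocalRing.residue R)).charpoly =
      ∏ i, (Polynomial.X - Polynomial.C (IsLocalRing.residue R (l i))) := by
    rw [Matrix.charpoly_map, hA, Polynomial.map_prod]
    refine Finset.prod_congr rfl fun i _ => ?_
    rw [Polynomial.map_sub, Polynomial.map_X, Polynomial.map_C]
  have h4 := dsc_zero n _ (fun i => IsLocalRing.residue R (l i)) h3 c d hcd h2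
  rw [← dsc_map] at h4
  exact (hu.map (IsLocalRing.residue R)).ne_zero h4

end Pool.Agent.ACV
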