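import Pool.Agent.ACV.St

/-!
# ACV Eqv: invariance over all algebras
-/

set_option autoImplicit false
set_option linter.unusedVariables false

noncomputable section

namespace Pool.Agent.ACV

open Matrix

section

variable {n r : ℕ} {R S : Type} [CommRing R] [CommRing S] [Algebra ℂ R] [Algebra ℂ S]

theorem eqv_nat (ψ : R →ₐ[ℂ] S) (A B : Matrix (Fin n) (Fin n) R) (v : Fin n → R)
    (ξ : Fin r → Fin n → R) (f : MvPolynomial (Vg n r) ℂ) :
    ψ (evg A B v ξ f) = evg (A.map ψ) (B.map ψ) (fun i => ψ (v i)) (fun s i => ψ (ξ s i)) f := by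
  unfold evg
  rw [← AlgHom.comp_apply, MvPolynomial.comp_aeval]
  congr 2
  funext x
  rcases x with ⟨i, a, b⟩ | (i | ⟨s, i⟩)
  · show ψ (if i = 0 then A a b else B a b) = if i = 0 then (A.map ψ) a b else (B.map ψ) a b
    split_ifs <;> rfl
  · rfl
  · rfl

theorem eqv_tr (ψ : R →ₐ[ℂ] S) (g h A B : Matrix (Fin n) (Fin n) R) (v : Fin n → R)
    (ξ : Fin r → Fin n → R) (f : MvPolynomial (Vg n r) ℂ) :
    ψ (evg (g * A * h) (g * B * h) (g *ᵥ v) (fun s => ξ s ᵥ* h) f) =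
      evg (g.map ψ * A.map ψ * h.map ψ) (g.map ψ * B.map ψ * h.map ψ)
        (g.map ψ *ᵥ fun i => ψ (v i)) (fun s => (fun i => ψ (ξ s i)) ᵥ* h.map ψ) f := by
  rw [eqv_nat]
  have h1 : ∀ M : Matrix (Fin n) (Fin n) R, (g * M * h).map ψ = g.map ψ * M.map ψ * h.map ψ := by
    intro M
    rw [Matrix.map_mul, Matrix.map_mul]
  have h2 : (fun i => ψ ((g *ᵥ v) i)) = g.map ψ *ᵥ fun i => ψ (v i) := by
    funext i
    exact RingHom.map_mulVec (ψ : R →+* S) g v i
  have h3 : (fun s i => ψ ((ξ s ᵥ* h) i)) = fun s => (fun i => ψ (ξ s i)) ᵥ* h.map ψ := by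
    funext s i
    exact RingHom.map_vecMul (ψ : R →+* S) h (ξ s) i
  rw [h1, h1, h2, h3]

end

/-- the variables of the universal point -/
abbrev eqv_T (n r : ℕ) := (Fin n × Fin n) ⊕ Vg n r

section

variable (n r : ℕ)

/-- the universal group element -/
def eqv_g : Matrix (Fin n) (Fin n) (MvPolynomial (eqv_T n r) ℂ) := fun i j =>
  MvPolynomial.X (Sum.inl (i, j))

/-- the universal matrices -/
def eqv_M (c : Fin 2) : Matrix (Fin n) (Fin n) (MvPolynomial (eqv_T n r) ℂ) := fun i j =>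
  MvPolynomial.X (Sum.inr (Sum.inl (c, i, j)))

/-- the universal vector -/
def eqv_v : Fin n → MvPolynomial (eqv_T n r) ℂ := fun i =>
  MvPolynomial.X (Sum.inr (Sum.inr (Sum.inl i)))

/-- the universal covectors -/
def eqv_x : Fin r → Fin n → MvPolynomial (eqv_T n r) ℂ := fun s i =>
  MvPolynomial.X (Sum.inr (Sum.inr (Sum.inr (s, i))))

variable {n r}

/-- the point of an algebra -/
def eqv_pt {R : Type} [CommRing R] [Algebra ℂ R] (g A B : Matrix (Fin n) (Fin n) R)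
    (v : Fin n → R) (ξ : Fin r → Fin n → R) : MvPolynomial (eqv_T n r) ℂ →ₐ[ℂ] R :=
  MvPolynomial.aeval (Sum.elim (fun t => g t.1 t.2)
    (Sum.elim (fun t => if t.1 = 0 then A t.2.1 t.2.2 else B t.2.1 t.2.2)
    (Sum.elim v fun t => ξ t.1 t.2)))

theorem eqv_pt_g {R : Type} [CommRing R] [Algebra ℂ R] (g A B : Matrix (Fin n) (Fin n) R)
    (v : Fin n → R) (ξ : Fin r → Fin n → R) :
    (eqv_g n r).map (eqv_pt g A B v ξ) = g ∧ (eqv_M n r 0).map (eqv_pt g A B v ξ) = A ∧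
      (eqv_M n r 1).map (eqv_pt g A B v ξ) = B ∧ (fun i => eqv_pt g A B v ξ (eqv_v n r i)) = v ∧
      (fun s i => eqv_pt g A B v ξ (eqv_x n r s i)) = ξ := by
  refine ⟨?_, ?_, ?_, ?_, ?_⟩
  · ext i j
    exact MvPolynomial.aeval_X _ _
  · ext i j
    exact MvPolynomial.aeval_X _ _
  · ext i j
    exact MvPolynomial.aeval_X _ _
  · funext i
    exact MvPolynomial.aeval_X _ _
  · funext s i
    exact MvPolynomial.aeval_X _ _

theorem eqv_det : (eqv_g n r).det ≠ 0 := by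
  intro h
  have h1 := congrArg (eqv_pt (1 : Matrix (Fin n) (Fin n) ℂ) 0 0 0 (0 : Fin r → Fin n → ℂ)) h
  rw [map_zero] at h1
  have h2 := RingHom.map_det ((eqv_pt (1 : Matrix (Fin n) (Fin n) ℂ) 0 0 0
    (0 : Fin r → Fin n → ℂ)) : MvPolynomial (eqv_T n r) ℂ →+* ℂ) (eqv_g n r)
  have h3 := (eqv_pt_g (1 : Matrix (Fin n) (Fin n) ℂ) 0 0 0 (0 : Fin r → Fin n → ℂ)).1
  have h4 : (eqv_pt (1 : Matrix (Fin n) (Fin n) ℂ) 0 0 0 (0 : Fin r → Fin n → ℂ))
      (eqv_g n r).det = 1 := by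
    refine h2.trans ?_
    have h5 : ((eqv_pt (1 : Matrix (Fin n) (Fin n) ℂ) 0 0 0
      (0 : Fin r → Fin n → ℂ)) : MvPolynomial (eqv_T n r) ℂ →+* ℂ).mapMatrix (eqv_g n r) = 1 := h3
    rw [h5, Matrix.det_one]
  rw [h4] at h1
  exact one_ne_zero h1

/-- the universal ring -/
abbrev eqv_L (n r : ℕ) : Type := Localization.Away (eqv_g n r).det

theorem eqv_lift {R : Type} [CommRing R] [Algebra ℂ R]
    (φ : MvPolynomial (eqv_T n r) ℂ →ₐ[ℂ] R) (h : IsUnit (φ (eqv_g n r).det)) :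
    ∃ ψ : eqv_L n r →ₐ[ℂ] R, ∀ p, ψ (algebraMap _ (eqv_L n r) p) = φ p := by
  have h1 : ∀ y : Submonoid.powers (eqv_g n r).det, IsUnit (φ y) := by
    rintro ⟨_, k, rfl⟩
    show IsUnit (φ ((eqv_g n r).det ^ k))
    rw [map_pow]
    exact h.pow k
  refine ⟨IsLocalization.liftAlgHom (M := Submonoid.powers (eqv_g n r).det) (S := eqv_L n r)
    (f := φ) h1, fun p => ?_⟩
  exact IsLocalization.lift_eq _ _

theorem eqv_univ (f : MvPolynomial (Vg n r) ℂ) (hf : Inv f)
    (hL : Matrix (Fin n) (Fin n) (eqv_L n r))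
    (h1 : (eqv_g n r).map (algebraMap _ (eqv_L n r)) * hL = 1) :
    evg ((eqv_g n r).map (algebraMap _ (eqv_L n r)) * (eqv_M n r 0).map (algebraMap _ (eqv_L n r)) *
      hL) ((eqv_g n r).map (algebraMap _ (eqv_L n r)) *
        (eqv_M n r 1).map (algebraMap _ (eqv_L n r)) * hL)
      ((eqv_g n r).map (algebraMap _ (eqv_L n r)) *ᵥ fun i =>
        algebraMap _ (eqv_L n r) (eqv_v n r i))
      (fun s => (fun i => algebraMap _ (eqv_L n r) (eqv_x n r s i)) ᵥ* hL) f =
    evg ((eqv_M n r 0).map (algebraMap _ (eqv_L n r)))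
      ((eqv_M n r 1).map (algebraMap _ (eqv_L n r)))
      (fun i => algebraMap _ (eqv_L n r) (eqv_v n r i))
      (fun s i => algebraMap _ (eqv_L n r) (eqv_x n r s i)) f := by
  rw [← sub_eq_zero]
  obtain ⟨E, hE⟩ : ∃ E : eqv_L n r, E = evg ((eqv_g n r).map (algebraMap _ (eqv_L n r)) *
      (eqv_M n r 0).map (algebraMap _ (eqv_L n r)) *
      hL) ((eqv_g n r).map (algebraMap _ (eqv_L n r)) *
        (eqv_M n r 1).map (algebraMap _ (eqv_L n r)) * hL)
      ((eqv_g n r).map (algebraMap _ (eqv_L n r)) *ᵥ fun i =>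
        algebraMap _ (eqv_L n r) (eqv_v n r i))
      (fun s => (fun i => algebraMap _ (eqv_L n r) (eqv_x n r s i)) ᵥ* hL) f -
    evg ((eqv_M n r 0).map (algebraMap _ (eqv_L n r)))
      ((eqv_M n r 1).map (algebraMap _ (eqv_L n r)))
      (fun i => algebraMap _ (eqv_L n r) (eqv_v n r i))
      (fun s i => algebraMap _ (eqv_L n r) (eqv_x n r s i)) f := ⟨_, rfl⟩
  rw [← hE]
  obtain ⟨⟨p, s⟩, hps⟩ := IsLocalization.surj (Submonoid.powers (eqv_g n r).det) E
  have hs : IsUnit (algebraMap (MvPolynomial (eqv_T n r) ℂ) (eqv_L n r) s) :=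
    IsLocalization.map_units _ s
  have hp : p = 0 := by
    have h2 : (eqv_g n r).det * p = 0 := by
      refine MvPolynomial.funext fun x => ?_
      rw [map_zero, map_mul]
      by_cases h3 : MvPolynomial.eval x (eqv_g n r).det = 0
      · rw [h3, zero_mul]
      · have h4 : ∀ q : MvPolynomial (eqv_T n r) ℂ,
            MvPolynomial.aeval (S₁ := ℂ) x q = MvPolynomial.eval x q := fun q => by
          rw [MvPolynomial.aeval_eq_eval]
        obtain ⟨ψ, hψ⟩ := eqv_lift (MvPolynomial.aeval (S₁ := ℂ) x)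
          (by rw [h4]; exact isUnit_iff_ne_zero.2 h3)
        have h5 : ψ E = 0 := by
          rw [hE, map_sub, eqv_tr, eqv_nat, sub_eq_zero]
          have h6 : ((eqv_g n r).map (algebraMap _ (eqv_L n r))).map ψ * hL.map ψ = 1 := by
            rw [← Matrix.map_mul, h1]
            exact Matrix.map_one _ (map_zero ψ) (map_one ψ)
          have h7 : hL.map ψ * ((eqv_g n r).map (algebraMap _ (eqv_L n r))).map ψ = 1 :=
            mul_eq_one_comm.1 h6
          exact hf ⟨_, _, h6, h7⟩ _ _ _ _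
        have h6 : ψ (algebraMap (MvPolynomial (eqv_T n r) ℂ) (eqv_L n r) p) = 0 := by
          rw [← hps, map_mul, h5, zero_mul]
        rw [hψ, h4] at h6
        rw [h6, mul_zero]
    exact (mul_eq_zero.1 h2).resolve_left eqv_det
  rw [hp, map_zero] at hps
  exact (hs.mul_left_eq_zero).1 hps

end

theorem thm_Eqv : St_Eqv := by
  intro n r f hf R _ _ g h hgh A B v ξ
  have hu : IsUnit (eqv_pt g A B v ξ (eqv_g n r).det) := by
    have h1 : eqv_pt g A B v ξ (eqv_g n r).det = g.det := by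
      refine (RingHom.map_det (eqv_pt g A B v ξ : MvPolynomial (eqv_T n r) ℂ →+* R)
        (eqv_g n r)).trans ?_
      exact congrArg Matrix.det (eqv_pt_g g A B v ξ).1
    rw [h1]
    exact (Matrix.isUnit_iff_isUnit_det g).1 (IsUnit.of_mul_eq_one h hgh)
  obtain ⟨ψ, hψ⟩ := eqv_lift (eqv_pt g A B v ξ) hu
  have hdet : IsUnit ((eqv_g n r).map (algebraMap _ (eqv_L n r))).det := by
    have h1 : ((eqv_g n r).map (algebraMap _ (eqv_L n r))).det =
        algebraMap _ (eqv_L n r) (eqv_g n r).det :=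
      (RingHom.map_det (algebraMap _ (eqv_L n r)) (eqv_g n r)).symm
    rw [h1]
    exact IsLocalization.map_units (M := Submonoid.powers (eqv_g n r).det) (eqv_L n r)
      ⟨(eqv_g n r).det, 1, pow_one _⟩
  have h1 := Matrix.mul_nonsing_inv _ hdet
  have h2 := eqv_univ f hf _ h1
  have h3 := congrArg ψ h2
  rw [eqv_tr, eqv_nat] at h3
  have hmap : ∀ M : Matrix (Fin n) (Fin n) (MvPolynomial (eqv_T n r) ℂ),
      (M.map (algebraMap _ (eqv_L n r))).map ψ = M.map (eqv_pt g A B v ξ) := by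
    intro M
    ext i j
    exact hψ _
  simp only [hmap, hψ] at h3
  obtain ⟨k1, k2, k3, k4, k5⟩ := eqv_pt_g g A B v ξ
  have k6 : ∀ s, (fun i => eqv_pt g A B v ξ (eqv_x n r s i)) = ξ s := fun s => congrFun k5 s
  simp only [k1, k2, k3, k4, k6] at h3
  have h4 : (((eqv_g n r).map (algebraMap _ (eqv_L n r)))⁻¹).map ψ = h := by
    have h5 : ((eqv_g n r).map (algebraMap _ (eqv_L n r))).map ψ *
        (((eqv_g n r).map (algebraMap _ (eqv_L n r)))⁻¹).map ψ = 1 := by
      rw [← Matrix.map_mul, h1]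
      exact Matrix.map_one _ (map_zero ψ) (map_one ψ)
    rw [hmap, k1] at h5
    have h6 : h * g = 1 := mul_eq_one_comm.1 hgh
    calc (((eqv_g n r).map (algebraMap _ (eqv_L n r)))⁻¹).map ψ
        = (h * g) * (((eqv_g n r).map (algebraMap _ (eqv_L n r)))⁻¹).map ψ := by
          rw [h6, one_mul]
      _ = h := by rw [mul_assoc, h5, mul_one]
  rw [h4, k5] at h3
  exact h3

end Pool.Agent.ACV
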