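import Pool.Agent.ACV.St
import Pool.Agent.CTR.St

/-!
# ACV: module Fin (assembly)
-/

set_option autoImplicit false

noncomputable section

namespace Pool.Agent.ACV

open Matrix

theorem fin_evg_map {n r : ℕ} {R R' : Type} [CommRing R] [Algebra ℂ R] [CommRing R']
    [Algebra ℂ R'] (φ : R →+* R') (hφ : φ.comp (algebraMap ℂ R) = algebraMap ℂ R')
    (A B : Matrix (Fin n) (Fin n) R) (v : Fin n → R) (ξ : Fin r → Fin n → R)
    (f : MvPolynomial (Vg n r) ℂ) :
    φ (evg A B v ξ f) = evg (A.map φ) (B.map φ) (φ ∘ v) (fun s => φ ∘ ξ s) f := by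
  unfold evg
  rw [MvPolynomial.aeval_def, MvPolynomial.aeval_def, MvPolynomial.eval₂_comp_left, hφ]
  congr 1
  funext x
  rcases x with ⟨t, a, b⟩ | x | ⟨s, a⟩
  · by_cases h : t = 0
    · simp [h]
    · simp [h]
  · rfl
  · rfl

theorem fin_dsc_map {n : ℕ} {R R' : Type} [CommRing R] [CommRing R'] (φ : R →+* R')
    (A : Matrix (Fin n) (Fin n) R) : φ (dsc A) = dsc (A.map φ) := by
  unfold dsc
  rw [RingHom.map_det]
  congr 1
  ext a b
  have h1 : ∀ k : ℕ, (A.map φ) ^ k = (A ^ k).map φ := fun k => by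
    have := map_pow φ.mapMatrix A k
    simpa [RingHom.mapMatrix_apply] using this.symm
  simp [Matrix.trace, h1]

/-- The relation over a local ring. -/
theorem fin_local (hDsc : St_Dsc) (hDg : St_Dg) (hTor : St_Tor) (hEqv : St_Eqv) (n r : ℕ)
    (f : MvPolynomial (Vg n r) ℂ) (hI : Inv f) (hV : Van f) (R : Type) [CommRing R]
    [IsLocalRing R] [Algebra ℂ R] (A B : Matrix (Fin n) (Fin n) R) (v j : Fin n → R)
    (ξ : Fin r → Fin n → R) (h : A * B - B * A + vecMulVec v j = 0) (hd : IsUnit (dsc A))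
    (l : Fin n → R) (hl : A.charpoly = ∏ i, (Polynomial.X - Polynomial.C (l i))) :
    evg A B v ξ f = 0 := by
  have h1 := hDsc R n A l hl hd
  obtain ⟨g, hg, hAg⟩ := hDg R n A l hl h1
  have hgh : g * g⁻¹ = 1 := Matrix.mul_nonsing_inv g hg
  have hhg : g⁻¹ * g = 1 := Matrix.nonsing_inv_mul g hg
  have h2 : g⁻¹ * (A * B - B * A + vecMulVec v j) * g = 0 := by rw [h, mul_zero, zero_mul]
  have h3 : g⁻¹ * (A * B - B * A + vecMulVec v j) * g =
      Matrix.diagonal l * (g⁻¹ * B * g) - (g⁻¹ * B * g) * Matrix.diagonal l +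
        vecMulVec (g⁻¹ *ᵥ v) (j ᵥ* g) := by
    have e1 : g⁻¹ * (A * B) * g = Matrix.diagonal l * (g⁻¹ * B * g) := by
      have e2 : g⁻¹ * A = Matrix.diagonal l * g⁻¹ := by
        calc g⁻¹ * A = g⁻¹ * (A * (g * g⁻¹)) := by rw [hgh, mul_one]
          _ = g⁻¹ * (A * g) * g⁻¹ := by simp only [mul_assoc]
          _ = (g⁻¹ * g) * Matrix.diagonal l * g⁻¹ := by rw [hAg]; simp only [mul_assoc]
          _ = Matrix.diagonal l * g⁻¹ := by rw [hhg, one_mul]
      calc g⁻¹ * (A * B) * g = (g⁻¹ * A) * B * g := by simp only [mul_assoc]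
        _ = _ := by rw [e2]; simp only [mul_assoc]
    have e3 : g⁻¹ * (B * A) * g = (g⁻¹ * B * g) * Matrix.diagonal l := by
      calc g⁻¹ * (B * A) * g = g⁻¹ * B * (A * g) := by simp only [mul_assoc]
        _ = _ := by rw [hAg]; simp only [mul_assoc]
    rw [mul_add, mul_sub, add_mul, sub_mul, e1, e3, Matrix.mul_vecMulVec, Matrix.vecMulVec_mul]
  rw [h3] at h2
  have h4 := hTor n r f hI hV R l (g⁻¹ * B * g) (g⁻¹ *ᵥ v) (j ᵥ* g) (fun s => ξ s ᵥ* g) h1
    (fun c d => by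
      have h5 := congrFun (congrFun h2 c) d
      rw [Matrix.add_apply, Matrix.sub_apply, Matrix.diagonal_mul, Matrix.mul_diagonal,
        Matrix.vecMulVec_apply, Matrix.zero_apply] at h5
      rw [← h5]
      ring)
  have h5 := hEqv n r f hI R g g⁻¹ hgh (Matrix.diagonal l) (g⁻¹ * B * g) (g⁻¹ *ᵥ v)
    (fun s => ξ s ᵥ* g)
  rw [h4] at h5
  have e1 : g * Matrix.diagonal l * g⁻¹ = A := by
    rw [← hAg, mul_assoc, hgh, mul_one]
  have e2 : g * (g⁻¹ * B * g) * g⁻¹ = B := by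
    calc g * (g⁻¹ * B * g) * g⁻¹ = (g * g⁻¹) * B * (g * g⁻¹) := by simp only [mul_assoc]
      _ = B := by rw [hgh, one_mul, mul_one]
  have e3 : g *ᵥ (g⁻¹ *ᵥ v) = v := by
    rw [Matrix.mulVec_mulVec, hgh, Matrix.one_mulVec]
  have e4 : (fun s => (ξ s ᵥ* g) ᵥ* g⁻¹) = ξ := by
    funext s
    rw [Matrix.vecMul_vecMul, hgh, Matrix.vecMul_one]
  rw [e1, e2, e3, e4] at h5
  exact h5

/-- Rings in which the characteristic polynomial splits. -/
theorem fin_split (hDsc : St_Dsc) (hDg : St_Dg) (hTor : St_Tor) (hEqv : St_Eqv) (n r : ℕ)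
    (f : MvPolynomial (Vg n r) ℂ) (hI : Inv f) (hV : Van f) (R : Type) [CommRing R]
    [Algebra ℂ R] (A B : Matrix (Fin n) (Fin n) R) (v j : Fin n → R)
    (ξ : Fin r → Fin n → R) (h : A * B - B * A + vecMulVec v j = 0) (hd : IsUnit (dsc A))
    (l : Fin n → R) (hl : A.charpoly = ∏ i, (Polynomial.X - Polynomial.C (l i))) :
    evg A B v ξ f = 0 := by
  apply eq_zero_of_localization
  intro P hP
  have hφ : (algebraMap R (Localization.AtPrime P)).comp (algebraMap ℂ R) =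
      algebraMap ℂ (Localization.AtPrime P) := (IsScalarTower.algebraMap_eq ℂ R _).symm
  rw [fin_evg_map _ hφ]
  set φ := algebraMap R (Localization.AtPrime P)
  refine fin_local hDsc hDg hTor hEqv n r f hI hV _ _ _ _ (φ ∘ j) _ ?_ ?_ (φ ∘ l) ?_
  · have h1 := congrArg (fun M => φ.mapMatrix M) h
    simp only [map_add, map_sub, map_mul, map_zero, RingHom.mapMatrix_apply] at h1
    have h2 : (vecMulVec v j).map φ = vecMulVec (φ ∘ v) (φ ∘ j) := by
      ext a b
      simp [vecMulVec_apply]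
    rw [h2] at h1
    exact h1
  · rw [← fin_dsc_map]
    exact hd.map φ
  · rw [Matrix.charpoly_map, hl, Polynomial.map_prod]
    simp

/-- Rings in which the discriminant is a unit. -/
theorem fin_unit (hSpl : Pool.Agent.CTR.St_Spl) (hDsc : St_Dsc) (hDg : St_Dg) (hTor : St_Tor)
    (hEqv : St_Eqv) (n r : ℕ)
    (f : MvPolynomial (Vg n r) ℂ) (hI : Inv f) (hV : Van f) (R : Type) [CommRing R]
    [Algebra ℂ R] (A B : Matrix (Fin n) (Fin n) R) (v j : Fin n → R)
    (ξ : Fin r → Fin n → R) (h : A * B - B * A + vecMulVec v j = 0) (hd : IsUnit (dsc A)) :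
    evg A B v ξ f = 0 := by
  rcases subsingleton_or_nontrivial R with hR | hR
  · exact Subsingleton.elim _ _
  obtain ⟨R', _, _, l, hinj, hl⟩ := hSpl R A.charpoly (Matrix.charpoly_monic A)
  have hn : A.charpoly.natDegree = n := by
    rw [Matrix.charpoly_natDegree_eq_dim, Fintype.card_fin]
  let iA : Algebra ℂ R' := ((algebraMap R R').comp (algebraMap ℂ R)).toAlgebra
  have hφ : (algebraMap R R').comp (algebraMap ℂ R) = algebraMap ℂ R' := rfl
  apply hinj
  rw [map_zero, fin_evg_map _ hφ]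
  set φ := algebraMap R R'
  refine fin_split hDsc hDg hTor hEqv n r f hI hV _ _ _ _ (φ ∘ j) _ ?_ ?_
    (fun i => l (Fin.cast hn.symm i)) ?_
  · have h1 := congrArg (fun M => φ.mapMatrix M) h
    simp only [map_add, map_sub, map_mul, map_zero, RingHom.mapMatrix_apply] at h1
    have h2 : (vecMulVec v j).map φ = vecMulVec (φ ∘ v) (φ ∘ j) := by
      ext a b
      simp [vecMulVec_apply]
    rw [h2] at h1
    exact h1
  · rw [← fin_dsc_map]
    exact hd.map φ
  · rw [Matrix.charpoly_map, hl]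
    unfold Pool.Agent.CTR.dr
    exact (Equiv.prod_comp (finCongr hn.symm)
      (fun i => Polynomial.X - Polynomial.C (l i))).symm

/-- Rings in which the discriminant is not a zero divisor. -/
theorem fin_nzd (hSpl : Pool.Agent.CTR.St_Spl) (hDsc : St_Dsc) (hDg : St_Dg) (hTor : St_Tor)
    (hEqv : St_Eqv) (n r : ℕ)
    (f : MvPolynomial (Vg n r) ℂ) (hI : Inv f) (hV : Van f) (R : Type) [CommRing R]
    [Algebra ℂ R] (A B : Matrix (Fin n) (Fin n) R) (v j : Fin n → R)
    (ξ : Fin r → Fin n → R) (h : A * B - B * A + vecMulVec v j = 0)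
    (hd : ∀ q, dsc A * q = 0 → q = 0) :
    evg A B v ξ f = 0 := by
  have hφ : (algebraMap R (Localization.Away (dsc A))).comp (algebraMap ℂ R) =
      algebraMap ℂ (Localization.Away (dsc A)) := (IsScalarTower.algebraMap_eq ℂ R _).symm
  have h0 : algebraMap R (Localization.Away (dsc A)) (evg A B v ξ f) = 0 := by
    rw [fin_evg_map _ hφ]
    refine fin_unit hSpl hDsc hDg hTor hEqv n r f hI hV _ _ _ _
      ((algebraMap R (Localization.Away (dsc A))) ∘ j) _ ?_ ?_
    · have h1 := congrArg (fun M => (algebraMap R (Localization.Away (dsc A))).mapMatrix M) h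
      simp only [map_add, map_sub, map_mul, map_zero, RingHom.mapMatrix_apply] at h1
      have h2 : (vecMulVec v j).map (algebraMap R (Localization.Away (dsc A))) =
          vecMulVec ((algebraMap R (Localization.Away (dsc A))) ∘ v)
            ((algebraMap R (Localization.Away (dsc A))) ∘ j) := by
        ext a b
        simp [vecMulVec_apply]
      rw [h2] at h1
      exact h1
    · rw [← fin_dsc_map]
      exact IsLocalization.Away.algebraMap_isUnit (dsc A)
  rw [IsLocalization.map_eq_zero_iff (Submonoid.powers (dsc A))] at h0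
  obtain ⟨⟨_, N, rfl⟩, hN⟩ := h0
  have h1 : ∀ N : ℕ, ∀ q, dsc A ^ N * q = 0 → q = 0 := by
    intro N
    induction N with
    | zero => intro q hq; rwa [pow_zero, one_mul] at hq
    | succ N ih =>
      intro q hq
      rw [pow_succ, mul_assoc] at hq
      exact hd q (ih _ hq)
  exact h1 N _ hN

/-- The generic point. -/
theorem fin_generic (hSpl : Pool.Agent.CTR.St_Spl) (hNZ : St_NZ) (hDsc : St_Dsc) (hDg : St_Dg)
    (hTor : St_Tor) (hEqv : St_Eqv) (n r : ℕ) (f : MvPolynomial (Vg n r) ℂ) (hI : Inv f)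
    (hV : Van f) :
    evg (R := MvPolynomial (Fin r × Fin n) (RS ℂ n ⧸ IJ ℂ n))
      ((sX ℂ n).map (MvPolynomial.C.comp (Ideal.Quotient.mk (IJ ℂ n))))
      ((sY ℂ n).map (MvPolynomial.C.comp (Ideal.Quotient.mk (IJ ℂ n))))
      (MvPolynomial.C.comp (Ideal.Quotient.mk (IJ ℂ n)) ∘ sv ℂ n)
      (fun s a => MvPolynomial.X (s, a)) f = 0 := by
  set κ : RS ℂ n →+* MvPolynomial (Fin r × Fin n) (RS ℂ n ⧸ IJ ℂ n) :=
    MvPolynomial.C.comp (Ideal.Quotient.mk (IJ ℂ n)) with hκ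
  refine fin_nzd hSpl hDsc hDg hTor hEqv n r f hI hV _ _ _ _ (κ ∘ sj ℂ n) _ ?_ ?_
  · have h1 : (sX ℂ n).map κ * (sY ℂ n).map κ - (sY ℂ n).map κ * (sX ℂ n).map κ +
        vecMulVec (κ ∘ sv ℂ n) (κ ∘ sj ℂ n) =
        κ.mapMatrix (sX ℂ n * sY ℂ n - sY ℂ n * sX ℂ n + vecMulVec (sv ℂ n) (sj ℂ n)) := by
      simp only [map_add, map_sub, map_mul, RingHom.mapMatrix_apply]
      congr 1
      ext a b
      simp [vecMulVec_apply]
    rw [h1]
    ext a b
    have h2 : κ (eqn ℂ n (a, b)) = 0 := by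
      have h3 : Ideal.Quotient.mk (IJ ℂ n) (eqn ℂ n (a, b)) = 0 :=
        Ideal.Quotient.eq_zero_iff_mem.2 (Ideal.subset_span ⟨(a, b), rfl⟩)
      rw [hκ, RingHom.comp_apply, h3, map_zero]
    exact congrArg (MvPolynomial.coeff _) h2
  · intro q hq
    rw [← fin_dsc_map, hκ, RingHom.comp_apply] at hq
    ext m
    have h1 := congrArg (MvPolynomial.coeff m) hq
    rw [MvPolynomial.coeff_C_mul, MvPolynomial.coeff_zero] at h1
    rw [MvPolynomial.coeff_zero]
    obtain ⟨g, hg⟩ := Ideal.Quotient.mk_surjective (MvPolynomial.coeff m q)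
    rw [← hg, ← map_mul, Ideal.Quotient.eq_zero_iff_mem] at h1
    rw [← hg, Ideal.Quotient.eq_zero_iff_mem]
    exact hNZ ℂ n g h1

/-- Homomorphisms which kill the equations. -/
theorem fin_eqn_map {n : ℕ} {S : Type} [CommRing S] (φ : RS ℂ n →+* S)
    (h : (sX ℂ n).map φ * (sY ℂ n).map φ - (sY ℂ n).map φ * (sX ℂ n).map φ +
      vecMulVec (φ ∘ sv ℂ n) (φ ∘ sj ℂ n) = 0) (t : Fin n × Fin n) : φ (eqn ℂ n t) = 0 := by
  have h1 : (sX ℂ n).map φ * (sY ℂ n).map φ - (sY ℂ n).map φ * (sX ℂ n).map φ +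
      vecMulVec (φ ∘ sv ℂ n) (φ ∘ sj ℂ n) =
      φ.mapMatrix (sX ℂ n * sY ℂ n - sY ℂ n * sX ℂ n + vecMulVec (sv ℂ n) (sj ℂ n)) := by
    simp only [map_add, map_sub, map_mul, RingHom.mapMatrix_apply]
    congr 1
    ext a b
    simp [vecMulVec_apply]
  rw [h1] at h
  exact congrFun (congrFun h t.1) t.2

/-- The specialization `j = 0`. -/
theorem fin_last {n r : ℕ} (f : MvPolynomial (Vg n r) ℂ)
    (h0 : evg (R := MvPolynomial (Fin r × Fin n) (RS ℂ n ⧸ IJ ℂ n))
      ((sX ℂ n).map (MvPolynomial.C.comp (Ideal.Quotient.mk (IJ ℂ n))))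
      ((sY ℂ n).map (MvPolynomial.C.comp (Ideal.Quotient.mk (IJ ℂ n))))
      (MvPolynomial.C.comp (Ideal.Quotient.mk (IJ ℂ n)) ∘ sv ℂ n)
      (fun s a => MvPolynomial.X (s, a)) f = 0)
    (T : Type) [CommRing T] [Algebra ℂ T] (xT yT : Matrix (Fin n) (Fin n) T) (vT : Fin n → T)
    (ξT : Fin r → Fin n → T) (hcomm : xT * yT - yT * xT = 0) : evg xT yT vT ξT f = 0 := by
  let α : RS ℂ n →ₐ[ℂ] T := MvPolynomial.aeval (co xT yT vT 0)
  have e1 : (sX ℂ n).map α.toRingHom = xT := by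
    ext a b
    change α (MvPolynomial.X (Sum.inl (0, a, b))) = _
    rw [MvPolynomial.aeval_X]
    rfl
  have e2 : (sY ℂ n).map α.toRingHom = yT := by
    ext a b
    change α (MvPolynomial.X (Sum.inl (1, a, b))) = _
    rw [MvPolynomial.aeval_X]
    rfl
  have e3 : α.toRingHom ∘ sv ℂ n = vT := by
    funext a
    change α (MvPolynomial.X (Sum.inr (0, a))) = _
    rw [MvPolynomial.aeval_X]
    rfl
  have e4 : α.toRingHom ∘ sj ℂ n = 0 := by
    funext a
    change α (MvPolynomial.X (Sum.inr (1, a))) = _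
    rw [MvPolynomial.aeval_X]
    rfl
  have hα : ∀ a ∈ IJ ℂ n, α.toRingHom a = 0 := by
    have h1 : IJ ℂ n ≤ RingHom.ker α.toRingHom := by
      unfold IJ
      rw [Ideal.span_le]
      rintro _ ⟨t, rfl⟩
      refine fin_eqn_map α.toRingHom ?_ t
      rw [e1, e2, e3, e4, hcomm, zero_add]
      ext a b
      simp [vecMulVec_apply]
    exact fun a ha => h1 ha
  let α' : (RS ℂ n ⧸ IJ ℂ n) →+* T := Ideal.Quotient.lift (IJ ℂ n) α.toRingHom hα
  let β : MvPolynomial (Fin r × Fin n) (RS ℂ n ⧸ IJ ℂ n) →+* T :=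
    MvPolynomial.eval₂Hom α' (fun t => ξT t.1 t.2)
  have hκ : ∀ p : RS ℂ n, β (MvPolynomial.C (Ideal.Quotient.mk (IJ ℂ n) p)) = α.toRingHom p := by
    intro p
    change MvPolynomial.eval₂Hom α' _ _ = _
    rw [MvPolynomial.coe_eval₂Hom, MvPolynomial.eval₂_C]
    exact Ideal.Quotient.lift_mk _ _ _
  have hβ : β.comp (algebraMap ℂ (MvPolynomial (Fin r × Fin n) (RS ℂ n ⧸ IJ ℂ n))) =
      algebraMap ℂ T := by
    ext c
    have h2 : algebraMap ℂ (MvPolynomial (Fin r × Fin n) (RS ℂ n ⧸ IJ ℂ n)) c =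
      MvPolynomial.C (Ideal.Quotient.mk (IJ ℂ n) (algebraMap ℂ (RS ℂ n) c)) := rfl
    rw [RingHom.comp_apply, h2, hκ]
    exact α.commutes c
  have h5 := fin_evg_map β hβ
      ((sX ℂ n).map (MvPolynomial.C.comp (Ideal.Quotient.mk (IJ ℂ n))))
      ((sY ℂ n).map (MvPolynomial.C.comp (Ideal.Quotient.mk (IJ ℂ n))))
      (MvPolynomial.C.comp (Ideal.Quotient.mk (IJ ℂ n)) ∘ sv ℂ n)
      (fun s a => MvPolynomial.X (s, a)) f
  have h1 := h5.symm.trans ((congrArg β h0).trans (map_zero β))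
  have f1 : ((sX ℂ n).map (MvPolynomial.C.comp (Ideal.Quotient.mk (IJ ℂ n)))).map β = xT := by
    rw [← e1]
    ext a b
    exact hκ _
  have f2 : ((sY ℂ n).map (MvPolynomial.C.comp (Ideal.Quotient.mk (IJ ℂ n)))).map β = yT := by
    rw [← e2]
    ext a b
    exact hκ _
  have f3 : β ∘ (MvPolynomial.C.comp (Ideal.Quotient.mk (IJ ℂ n)) ∘ sv ℂ n) = vT := by
    rw [← e3]
    funext a
    exact hκ _
  have f4 : (fun s => β ∘ (fun a => (MvPolynomial.X (s, a) :
      MvPolynomial (Fin r × Fin n) (RS ℂ n ⧸ IJ ℂ n)))) = ξT := by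
    funext s a
    change MvPolynomial.eval₂Hom α' _ _ = _
    rw [MvPolynomial.coe_eval₂Hom, MvPolynomial.eval₂_X]
  rw [f1, f2, f3, f4] at h1
  exact h1

/-- The commutator of the generic matrices modulo `comE`. -/
theorem fin_comE {n r : ℕ} {T : Type} [CommRing T] (π : MvPolynomial (Vg n r) ℂ →+* T)
    (hπ : ∀ f ∈ comE n r, π f = 0) :
    (Matrix.of fun a b => π (MvPolynomial.X (Sum.inl (0, a, b)))) *
      (Matrix.of fun a b => π (MvPolynomial.X (Sum.inl (1, a, b)))) -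
    (Matrix.of fun a b => π (MvPolynomial.X (Sum.inl (1, a, b)))) *
      (Matrix.of fun a b => π (MvPolynomial.X (Sum.inl (0, a, b)))) = 0 := by
  have h1 : (Matrix.of fun a b => π (MvPolynomial.X (Sum.inl (0, a, b)))) *
      (Matrix.of fun a b => π (MvPolynomial.X (Sum.inl (1, a, b)))) -
    (Matrix.of fun a b => π (MvPolynomial.X (Sum.inl (1, a, b)))) *
      (Matrix.of fun a b => π (MvPolynomial.X (Sum.inl (0, a, b)))) = π.mapMatrix
      (((Matrix.of fun a b => MvPolynomial.X (Sum.inl (0, a, b))) *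
        (Matrix.of fun a b => MvPolynomial.X (Sum.inl (1, a, b))) -
      (Matrix.of fun a b => MvPolynomial.X (Sum.inl (1, a, b))) *
        (Matrix.of fun a b => MvPolynomial.X (Sum.inl (0, a, b))) :
        Matrix (Fin n) (Fin n) (MvPolynomial (Vg n r) ℂ))) := by
    rw [map_sub, map_mul, map_mul]
    rfl
  rw [h1]
  ext a b
  exact hπ _ (Ideal.subset_span ⟨a, b, rfl⟩)

theorem thm_Fin (hSpl : Pool.Agent.CTR.St_Spl) (hNZ : St_NZ) (hDsc : St_Dsc) (hDg : St_Dg)
    (hTor : St_Tor) (hEqv : St_Eqv) : St_Fin := by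
  intro n r f hI hV
  have h0 := fin_generic hSpl hNZ hDsc hDg hTor hEqv n r f hI hV
  have hc := fin_comE (Ideal.Quotient.mk (comE n r))
    (fun f hf => Ideal.Quotient.eq_zero_iff_mem.2 hf)
  have h1 := fin_last f h0 (MvPolynomial (Vg n r) ℂ ⧸ comE n r) _ _
    (fun a => Ideal.Quotient.mk (comE n r) (MvPolynomial.X (Sum.inr (Sum.inl a))))
    (fun s a => Ideal.Quotient.mk (comE n r) (MvPolynomial.X (Sum.inr (Sum.inr (s, a))))) hc
  have h2 : Ideal.Quotient.mkₐ ℂ (comE n r) f = 0 := by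
    rw [← h1]
    have h3 : Ideal.Quotient.mkₐ ℂ (comE n r) = MvPolynomial.aeval
        (fun x => Ideal.Quotient.mk (comE n r) (MvPolynomial.X x)) := by
      apply MvPolynomial.algHom_ext
      intro x
      rw [MvPolynomial.aeval_X]
      rfl
    rw [h3]
    unfold evg
    congr 2
    funext x
    rcases x with ⟨t, a, b⟩ | x | ⟨s, a⟩
    · fin_cases t
      · rfl
      · rfl
    · rfl
    · rfl
  exact Ideal.Quotient.eq_zero_iff_mem.1 h2

end Pool.Agent.ACV
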