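import Pool.Agent.ACV.St

/-!
# Jordan bases
-/

set_option autoImplicit false

noncomputable section

namespace Pool.Agent.ACV

open Matrix Polynomial

/-- The powers of `X - C μ` below `e` are a basis modulo `(X - C μ) ^ e`. -/
theorem jbx_local {L : Type} [Field L] (μ : L) (e : ℕ) :
    ∃ b : Module.Basis (Fin e) L (L[X] ⧸ Submodule.span L[X] {(X - C μ) ^ e}),
      ∀ a : Fin e, b a = Submodule.Quotient.mk ((X - C μ) ^ (a : ℕ)) := by
  set I := Submodule.span L[X] {(X - C μ) ^ e} with hI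
  have hmem : ∀ f : L[X], f ∈ I ↔ (X - C μ) ^ e ∣ f := by
    intro f
    rw [hI]
    exact Ideal.mem_span_singleton
  let v : Fin e → (L[X] ⧸ I) := fun a => Submodule.Quotient.mk ((X - C μ) ^ (a : ℕ))
  have hsum : ∀ g : Fin e → L, ∑ a, g a • v a =
      Submodule.Quotient.mk (∑ a, C (g a) * (X - C μ) ^ (a : ℕ)) := by
    intro g
    have h1 : ∀ f : L[X], (Submodule.Quotient.mk f : L[X] ⧸ I) = I.mkQ f := fun f => rfl
    simp only [v, h1]
    rw [map_sum]
    refine Finset.sum_congr rfl (fun a _ => ?_)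
    rw [← smul_eq_mul, map_smul]
    rw [← Polynomial.algebraMap_eq, algebraMap_smul]
  have hli : LinearIndependent L v := by
    rw [Fintype.linearIndependent_iff]
    intro g hg i
    rw [hsum, Submodule.Quotient.mk_eq_zero, hmem] at hg
    have h2 : (∑ a, C (g a) * (X - C μ) ^ (a : ℕ)) = 0 := by
      refine Polynomial.eq_zero_of_dvd_of_degree_lt hg ?_
      rw [Polynomial.degree_pow, Polynomial.degree_X_sub_C]
      refine lt_of_le_of_lt (Polynomial.degree_sum_le _ _) ?_
      rw [Finset.sup_lt_iff (by simp)]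
      intro a _
      refine lt_of_le_of_lt (Polynomial.degree_mul_le _ _) ?_
      rw [Polynomial.degree_pow, Polynomial.degree_X_sub_C]
      refine lt_of_le_of_lt (add_le_add_left Polynomial.degree_C_le _) ?_
      simp
    have h3 := congrArg (Polynomial.taylor μ) h2
    rw [map_sum, map_zero] at h3
    have h4 : (∑ a : Fin e, C (g a) * X ^ (a : ℕ) : L[X]) = 0 := by
      rw [← h3]
      refine Finset.sum_congr rfl (fun a _ => ?_)
      simp [Polynomial.taylor_apply]
    have h5 := congrArg (fun f => Polynomial.coeff f i) h4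
    simp only [Polynomial.finsetSum_coeff, Polynomial.coeff_C_mul, Polynomial.coeff_X_pow,
      Polynomial.coeff_zero] at h5
    rw [Finset.sum_eq_single i] at h5
    · simpa using h5
    · intro a _ ha
      rw [if_neg (fun h => ha (Fin.ext h.symm)), mul_zero]
    · intro h
      exact absurd (Finset.mem_univ i) h
  have hsp : ⊤ ≤ Submodule.span L (Set.range v) := by
    rintro x -
    obtain ⟨f, rfl⟩ := Submodule.Quotient.mk_surjective _ x
    have h1 : (Submodule.Quotient.mk f : L[X] ⧸ I) =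
        ∑ a : Fin e, ((Polynomial.taylor μ f).coeff a) • v a := by
      rw [hsum, Submodule.Quotient.eq, hmem]
      have h2 := Polynomial.sum_taylor_eq f μ
      rw [Polynomial.sum_over_range' _ (by simp) (e + ((Polynomial.taylor μ f).natDegree + 1))
        (by omega)] at h2
      have h3 : ∑ a ∈ Finset.range e, C ((Polynomial.taylor μ f).coeff a) * (X - C μ) ^ a =
          ∑ a : Fin e, C ((Polynomial.taylor μ f).coeff a) * (X - C μ) ^ (a : ℕ) :=
        Finset.sum_range (fun a => C ((Polynomial.taylor μ f).coeff a) * (X - C μ) ^ a)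
      rw [← h3]
      rw [Finset.sum_range_add] at h2
      rw [sub_eq_of_eq_add' h2.symm]
      refine Finset.dvd_sum (fun a _ => ?_)
      exact Dvd.dvd.mul_left (pow_dvd_pow _ (Nat.le_add_right e a)) _
    rw [h1]
    exact Submodule.sum_mem _ (fun a _ => Submodule.smul_mem _ _ (Submodule.subset_span ⟨a, rfl⟩))
  refine ⟨Module.Basis.mk hli hsp, fun a => ?_⟩
  rw [Module.Basis.mk_apply]

theorem jbx_irr {L : Type} [Field L] [IsAlgClosed L] (p : L[X]) (hp : Irreducible p) (e : ℕ) :
    ∃ (μ : L) (b : Module.Basis (Fin e) L (L[X] ⧸ Submodule.span L[X] {p ^ e})),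
      ∀ a : Fin e, (X : L[X]) • b a = μ • b a + (if h : (a : ℕ) + 1 < e then b ⟨a + 1, h⟩ else 0) := by
  obtain ⟨μ, hμ⟩ := IsAlgClosed.exists_root p (by
    rw [IsAlgClosed.degree_eq_one_of_irreducible L hp]
    exact one_ne_zero)
  have h1 : (X - C μ) ∣ p := Polynomial.dvd_iff_isRoot.2 hμ
  have h2 : Associated (X - C μ) p :=
    (Polynomial.irreducible_X_sub_C μ).associated_of_dvd hp h1
  have h3 : Submodule.span L[X] {p ^ e} = Submodule.span L[X] {(X - C μ) ^ e} :=
    (Ideal.span_singleton_eq_span_singleton.2 (h2.pow_pow (n := e))).symm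
  rw [h3]
  obtain ⟨b, hb⟩ := jbx_local μ e
  refine ⟨μ, b, fun a => ?_⟩
  have h4 : (X : L[X]) • b a = μ • b a + Submodule.Quotient.mk ((X - C μ) ^ ((a : ℕ) + 1)) := by
    rw [hb, ← Submodule.Quotient.mk_smul]
    have h5 : μ • (Submodule.Quotient.mk ((X - C μ) ^ (a : ℕ)) :
        L[X] ⧸ Submodule.span L[X] {(X - C μ) ^ e}) =
        Submodule.Quotient.mk (C μ • (X - C μ) ^ (a : ℕ)) := by
      rw [Submodule.Quotient.mk_smul, ← Polynomial.algebraMap_eq, algebraMap_smul]
    rw [h5, ← Submodule.Quotient.mk_add]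
    congr 1
    simp only [smul_eq_mul]
    ring
  rw [h4]
  congr 1
  split_ifs with h
  · rw [hb]
  · rw [Submodule.Quotient.mk_eq_zero]
    exact Ideal.mem_span_singleton.2 (pow_dvd_pow _ (not_lt.1 h))

theorem thm_JBx : St_JBx := by
  classical
  intro L _ _ n A
  set φ : (Fin n → L) →ₗ[L] (Fin n → L) := Matrix.toLin' A with hφ
  obtain ⟨ι, _, p, hp, e, ⟨E⟩⟩ := Module.equiv_directSum_of_isTorsion
    (R := L[X]) (M := Module.AEval' φ) (Module.AEval.isTorsion_of_finiteDimensional L (Fin n → L) φ)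
  choose μ b hb using fun i => jbx_irr (p i) (hp i) (e i)
  let E' := E.trans (DirectSum.linearEquivFunOnFintype L[X] ι
    (fun i => L[X] ⧸ Submodule.span L[X] {p i ^ e i}))
  let B : Module.Basis (Σ i : ι, Fin (e i)) L
    ((i : ι) → L[X] ⧸ Submodule.span L[X] {p i ^ e i}) := Pi.basis b
  have hBi : ∀ (i : ι) (a : Fin (e i)), B ⟨i, a⟩ = Pi.single i (b i a) := by
    intro i a
    exact Pi.basis_apply b ⟨i, a⟩
  let T : ((i : ι) → L[X] ⧸ Submodule.span L[X] {p i ^ e i}) ≃ₗ[L] (Fin n → L) :=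
    (E'.restrictScalars L).symm.trans (Module.AEval'.of φ).symm
  have hT : ∀ x, T x = (Module.AEval'.of φ).symm (E'.symm x) := fun x => rfl
  have hA : ∀ x, A *ᵥ T x = T ((X : L[X]) • x) := by
    intro x
    rw [hT, hT, map_smul, Module.AEval'.of_symm_X_smul]
    exact (Matrix.toLin'_apply A _).symm
  let B' : Module.Basis (Σ i : ι, Fin (e i)) L (Fin n → L) := B.map T
  have hB' : ∀ x, B' x = T (B x) := fun x => Module.Basis.map_apply B T x
  let eq : (Σ i : {i : ι // 0 < e i}, Fin (e i.1)) ≃ (Σ i : ι, Fin (e i)) :=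
    { toFun := fun x => ⟨x.1.1, x.2⟩
      invFun := fun x => ⟨⟨x.1, x.2.pos⟩, x.2⟩
      left_inv := fun x => rfl
      right_inv := fun x => rfl }
  refine ⟨{i : ι // 0 < e i}, inferInstance, fun i => e i.1, fun i => μ i.1, B'.reindex eq.symm,
    fun i => i.2, fun i a => ?_⟩
  have h1 : ∀ x, (B'.reindex eq.symm) x = T (Pi.single x.1.1 (b x.1.1 x.2)) := by
    intro x
    rw [Module.Basis.reindex_apply, hB', ← hBi]
    rfl
  have h2 : (X : L[X]) • (Pi.single i.1 (b i.1 a) :
      (i : ι) → L[X] ⧸ Submodule.span L[X] {p i ^ e i}) =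
      Pi.single i.1 ((X : L[X]) • b i.1 a) := by
    funext j
    rw [Pi.smul_apply]
    rcases eq_or_ne j i.1 with hj | hj
    · subst hj
      rw [Pi.single_eq_same, Pi.single_eq_same]
    · rw [Pi.single_eq_of_ne hj, Pi.single_eq_of_ne hj, smul_zero]
  have h3 : (Pi.single i.1 (μ i.1 • b i.1 a) :
      (i : ι) → L[X] ⧸ Submodule.span L[X] {p i ^ e i}) =
      μ i.1 • Pi.single i.1 (b i.1 a) := by
    funext j
    rw [Pi.smul_apply]
    rcases eq_or_ne j i.1 with hj | hj
    · subst hj
      rw [Pi.single_eq_same, Pi.single_eq_same]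
    · rw [Pi.single_eq_of_ne hj, Pi.single_eq_of_ne hj, smul_zero]
  rw [h1]
  simp only
  rw [hA, h2, hb, Pi.single_add, map_add, h3, LinearEquiv.map_smul]
  congr 1
  · split_ifs with h
    · rw [h1]
    · rw [Pi.single_zero, map_zero]

end Pool.Agent.ACV
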