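import Pool.Agent.ACV.St

/-!
# ACV NZ: the discriminant is not a zero divisor modulo the ideal of the almost commuting scheme
-/

set_option autoImplicit false
set_option linter.unusedVariables false

noncomputable section

namespace Pool.Agent.ACV

open Matrix

theorem nz_pow (k : Type) [Field k] (n : ℕ) (a : ℕ) (i j : Fin n) :
    ((sX k n ^ a) i j).IsHomogeneous a := by
  induction a generalizing i j with
  | zero =>
    rw [pow_zero, Matrix.one_apply]
    split_ifs
    · exact MvPolynomial.isHomogeneous_one _ _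
    · exact MvPolynomial.isHomogeneous_zero _ _ _
  | succ a ih =>
    rw [pow_succ, Matrix.mul_apply]
    exact MvPolynomial.IsHomogeneous.sum _ _ _ fun t _ =>
      (ih i t).mul (MvPolynomial.isHomogeneous_X _ _)

theorem nz_sum (n : ℕ) (σ : Equiv.Perm (Fin n)) :
    ∑ i : Fin n, ((σ i : ℕ) + i) = ∑ i : Fin n, ((i : ℕ) + i) := by
  rw [Finset.sum_add_distrib, Finset.sum_add_distrib, Equiv.sum_comp σ (fun i : Fin n => (i : ℕ))]

theorem nz_dsc (k : Type) [Field k] (n : ℕ) :
    (dsc (sX k n)).IsHomogeneous (∑ i : Fin n, ((i : ℕ) + i)) := by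
  unfold dsc
  rw [Matrix.det_apply']
  refine MvPolynomial.IsHomogeneous.sum _ _ _ fun σ _ => ?_
  rw [← nz_sum n σ]
  have h1 : (((Equiv.Perm.sign σ : ℤˣ) : ℤ) : RS k n) =
      MvPolynomial.C (((Equiv.Perm.sign σ : ℤˣ) : ℤ) : k) := by
    rw [map_intCast]
  rw [h1]
  refine MvPolynomial.IsHomogeneous.C_mul ?_ _
  refine MvPolynomial.IsHomogeneous.prod _ _ _ fun i _ => ?_
  rw [Matrix.of_apply, Matrix.trace]
  exact MvPolynomial.IsHomogeneous.sum _ _ _ fun t _ => nz_pow k n _ t t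

theorem nz_eqn (k : Type) [Field k] (n : ℕ) (t : Fin n × Fin n) :
    (eqn k n t).IsHomogeneous 2 := by
  unfold eqn
  rw [Matrix.add_apply, Matrix.sub_apply, Matrix.mul_apply, Matrix.mul_apply,
    Matrix.vecMulVec_apply]
  refine MvPolynomial.IsHomogeneous.add (MvPolynomial.IsHomogeneous.sub ?_ ?_) ?_
  · exact MvPolynomial.IsHomogeneous.sum _ _ _ fun s _ =>
      (MvPolynomial.isHomogeneous_X _ _).mul (MvPolynomial.isHomogeneous_X _ _)
  · exact MvPolynomial.IsHomogeneous.sum _ _ _ fun s _ =>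
      (MvPolynomial.isHomogeneous_X _ _).mul (MvPolynomial.isHomogeneous_X _ _)
  · exact (MvPolynomial.isHomogeneous_X _ _).mul (MvPolynomial.isHomogeneous_X _ _)

theorem nz_small (k : Type) [Field k] (n : ℕ) (hn : n ≤ 1) : dsc (sX k n) = 1 := by
  unfold dsc
  rcases Nat.le_one_iff_eq_zero_or_eq_one.1 hn with rfl | rfl
  · exact Matrix.det_isEmpty
  · rw [Matrix.det_fin_one, Matrix.of_apply]
    simp

theorem thm_NZ (hCI : St_CI) (hDm : St_Dm) : St_NZ := by
  intro k _ _ n g hg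
  by_cases hn : n ≤ 1
  · rwa [nz_small k n hn, one_mul] at hg
  · push Not at hn
    have he : 0 < ∑ i : Fin n, ((i : ℕ) + i) := by
      have h1 := Finset.single_le_sum (f := fun i : Fin n => (i : ℕ) + i)
        (fun _ _ => Nat.zero_le _) (Finset.mem_univ (⟨1, hn⟩ : Fin n))
      have h2 : (1 : ℕ) + 1 ≤ ∑ i : Fin n, ((i : ℕ) + i) := h1
      omega
    refine hCI k (Sg n) (Fin n × Fin n) (eqn k n) (fun _ => 2) (dsc (sX k n)) _
      (fun t => ⟨nz_eqn k n t, by norm_num⟩) (nz_dsc k n) he ?_ g hg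
    intro P hP h1 h2
    have hJ : IJ k n ≤ P := by
      unfold IJ
      rw [Ideal.span_le]
      rintro _ ⟨t, rfl⟩
      exact h1 t
    have h3 := (hDm k n P hJ).2 h2
    have h4 : ((Fintype.card (Fin n × Fin n) + 1 : ℕ) : WithBot ℕ∞) =
        1 + ((n ^ 2 : ℕ) : WithBot ℕ∞) := by
      rw [Fintype.card_prod, Fintype.card_fin, ← pow_two, add_comm]
      push_cast
      rfl
    have h5 : ((Fintype.card (Sg n) : ℕ) : WithBot ℕ∞) =
        ((n ^ 2 + 2 * n : ℕ) : WithBot ℕ∞) + ((n ^ 2 : ℕ) : WithBot ℕ∞) := by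
      rw [← Nat.cast_add]
      congr 1
      simp only [Sg, Fintype.card_sum, Fintype.card_prod, Fintype.card_fin]
      ring
    rw [h4, h5, ← add_assoc]
    exact add_le_add_left h3 _

end Pool.Agent.ACV
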