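import Pool.Agent.ACV.St

/-!
# Subspaces stable under the centralizer
-/

set_option autoImplicit false

noncomputable section

namespace Pool.Agent.ACV

open Matrix

section stb

variable {L : Type} [Field L] {n : ℕ} {A : Matrix (Fin n) (Fin n) L} {κ : Type}
  {ℓ : κ → ℕ} {μ : κ → L} (b : Module.Basis (Σ i : κ, Fin (ℓ i)) L (Fin n → L))

/-- The vector `b_(i,m)`, which is `0` for large `m`. -/
def stb_B (i : κ) (m : ℕ) : Fin n → L := if h : m < ℓ i then b ⟨i, ⟨m, h⟩⟩ else 0

theorem stb_B_lt (i : κ) (a : Fin (ℓ i)) : stb_B b i a = b ⟨i, a⟩ := by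
  unfold stb_B
  rw [dif_pos a.2]

theorem stb_B_ge {i : κ} {m : ℕ} (h : ℓ i ≤ m) : stb_B b i m = 0 := by
  unfold stb_B
  rw [dif_neg (not_lt.2 h)]

theorem stb_A (hJ : JB A ℓ μ b) (i : κ) (m : ℕ) :
    A *ᵥ stb_B b i m = μ i • stb_B b i m + stb_B b i (m + 1) := by
  by_cases hm : m < ℓ i
  · have h1 := hJ.2 i ⟨m, hm⟩
    have h2 := stb_B_lt b i ⟨m, hm⟩
    simp only at h2
    rw [h2, h1]
    rfl
  · rw [stb_B_ge b (not_lt.1 hm), stb_B_ge b ((not_lt.1 hm).trans (Nat.le_succ m))]
    simp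

open Classical in
/-- The shift by `j` on the block `i`. -/
def stb_S (i : κ) (j : ℕ) : (Fin n → L) →ₗ[L] (Fin n → L) :=
  b.constr L (fun x => if x.1 = i then stb_B b x.1 (x.2 + j) else 0)

open Classical in
theorem stb_S_B (i : κ) (j : ℕ) (i' : κ) (m : ℕ) :
    stb_S b i j (stb_B b i' m) = if i' = i then stb_B b i' (m + j) else 0 := by
  by_cases hm : m < ℓ i'
  · have h2 := stb_B_lt b i' ⟨m, hm⟩
    simp only at h2
    rw [h2]
    unfold stb_S
    rw [Module.Basis.constr_basis]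
  · rw [stb_B_ge b (not_lt.1 hm), stb_B_ge b ((not_lt.1 hm).trans (Nat.le_add_right m j))]
    simp

theorem stb_comm (hJ : JB A ℓ μ b) (i : κ) (j : ℕ) :
    LinearMap.toMatrix' (stb_S b i j) * A = A * LinearMap.toMatrix' (stb_S b i j) := by
  classical
  have h1 : (stb_S b i j) ∘ₗ (Matrix.toLin' A) = (Matrix.toLin' A) ∘ₗ (stb_S b i j) := by
    refine b.ext (fun x => ?_)
    obtain ⟨i', a⟩ := x
    simp only [LinearMap.comp_apply, Matrix.toLin'_apply]
    rw [← stb_B_lt b i' a, stb_A b hJ, map_add, map_smul, stb_S_B, stb_S_B]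
    by_cases hi : i' = i
    · simp only [if_pos hi]
      rw [stb_A b hJ]
      congr 2
      omega
    · simp only [if_neg hi]
      simp
  have h2 := congrArg LinearMap.toMatrix' h1
  rw [LinearMap.toMatrix'_comp, LinearMap.toMatrix'_comp, LinearMap.toMatrix'_toLin'] at h2
  exact h2

end stb

theorem thm_Stb : St_Stb := by
  classical
  intro L _ n A κ _ ℓ μ b hJ E hE w hw x hx
  obtain ⟨i, a⟩ := x
  have hS : ∀ j, stb_S b i j w ∈ E := by
    intro j
    have h1 := hE _ (stb_comm b hJ i j) w hw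
    rw [← Matrix.toLin'_apply, Matrix.toLin'_toMatrix'] at h1
    exact h1
  have hSw : ∀ j, stb_S b i j w = ∑ c : Fin (ℓ i), b.repr w ⟨i, c⟩ • stb_B b i (c + j) := by
    intro j
    conv_lhs => rw [← b.sum_repr w]
    rw [map_sum, Fintype.sum_sigma, Finset.sum_eq_single i]
    · refine Finset.sum_congr rfl (fun c _ => ?_)
      rw [map_smul, ← stb_B_lt b i c, stb_S_B, if_pos rfl]
    · intro i' _ hi'
      refine Finset.sum_eq_zero (fun c _ => ?_)
      rw [map_smul, ← stb_B_lt b i' c, stb_S_B, if_neg hi', smul_zero]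
    · intro h
      exact absurd (Finset.mem_univ i) h
  -- the first nonzero coefficient
  have hex : ∃ m : ℕ, ∃ h : m < ℓ i, b.repr w ⟨i, ⟨m, h⟩⟩ ≠ 0 := ⟨a, a.2, hx⟩
  set m₀ := Nat.find hex with hm₀
  obtain ⟨h₀, hne⟩ := Nat.find_spec hex
  have hmin : ∀ c : Fin (ℓ i), (c : ℕ) < m₀ → b.repr w ⟨i, c⟩ = 0 := by
    intro c hc
    by_contra hcon
    exact Nat.find_min hex hc ⟨c.2, hcon⟩
  have hle : m₀ ≤ a := Nat.find_min' hex ⟨a.2, hx⟩
  have key : ∀ d m : ℕ, ℓ i - m = d → m₀ ≤ m → stb_B b i m ∈ E := by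
    intro d
    induction d using Nat.strong_induction_on with
    | _ d ih =>
      intro m hd hm
      by_cases hml : m < ℓ i
      · have h1 := hS (m - m₀)
        rw [hSw, Finset.sum_eq_add_sum_sdiff_singleton_of_mem (Finset.mem_univ (⟨m₀, h₀⟩ : Fin (ℓ i)))] at h1
        have h2 : ∑ c ∈ (Finset.univ : Finset (Fin (ℓ i))) \ {⟨m₀, h₀⟩},
            b.repr w ⟨i, c⟩ • stb_B b i (c + (m - m₀)) ∈ E := by
          refine Submodule.sum_mem _ (fun c hc => ?_)
          rcases lt_trichotomy (c : ℕ) m₀ with h3 | h3 | h3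
          · rw [hmin c h3, zero_smul]
            exact E.zero_mem
          · exfalso
            simp only [Finset.mem_sdiff, Finset.mem_univ, Finset.mem_singleton, true_and] at hc
            exact hc (Fin.ext h3)
          · refine E.smul_mem _ (ih (ℓ i - (c + (m - m₀))) (by omega) _ rfl (by omega))
        have h4 := (E.add_mem_iff_left h2).1 h1
        have h5 : m₀ + (m - m₀) = m := by omega
        simp only at h4
        rw [h5] at h4
        exact (E.smul_mem_iff hne).1 h4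
      · rw [stb_B_ge b (not_lt.1 hml)]
        exact E.zero_mem
  have h6 := key _ a rfl hle
  rw [stb_B_lt] at h6
  exact h6

end Pool.Agent.ACV
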