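import Pool.Agent.ACV.St

/-!
# ACV TA: the tangent space at the generic point
-/

set_option autoImplicit false
set_option linter.unusedVariables false

noncomputable section

namespace Pool.Agent.ACV

open Matrix

/-! ### linear maps -/

/-- The centralizer. -/
private def ta_Z {L : Type} [Field L] {n : ℕ} (A : Matrix (Fin n) (Fin n) L) :
    Submodule L (Matrix (Fin n) (Fin n) L) where
  carrier := {Z | Z * A = A * Z}
  add_mem' := by
    intro a b ha hb
    simp only [Set.mem_ofPred_eq] at ha hb ⊢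
    rw [add_mul, mul_add, ha, hb]
  zero_mem' := by simp
  smul_mem' := by
    intro c a ha
    simp only [Set.mem_ofPred_eq] at ha ⊢
    rw [smul_mul_assoc, mul_smul_comm, ha]

private theorem ta_mem_Z {L : Type} [Field L] {n : ℕ} (A Z : Matrix (Fin n) (Fin n) L) :
    Z ∈ ta_Z A ↔ Z * A = A * Z := Iff.rfl

/-- The space `𝔷 v`. -/
private def ta_E {L : Type} [Field L] {n : ℕ} (A : Matrix (Fin n) (Fin n) L) (v : Fin n → L) :
    Submodule L (Fin n → L) where
  carrier := {w | ∃ Z ∈ ta_Z A, Z *ᵥ v = w}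
  add_mem' := by
    rintro a b ⟨Z, hZ, rfl⟩ ⟨Z', hZ', rfl⟩
    exact ⟨Z + Z', (ta_Z A).add_mem hZ hZ', by rw [Matrix.add_mulVec]⟩
  zero_mem' := ⟨0, (ta_Z A).zero_mem, by simp⟩
  smul_mem' := by
    rintro c a ⟨Z, hZ, rfl⟩
    exact ⟨c • Z, (ta_Z A).smul_mem c hZ, by rw [Matrix.smul_mulVec]⟩

private theorem ta_mem_E {L : Type} [Field L] {n : ℕ} (A : Matrix (Fin n) (Fin n) L)
    (v w : Fin n → L) : w ∈ ta_E A v ↔ ∃ Z ∈ ta_Z A, Z *ᵥ v = w := Iff.rfl

private theorem ta_v_mem {L : Type} [Field L] {n : ℕ} (A : Matrix (Fin n) (Fin n) L)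
    (v : Fin n → L) : v ∈ ta_E A v := by
  refine ⟨1, ?_, by simp⟩
  rw [ta_mem_Z]
  simp

private theorem ta_stab {L : Type} [Field L] {n : ℕ} (A : Matrix (Fin n) (Fin n) L)
    (v : Fin n → L) : Stab A (ta_E A v) := by
  rintro Z hZ w ⟨Z', hZ', rfl⟩
  refine ⟨Z * Z', ?_, ?_⟩
  · rw [ta_mem_Z] at hZ' ⊢
    rw [mul_assoc, hZ', ← mul_assoc, hZ, mul_assoc]
  · rw [Matrix.mulVec_mulVec]

/-- The covectors which vanish on `E`. -/
private def ta_P {L : Type} [Field L] {n : ℕ} (E : Submodule L (Fin n → L)) :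
    Submodule L (Fin n → L) where
  carrier := {j | ∀ w ∈ E, j ⬝ᵥ w = 0}
  add_mem' := by
    intro a b ha hb w hw
    rw [add_dotProduct, ha w hw, hb w hw, add_zero]
  zero_mem' := by
    intro w hw
    simp
  smul_mem' := by
    intro c a ha w hw
    rw [smul_dotProduct, ha w hw, smul_zero]

private theorem ta_mem_P {L : Type} [Field L] {n : ℕ} (E : Submodule L (Fin n → L))
    (j : Fin n → L) : j ∈ ta_P E ↔ ∀ w ∈ E, j ⬝ᵥ w = 0 := Iff.rfl

/-- The dot product as a linear map to the dual space. -/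
private def ta_dot {L : Type} [Field L] (n : ℕ) :
    (Fin n → L) →ₗ[L] Module.Dual L (Fin n → L) where
  toFun j :=
    { toFun := fun w => j ⬝ᵥ w
      map_add' := fun a b => dotProduct_add _ _ _
      map_smul' := fun c a => by simp [dotProduct_smul] }
  map_add' := by
    intro a b
    ext i
    simp
  map_smul' := by
    intro c a
    ext i
    simp

private theorem ta_dot_apply {L : Type} [Field L] (n : ℕ) (j w : Fin n → L) :
    ta_dot n j w = j ⬝ᵥ w := rfl

private theorem ta_dot_inj {L : Type} [Field L] (n : ℕ) :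
    Function.Injective (ta_dot (L := L) n) := by
  intro a b h
  ext i
  have := congrArg (fun φ : Module.Dual L (Fin n → L) => φ (Pi.single i 1)) h
  simpa [ta_dot_apply] using this

private theorem ta_fin_P {L : Type} [Field L] {n : ℕ} (E : Submodule L (Fin n → L)) :
    Module.finrank L E + Module.finrank L (ta_P E) ≤ n := by
  have h1 : Module.finrank L (ta_P E) ≤ Module.finrank L E.dualAnnihilator := by
    refine LinearMap.finrank_le_finrank_of_injective
      (f := ((ta_dot n).comp (ta_P E).subtype).codRestrict E.dualAnnihilator ?_) ?_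
    · intro j
      rw [Submodule.mem_dualAnnihilator]
      intro w hw
      exact j.2 w hw
    · intro a b h
      have := congrArg Subtype.val h
      exact Subtype.ext (ta_dot_inj n this)
  have h4 := Subspace.finrank_add_finrank_dualAnnihilator_eq E
  rw [Module.finrank_fin_fun] at h4
  omega

/-- The map `Θ`. -/
private def ta_Th {L : Type} [Field L] {n : ℕ} (A : Matrix (Fin n) (Fin n) L) (v j : Fin n → L) :
    (Matrix (Fin n) (Fin n) L × Matrix (Fin n) (Fin n) L × (Fin n → L) × (Fin n → L)) →ₗ[L]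
      (Matrix (Fin n) (Fin n) L × (Fin n → L) × (Fin n → L)) where
  toFun t := (t.1 * A - A * t.1 + t.2.1, t.1 *ᵥ v + t.2.2.1, t.2.2.2 - j ᵥ* t.1)
  map_add' := by
    intro a b
    simp only [Prod.fst_add, Prod.snd_add, Matrix.add_mulVec, Matrix.vecMul_add, add_mul, mul_add,
      Prod.mk_add_mk, Prod.mk.injEq]
    refine ⟨by abel, by abel, by abel⟩
  map_smul' := by
    intro c a
    simp only [Prod.smul_fst, Prod.smul_snd, Matrix.smul_mulVec, Matrix.vecMul_smul,
      smul_mul_assoc, mul_smul_comm, RingHom.id_apply, Prod.smul_mk, smul_add, smul_sub]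

private theorem ta_Th_apply {L : Type} [Field L] {n : ℕ} (A : Matrix (Fin n) (Fin n) L)
    (v j : Fin n → L)
    (t : Matrix (Fin n) (Fin n) L × Matrix (Fin n) (Fin n) L × (Fin n → L) × (Fin n → L)) :
    ta_Th A v j t = (t.1 * A - A * t.1 + t.2.1, t.1 *ᵥ v + t.2.2.1, t.2.2.2 - j ᵥ* t.1) := rfl

private theorem ta_fin_prod {L V W : Type} [Field L] [AddCommGroup V] [Module L V]
    [AddCommGroup W] [Module L W] [FiniteDimensional L V] [FiniteDimensional L W]
    (p : Submodule L V) (q : Submodule L W) :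
    Module.finrank L (p.prod q) ≤ Module.finrank L p + Module.finrank L q := by
  rw [← Module.finrank_prod]
  refine LinearMap.finrank_le_finrank_of_injective
    (f := (((LinearMap.fst L V W).comp (p.prod q).subtype).codRestrict p fun x => x.2.1).prod
      (((LinearMap.snd L V W).comp (p.prod q).subtype).codRestrict q fun x => x.2.2)) ?_
  intro a b h
  have h1 : (a : V × W).1 = (b : V × W).1 := congrArg (fun t => ((t.1 : p) : V)) h
  have h2 : (a : V × W).2 = (b : V × W).2 := congrArg (fun t => ((t.2 : q) : W)) h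
  exact Subtype.ext (Prod.ext h1 h2)

/-- The domain of `Θ`. -/
private def ta_D {L : Type} [Field L] {n : ℕ} (A : Matrix (Fin n) (Fin n) L) (v : Fin n → L)
    (Pp : Submodule L (Matrix (Fin n) (Fin n) L)) :
    Submodule L (Matrix (Fin n) (Fin n) L × Matrix (Fin n) (Fin n) L × (Fin n → L) × (Fin n → L)) :=
  Submodule.prod ⊤ (Submodule.prod Pp (Submodule.prod (ta_E A v) (ta_P (ta_E A v))))

private theorem ta_fin_D {L : Type} [Field L] {n : ℕ} (A : Matrix (Fin n) (Fin n) L)
    (v : Fin n → L) (Pp : Submodule L (Matrix (Fin n) (Fin n) L)) :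
    Module.finrank L (ta_D A v Pp) ≤ n ^ 2 + n + Module.finrank L Pp := by
  have h1 : Module.finrank L (ta_D A v Pp) ≤ n ^ 2 + (Module.finrank L Pp +
      (Module.finrank L (ta_E A v) + Module.finrank L (ta_P (ta_E A v)))) := by
    have e0 : Module.finrank L (⊤ : Submodule L (Matrix (Fin n) (Fin n) L)) = n ^ 2 := by
      rw [finrank_top, Module.finrank_matrix]
      simp [sq]
    have e1 := ta_fin_prod (ta_E A v) (ta_P (ta_E A v))
    have e2 := ta_fin_prod Pp (Submodule.prod (ta_E A v) (ta_P (ta_E A v)))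
    have e3 := ta_fin_prod (⊤ : Submodule L (Matrix (Fin n) (Fin n) L))
      (Submodule.prod Pp (Submodule.prod (ta_E A v) (ta_P (ta_E A v))))
    unfold ta_D
    omega
  have h2 := ta_fin_P (ta_E A v)
  omega

private theorem ta_fin_im {L : Type} [Field L] {n : ℕ} (A : Matrix (Fin n) (Fin n) L)
    (v j : Fin n → L) (hj : j ∈ ta_P (ta_E A v)) (Pp : Submodule L (Matrix (Fin n) (Fin n) L)) :
    Module.finrank L ((ta_D A v Pp).map (ta_Th A v j)) + Module.finrank L (ta_Z A) ≤
      n ^ 2 + n + Module.finrank L Pp := by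
  have h1 := LinearMap.finrank_range_add_finrank_ker ((ta_Th A v j).comp (ta_D A v Pp).subtype)
  have h2 : LinearMap.range ((ta_Th A v j).comp (ta_D A v Pp).subtype) =
      (ta_D A v Pp).map (ta_Th A v j) := by
    rw [LinearMap.range_comp, Submodule.range_subtype]
  have h3 : Module.finrank L (ta_Z A) ≤
      Module.finrank L (LinearMap.ker ((ta_Th A v j).comp (ta_D A v Pp).subtype)) := by
    have hjZ : ∀ Z ∈ ta_Z A, j ᵥ* Z ∈ ta_P (ta_E A v) := by
      intro Z hZ w hw
      rw [← Matrix.dotProduct_mulVec]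
      exact hj _ (ta_stab A v Z hZ w hw)
    have hD : ∀ Z : ta_Z A, ((Z : Matrix (Fin n) (Fin n) L), (0 : Matrix (Fin n) (Fin n) L),
        -((Z : Matrix (Fin n) (Fin n) L) *ᵥ v), j ᵥ* (Z : Matrix (Fin n) (Fin n) L)) ∈
        ta_D A v Pp := by
      intro Z
      refine ⟨Submodule.mem_top, Pp.zero_mem, (ta_E A v).neg_mem ⟨Z, Z.2, rfl⟩, hjZ Z Z.2⟩
    let φ : ta_Z A →ₗ[L] (Matrix (Fin n) (Fin n) L × Matrix (Fin n) (Fin n) L ×
        (Fin n → L) × (Fin n → L)) :=
      { toFun := fun Z => ((Z : Matrix (Fin n) (Fin n) L), (0 : Matrix (Fin n) (Fin n) L),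
          -((Z : Matrix (Fin n) (Fin n) L) *ᵥ v), j ᵥ* (Z : Matrix (Fin n) (Fin n) L))
        map_add' := by
          intro a b
          simp only [Submodule.coe_add, Matrix.add_mulVec, Matrix.vecMul_add, Prod.mk_add_mk,
            Prod.mk.injEq]
          refine ⟨trivial, by simp, by abel, trivial⟩
        map_smul' := by
          intro c a
          simp only [Submodule.coe_smul, Matrix.smul_mulVec, Matrix.vecMul_smul,
            RingHom.id_apply, Prod.smul_mk, smul_zero, smul_neg] }
    have hφ : ∀ Z, φ Z ∈ ta_D A v Pp := hD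
    have hk : ∀ Z, φ.codRestrict (ta_D A v Pp) hφ Z ∈
        LinearMap.ker ((ta_Th A v j).comp (ta_D A v Pp).subtype) := by
      intro Z
      rw [LinearMap.mem_ker, LinearMap.comp_apply]
      show ta_Th A v j (φ Z) = 0
      rw [ta_Th_apply]
      have hZ : (Z : Matrix (Fin n) (Fin n) L) * A = A * (Z : Matrix (Fin n) (Fin n) L) := Z.2
      show ((Z : Matrix (Fin n) (Fin n) L) * A - A * (Z : Matrix (Fin n) (Fin n) L) + 0,
        (Z : Matrix (Fin n) (Fin n) L) *ᵥ v + -((Z : Matrix (Fin n) (Fin n) L) *ᵥ v),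
        j ᵥ* (Z : Matrix (Fin n) (Fin n) L) - j ᵥ* (Z : Matrix (Fin n) (Fin n) L)) = 0
      rw [hZ]
      simp
    refine LinearMap.finrank_le_finrank_of_injective
      (f := (φ.codRestrict (ta_D A v Pp) hφ).codRestrict _ hk) ?_
    intro a b h
    have h' := congrArg (fun t => (t : Matrix (Fin n) (Fin n) L × Matrix (Fin n) (Fin n) L ×
        (Fin n → L) × (Fin n → L)).1) (congrArg Subtype.val (congrArg Subtype.val h))
    exact Subtype.ext h'
  rw [h2] at h1
  have h4 := ta_fin_D A v Pp
  omega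

/-! ### the tangent space -/

/-- The coordinates `x, v, j` of a point. -/
private def ta_q (L : Type) [Field L] (n : ℕ) :
    (Sg n → L) →ₗ[L] (Matrix (Fin n) (Fin n) L × (Fin n → L) × (Fin n → L)) where
  toFun t := (fun i l => t (Sum.inl (0, i, l)), fun i => t (Sum.inr (0, i)),
    fun i => t (Sum.inr (1, i)))
  map_add' := fun a b => rfl
  map_smul' := fun c a => rfl

/-- The coordinates `y` of a point. -/
private def ta_b (L : Type) [Field L] (n : ℕ) :
    (Sg n → L) →ₗ[L] Matrix (Fin n) (Fin n) L where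
  toFun t := fun i l => t (Sum.inl (1, i, l))
  map_add' := fun a b => rfl
  map_smul' := fun c a => rfl

/-- The differential of the equations. -/
private def ta_F {L : Type} [Field L] {n : ℕ} (A B : Matrix (Fin n) (Fin n) L)
    (v j : Fin n → L) : (Sg n → L) →ₗ[L] Matrix (Fin n) (Fin n) L where
  toFun t := (ta_q L n t).1 * B - B * (ta_q L n t).1 + (A * ta_b L n t - ta_b L n t * A) +
    (vecMulVec (ta_q L n t).2.1 j + vecMulVec v (ta_q L n t).2.2)
  map_add' := by
    intro a b
    rw [map_add, map_add]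
    simp only [Prod.fst_add, Prod.snd_add, add_mul, mul_add, Matrix.add_vecMulVec,
      Matrix.vecMulVec_add]
    abel
  map_smul' := by
    intro c a
    rw [map_smul, map_smul]
    simp only [Prod.smul_fst, Prod.smul_snd, smul_mul_assoc, mul_smul_comm,
      Matrix.smul_vecMulVec, Matrix.vecMulVec_smul, RingHom.id_apply, smul_add, smul_sub]

private theorem ta_F_apply {L : Type} [Field L] {n : ℕ} (A B : Matrix (Fin n) (Fin n) L)
    (v j : Fin n → L) (t : Sg n → L) : ta_F A B v j t =
    (ta_q L n t).1 * B - B * (ta_q L n t).1 + (A * ta_b L n t - ta_b L n t * A) +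
    (vecMulVec (ta_q L n t).2.1 j + vecMulVec v (ta_q L n t).2.2) := rfl

private theorem ta_ext {L : Type} [Field L] {n : ℕ} (s t : Sg n → L)
    (h1 : ta_q L n s = ta_q L n t) (h2 : ta_b L n s = ta_b L n t) : s = t := by
  funext x
  rcases x with ⟨e, i, l⟩ | ⟨e, i⟩
  · fin_cases e
    · exact congrFun (congrFun (congrArg Prod.fst h1) i) l
    · exact congrFun (congrFun h2 i) l
  · fin_cases e
    · exact congrFun (congrArg (fun z => z.2.1) h1) i
    · exact congrFun (congrArg (fun z => z.2.2) h1) i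

/-- The space `T`. -/
private def ta_T {L : Type} [Field L] {n : ℕ} (A B : Matrix (Fin n) (Fin n) L)
    (v j : Fin n → L) (Pp : Submodule L (Matrix (Fin n) (Fin n) L)) : Submodule L (Sg n → L) :=
  ((ta_D A v Pp).map (ta_Th A v j)).comap (ta_q L n) ⊓ LinearMap.ker (ta_F A B v j)

private theorem ta_fin_T {L : Type} [Field L] {n : ℕ} (A B : Matrix (Fin n) (Fin n) L)
    (v j : Fin n → L) (hj : j ∈ ta_P (ta_E A v)) (Pp : Submodule L (Matrix (Fin n) (Fin n) L)) :
    Module.finrank L (ta_T A B v j Pp) ≤ n ^ 2 + n + Module.finrank L Pp := by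
  have h1 := LinearMap.finrank_range_add_finrank_ker
    ((ta_q L n).comp (ta_T A B v j Pp).subtype)
  have h2 : Module.finrank L (LinearMap.range ((ta_q L n).comp (ta_T A B v j Pp).subtype)) ≤
      Module.finrank L ((ta_D A v Pp).map (ta_Th A v j)) := by
    apply Submodule.finrank_mono
    rintro _ ⟨t, rfl⟩
    exact t.2.1
  have h3 : Module.finrank L (LinearMap.ker ((ta_q L n).comp (ta_T A B v j Pp).subtype)) ≤
      Module.finrank L (ta_Z A) := by
    have hZ : ∀ t : LinearMap.ker ((ta_q L n).comp (ta_T A B v j Pp).subtype),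
        ((ta_b L n).comp ((ta_T A B v j Pp).subtype.comp (Submodule.subtype _))) t ∈ ta_Z A := by
      rintro ⟨⟨t, ht, ht'⟩, h0⟩
      have h0' : ta_q L n t = 0 := h0
      replace ht' : ta_F A B v j t = 0 := ht'
      rw [ta_F_apply, h0'] at ht'
      have ht2 : A * ta_b L n t - ta_b L n t * A = 0 := by
        simpa using ht'
      rw [ta_mem_Z]
      exact (sub_eq_zero.mp ht2).symm
    refine LinearMap.finrank_le_finrank_of_injective
      (f := LinearMap.codRestrict (ta_Z A)
        ((ta_b L n).comp ((ta_T A B v j Pp).subtype.comp (Submodule.subtype _))) hZ) ?_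
    rintro ⟨⟨s, hs⟩, hs0⟩ ⟨⟨t, ht⟩, ht0⟩ h
    have hb : ta_b L n s = ta_b L n t := congrArg Subtype.val h
    have hs0' : ta_q L n s = 0 := hs0
    have ht0' : ta_q L n t = 0 := ht0
    have := ta_ext s t (hs0'.trans ht0'.symm) hb
    exact Subtype.ext (Subtype.ext this)
  have h4 := ta_fin_im A v j hj Pp
  omega

private theorem ta_j_mem {L : Type} [Field L] {n : ℕ} (A B : Matrix (Fin n) (Fin n) L)
    (v j : Fin n → L) (h : A * B - B * A + vecMulVec v j = 0) : j ∈ ta_P (ta_E A v) := by
  rintro w ⟨Z, hZ, rfl⟩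
  have h1 : j ⬝ᵥ (Z *ᵥ v) = (Z * vecMulVec v j).trace := by
    rw [Matrix.mul_vecMulVec, Matrix.trace_vecMulVec, dotProduct_comm]
  have h2 : vecMulVec v j = B * A - A * B := by
    have : vecMulVec v j = -(A * B - B * A) := eq_neg_of_add_eq_zero_right h
    rw [this, neg_sub]
  have hZ' : Z * A = A * Z := hZ
  rw [h1, h2, mul_sub, Matrix.trace_sub, ← mul_assoc, ← mul_assoc, hZ', mul_assoc A Z B,
    Matrix.trace_mul_comm A (Z * B), sub_eq_zero]

private theorem ta_map_mul {k L : Type} [Field k] [Field L] [Algebra k L] {n : ℕ}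
    (δ : Derivation k L L) (A B : Matrix (Fin n) (Fin n) L) :
    (A * B).map δ = A.map δ * B + A * B.map δ := by
  ext i l
  simp only [Matrix.map_apply, Matrix.mul_apply, Matrix.add_apply, map_sum, Derivation.leibniz,
    smul_eq_mul]
  rw [← Finset.sum_add_distrib]
  refine Finset.sum_congr rfl fun x _ => ?_
  ring

/-- **TA.** The tangent space at the generic point. -/
theorem thm_TA (hXi : St_Xi) : St_TA := by
  intro k _ L _ _ _ n A B v j h κ _ ℓ μ b hJB
  obtain ⟨Pp, hPp, hδ⟩ := hXi k L n A κ ℓ μ b hJB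
  have hj := ta_j_mem A B v j h
  refine ⟨ta_T A B v j Pp, (ta_fin_T A B v j hj Pp).trans (by omega), ?_⟩
  intro δ
  obtain ⟨ξ, hξ, hE⟩ := hδ δ
  obtain ⟨hE1, hE2⟩ := hE (ta_E A v) (ta_stab A v)
  have hq : ta_q L n (fun i => δ (co A B v j i)) =
      (A.map δ, fun i => δ (v i), fun i => δ (j i)) := rfl
  have hb : ta_b L n (fun i => δ (co A B v j i)) = B.map δ := rfl
  refine ⟨?_, ?_⟩
  · show ta_q L n (fun i => δ (co A B v j i)) ∈ (ta_D A v Pp).map (ta_Th A v j)
    rw [hq]
    refine ⟨(ξ, A.map δ - (ξ * A - A * ξ), (fun i => δ (v i)) - ξ *ᵥ v,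
      (fun i => δ (j i)) + j ᵥ* ξ), ⟨Submodule.mem_top, hξ, hE1 v (ta_v_mem A v),
        hE2 j hj⟩, ?_⟩
    rw [ta_Th_apply]
    refine Prod.ext ?_ (Prod.ext ?_ ?_)
    · show ξ * A - A * ξ + (A.map δ - (ξ * A - A * ξ)) = A.map δ
      abel
    · show ξ *ᵥ v + ((fun i => δ (v i)) - ξ *ᵥ v) = fun i => δ (v i)
      abel
    · show (fun i => δ (j i)) + j ᵥ* ξ - j ᵥ* ξ = fun i => δ (j i)
      abel
  · show ta_F A B v j (fun i => δ (co A B v j i)) = 0
    rw [ta_F_apply, hq, hb]
    have h1 : (A * B - B * A + vecMulVec v j).map δ = 0 := by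
      rw [h]
      ext i l
      simp
    have h2 : (A * B - B * A + vecMulVec v j).map δ =
        A.map δ * B - B * A.map δ + (A * B.map δ - B.map δ * A) +
        (vecMulVec (fun i => δ (v i)) j + vecMulVec v (fun i => δ (j i))) := by
      have e1 : (A * B - B * A + vecMulVec v j).map δ =
          (A * B).map δ - (B * A).map δ + (vecMulVec v j).map δ := by
        ext i l
        simp only [Matrix.map_apply, Matrix.add_apply, Matrix.sub_apply, map_add, map_sub]
      have e2 : (vecMulVec v j).map δ =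
          vecMulVec (fun i => δ (v i)) j + vecMulVec v (fun i => δ (j i)) := by
        ext i l
        simp only [Matrix.map_apply, Matrix.add_apply, Matrix.vecMulVec_apply,
          Derivation.leibniz, smul_eq_mul]
        ring
      rw [e1, e2, ta_map_mul, ta_map_mul]
      abel
    rw [← h2, h1]

end Pool.Agent.ACV
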