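import Pool.Agent.ACV.St

/-!
# ACV Tor: invariants at a diagonal matrix
-/

set_option autoImplicit false

noncomputable section

namespace Pool.Agent.ACV

open Matrix

/-- the point given by two matrices, a vector and covectors -/
def torP {n r : ℕ} {R : Type} (A B : Matrix (Fin n) (Fin n) R) (v : Fin n → R)
    (ξ : Fin r → Fin n → R) : Vg n r → R :=
  Sum.elim (fun t => if t.1 = 0 then A t.2.1 t.2.2 else B t.2.1 t.2.2)
    (Sum.elim v fun t => ξ t.1 t.2)

theorem tor_evg {n r : ℕ} {R : Type} [CommRing R] [Algebra ℂ R] (A B : Matrix (Fin n) (Fin n) R)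
    (v : Fin n → R) (ξ : Fin r → Fin n → R) (f : MvPolynomial (Vg n r) ℂ) :
    evg A B v ξ f = MvPolynomial.aeval (torP A B v ξ) f := rfl

/-- the weight of a variable at the index `d` -/
def torW {n r : ℕ} (d : Fin n) : Vg n r → ℤ :=
  Sum.elim (fun t => (if t.2.1 = d then 1 else 0) - (if t.2.2 = d then 1 else 0))
    (Sum.elim (fun i => if i = d then 1 else 0) fun t => -(if t.2 = d then 1 else 0))

theorem tor_scale {σ : Type} (a : σ → ℂ) (f : MvPolynomial σ ℂ) (m : σ →₀ ℕ) :
    MvPolynomial.coeff m (MvPolynomial.aeval (fun i => MvPolynomial.C (a i) * MvPolynomial.X i) f :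
      MvPolynomial σ ℂ) = MvPolynomial.coeff m f * m.prod fun i k => a i ^ k := by
  classical
  induction f using MvPolynomial.induction_on' with
  | monomial u c =>
    have h1 : (MvPolynomial.aeval (fun i => MvPolynomial.C (a i) * MvPolynomial.X i)
        (MvPolynomial.monomial u c) : MvPolynomial σ ℂ) =
        MvPolynomial.monomial u (c * u.prod fun i k => a i ^ k) := by
      rw [MvPolynomial.aeval_monomial]
      simp only [mul_pow]
      rw [Finsupp.prod_mul]
      rw [MvPolynomial.monomial_eq, map_mul, MvPolynomial.algebraMap_eq]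
      have h2 : (u.prod fun i k => (MvPolynomial.C (a i) : MvPolynomial σ ℂ) ^ k) =
          MvPolynomial.C (u.prod fun i k => a i ^ k) := by
        rw [Finsupp.prod, Finsupp.prod, map_prod]
        refine Finset.prod_congr rfl fun i _ => ?_
        rw [map_pow]
      rw [h2]
      ring
    rw [h1, MvPolynomial.coeff_monomial, MvPolynomial.coeff_monomial]
    split_ifs with h
    · rw [h]
    · rw [zero_mul]
  | add p q hp hq =>
    rw [map_add, MvPolynomial.coeff_add, MvPolynomial.coeff_add, hp, hq, add_mul]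

/-- the scaled point -/
theorem tor_point {n r : ℕ} (d : Fin n) (p : Vg n r → ℂ) (f : MvPolynomial (Vg n r) ℂ)
    (hf : Inv f) : MvPolynomial.aeval (fun i => (2 : ℂ) ^ torW d i * p i) f =
      MvPolynomial.aeval p f := by
  have h2 : ∀ c : Fin n, (if c = d then (2 : ℂ) else 1) ≠ 0 := fun c => by
    split_ifs <;> norm_num
  let g : (Matrix (Fin n) (Fin n) ℂ)ˣ :=
    { val := Matrix.diagonal fun c => if c = d then 2 else 1
      inv := Matrix.diagonal fun c => (if c = d then 2 else 1)⁻¹
      val_inv := by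
        rw [Matrix.diagonal_mul_diagonal, ← Matrix.diagonal_one]
        congr 1
        funext c
        exact mul_inv_cancel₀ (h2 c)
      inv_val := by
        rw [Matrix.diagonal_mul_diagonal, ← Matrix.diagonal_one]
        congr 1
        funext c
        exact inv_mul_cancel₀ (h2 c) }
  have h : MvPolynomial.aeval (torP (g.val * (Matrix.of fun i j => p (Sum.inl (0, i, j))) * (g⁻¹ : (Matrix (Fin n) (Fin n) ℂ)ˣ).val)
      (g.val * (Matrix.of fun i j => p (Sum.inl (1, i, j))) *
        (g⁻¹ : (Matrix (Fin n) (Fin n) ℂ)ˣ).val)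
      (g.val *ᵥ (fun i => p (Sum.inr (Sum.inl i))))
      (fun s => (fun i => p (Sum.inr (Sum.inr (s, i)))) ᵥ*
        (g⁻¹ : (Matrix (Fin n) (Fin n) ℂ)ˣ).val)) f =
      MvPolynomial.aeval (torP (fun i j => p (Sum.inl (0, i, j)))
        (fun i j => p (Sum.inl (1, i, j)))
        (fun i => p (Sum.inr (Sum.inl i))) (fun s i => p (Sum.inr (Sum.inr (s, i))))) f :=
    hf g (fun i j => p (Sum.inl (0, i, j))) (fun i j => p (Sum.inl (1, i, j)))
    (fun i => p (Sum.inr (Sum.inl i))) (fun s i => p (Sum.inr (Sum.inr (s, i))))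
  have e1 : torP (fun i j => p (Sum.inl (0, i, j))) (fun i j => p (Sum.inl (1, i, j)))
      (fun i => p (Sum.inr (Sum.inl i))) (fun s i => p (Sum.inr (Sum.inr (s, i)))) = p := by
    funext x
    rcases x with ⟨a, i, j⟩ | i | ⟨s, i⟩
    · fin_cases a <;> simp [torP]
    · rfl
    · rfl
  rw [e1] at h
  rw [← h]
  congr 2
  have hpow : ∀ c e : Fin n, (2 : ℂ) ^ ((if c = d then (1 : ℤ) else 0) -
      (if e = d then (1 : ℤ) else 0)) =
      (if c = d then (2 : ℂ) else 1) * (if e = d then (2 : ℂ) else 1)⁻¹ := by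
    intro c e
    split_ifs <;> norm_num
  funext x
  rcases x with ⟨a, i, j⟩ | i | ⟨s, i⟩
  · have key : ∀ M : Matrix (Fin n) (Fin n) ℂ,
        ((Matrix.diagonal fun c => if c = d then (2 : ℂ) else 1) * M *
          (Matrix.diagonal fun c => (if c = d then (2 : ℂ) else 1)⁻¹)) i j =
        (if i = d then (2 : ℂ) else 1) * M i j * (if j = d then (2 : ℂ) else 1)⁻¹ := by
      intro M
      rw [Matrix.mul_diagonal, Matrix.diagonal_mul]
    show (2 : ℂ) ^ ((if i = d then (1 : ℤ) else 0) - (if j = d then (1 : ℤ) else 0)) *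
      p (Sum.inl (a, i, j)) = _
    rw [hpow]
    fin_cases a
    · show _ = ((Matrix.diagonal fun c => if c = d then (2 : ℂ) else 1) *
        (Matrix.of fun i j => p (Sum.inl (0, i, j))) *
          (Matrix.diagonal fun c => (if c = d then (2 : ℂ) else 1)⁻¹)) i j
      rw [key, Matrix.of_apply]
      show _ * _ * p (Sum.inl (0, i, j)) = _
      ring
    · show _ = ((Matrix.diagonal fun c => if c = d then (2 : ℂ) else 1) *
        (Matrix.of fun i j => p (Sum.inl (1, i, j))) *
          (Matrix.diagonal fun c => (if c = d then (2 : ℂ) else 1)⁻¹)) i j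
      rw [key, Matrix.of_apply]
      show _ * _ * p (Sum.inl (1, i, j)) = _
      ring
  · show (2 : ℂ) ^ (if i = d then (1 : ℤ) else 0) * p (Sum.inr (Sum.inl i)) =
      ((Matrix.diagonal fun c => if c = d then (2 : ℂ) else 1) *ᵥ
        (fun i => p (Sum.inr (Sum.inl i)))) i
    rw [Matrix.mulVec_diagonal]
    congr 1
    split_ifs <;> norm_num
  · show (2 : ℂ) ^ (-(if i = d then (1 : ℤ) else 0)) * p (Sum.inr (Sum.inr (s, i))) =
      ((fun i => p (Sum.inr (Sum.inr (s, i)))) ᵥ*
        (Matrix.diagonal fun c => (if c = d then (2 : ℂ) else 1)⁻¹)) i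
    rw [Matrix.vecMul_diagonal, mul_comm]
    congr 1
    split_ifs <;> norm_num

theorem tor_zsum {ι : Type} (s : Finset ι) (a : ι → ℤ) :
    (2 : ℂ) ^ (∑ i ∈ s, a i) = ∏ i ∈ s, (2 : ℂ) ^ (a i) := by
  classical
  induction s using Finset.induction_on with
  | empty => simp
  | insert x s hx ih =>
    rw [Finset.sum_insert hx, Finset.prod_insert hx, zpow_add₀ (by norm_num), ih]

/-- monomials of an invariant have weight `0` -/
theorem tor_weight {n r : ℕ} (d : Fin n) (f : MvPolynomial (Vg n r) ℂ) (hf : Inv f)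
    (m : Vg n r →₀ ℕ) (hm : MvPolynomial.coeff m f ≠ 0) :
    ∑ i : Vg n r, torW d i * (m i : ℤ) = 0 := by
  have h1 : (MvPolynomial.aeval (fun i => MvPolynomial.C ((2 : ℂ) ^ torW d i) *
      MvPolynomial.X i) f : MvPolynomial (Vg n r) ℂ) = f := by
    refine MvPolynomial.funext fun p => ?_
    have h2 := tor_point d p f hf
    rw [← MvPolynomial.coe_aeval_eq_eval, RingHom.coe_coe]
    have h3 : (MvPolynomial.aeval p) ((MvPolynomial.aeval (fun i =>
        MvPolynomial.C ((2 : ℂ) ^ torW d i) * MvPolynomial.X i)) f : MvPolynomial (Vg n r) ℂ) =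
        MvPolynomial.aeval (fun i => (2 : ℂ) ^ torW d i * p i) f := by
      rw [← AlgHom.comp_apply, MvPolynomial.comp_aeval]
      congr 2
      funext i
      simp
    rw [h3, h2]
  have h4 := tor_scale (fun i => (2 : ℂ) ^ torW d i) f m
  rw [h1] at h4
  have h5 : (m.prod fun i k => ((2 : ℂ) ^ torW d i) ^ k) = 1 := by
    have h6 : MvPolynomial.coeff m f * 1 =
        MvPolynomial.coeff m f * (m.prod fun i k => ((2 : ℂ) ^ torW d i) ^ k) := by
      rw [mul_one]
      exact h4
    exact (mul_left_cancel₀ hm h6).symm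
  rw [Finsupp.prod_fintype _ _ (fun i => pow_zero _)] at h5
  have h6 : (2 : ℂ) ^ (∑ i : Vg n r, torW d i * (m i : ℤ)) = 1 := by
    rw [← h5]
    rw [Finset.prod_congr rfl (fun i _ => (zpow_natCast ((2 : ℂ) ^ torW d i) (m i)).symm)]
    rw [Finset.prod_congr rfl (fun i _ => (zpow_mul (2 : ℂ) (torW d i) (m i : ℤ)).symm)]
    exact tor_zsum _ _
  have h7 : ‖(2 : ℂ) ^ (∑ i : Vg n r, torW d i * (m i : ℤ))‖ = 1 := by
    rw [h6, norm_one]
  rw [norm_zpow, Complex.norm_ofNat] at h7
  by_contra h8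
  exact absurd ((zpow_eq_one_iff_right₀ (by norm_num) (by norm_num)).mp h7) h8

/-- a monomial with an off diagonal `y` has a further positive factor -/
theorem tor_pos {n r : ℕ} (f : MvPolynomial (Vg n r) ℂ) (hf : Inv f)
    (m : Vg n r →₀ ℕ) (hm : MvPolynomial.coeff m f ≠ 0)
    (hx : ∀ i j : Fin n, i ≠ j → m (Sum.inl (0, i, j)) = 0) (c d : Fin n) (hcd : c ≠ d)
    (h : m (Sum.inl (1, c, d)) ≠ 0) :
    (∃ e : Fin n, d ≠ e ∧ m (Sum.inl (1, d, e)) ≠ 0) ∨ m (Sum.inr (Sum.inl d)) ≠ 0 := by
  by_contra hno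
  rw [not_or] at hno
  obtain ⟨h1, h2⟩ := hno
  have h1' : ∀ e : Fin n, d ≠ e → m (Sum.inl (1, d, e)) = 0 := by
    intro e he
    by_contra h3
    exact h1 ⟨e, he, h3⟩
  have h2' : m (Sum.inr (Sum.inl d)) = 0 := by
    by_contra h3
    exact h2 h3
  have hw := tor_weight d f hf m hm
  have hle : ∀ i : Vg n r, torW d i * (m i : ℤ) ≤ 0 := by
    intro i
    rcases i with ⟨a, i, j⟩ | i | ⟨s, i⟩
    · show ((if i = d then (1 : ℤ) else 0) - (if j = d then (1 : ℤ) else 0)) *
        (m (Sum.inl (a, i, j)) : ℤ) ≤ 0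
      by_cases hi : i = d
      · by_cases hj : j = d
        · simp [hi, hj]
        · have h0 : m (Sum.inl (a, i, j)) = 0 := by
            rw [hi]
            fin_cases a
            · exact hx d j (fun e => hj e.symm)
            · exact h1' j (fun e => hj e.symm)
          rw [h0]
          simp
      · rw [if_neg hi]
        split_ifs <;> simp
    · show (if i = d then (1 : ℤ) else 0) * (m (Sum.inr (Sum.inl i)) : ℤ) ≤ 0
      by_cases hi : i = d
      · rw [hi, h2']
        simp
      · rw [if_neg hi]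
        simp
    · show (-(if i = d then (1 : ℤ) else 0)) * (m (Sum.inr (Sum.inr (s, i))) : ℤ) ≤ 0
      split_ifs <;> simp
  have hlt : torW d (Sum.inl (1, c, d) : Vg n r) * (m (Sum.inl (1, c, d)) : ℤ) < 0 := by
    show ((if c = d then (1 : ℤ) else 0) - (if d = d then (1 : ℤ) else 0)) *
        (m (Sum.inl (1, c, d)) : ℤ) < 0
    rw [if_neg hcd, if_pos rfl]
    have : 0 < m (Sum.inl (1, c, d)) := Nat.pos_of_ne_zero h
    have : (0 : ℤ) < (m (Sum.inl (1, c, d)) : ℤ) := by exact_mod_cast this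
    linarith
  have hsum : ∑ i : Vg n r, torW d i * (m i : ℤ) < ∑ _i : Vg n r, (0 : ℤ) :=
    Finset.sum_lt_sum (fun i _ => hle i) ⟨_, Finset.mem_univ _, hlt⟩
  rw [hw] at hsum
  simp at hsum

theorem tor_prod0 {σ R : Type} [Fintype σ] [CommRing R] (p : σ → R) (m : σ → ℕ)
    (i : σ) (h : m i ≠ 0) (hp : p i = 0) : ∏ x, p x ^ m x = 0 :=
  Finset.prod_eq_zero (Finset.mem_univ i) (by rw [hp, zero_pow h])

theorem tor_prod2 {σ R : Type} [Fintype σ] [CommRing R] (p : σ → R) (m : σ → ℕ)
    (i j : σ) (hij : i ≠ j) (hi : m i ≠ 0) (hj : m j ≠ 0) (hp : p i * p j = 0) :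
    ∏ x, p x ^ m x = 0 := by
  classical
  have h1 : p i * p j ∣ ∏ x ∈ ({i, j} : Finset σ), p x ^ m x := by
    rw [Finset.prod_pair hij]
    exact mul_dvd_mul (dvd_pow_self _ hi) (dvd_pow_self _ hj)
  have h2 := h1.trans (Finset.prod_dvd_prod_of_subset ({i, j} : Finset σ) Finset.univ
    (fun x => p x ^ m x) (Finset.subset_univ _))
  rw [hp] at h2
  exact zero_dvd_iff.mp h2

/-- off diagonal entries of `B` do not contribute -/
theorem tor_diag {n r : ℕ} (f : MvPolynomial (Vg n r) ℂ) (hf : Inv f) {R : Type} [CommRing R]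
    [Algebra ℂ R] (l : Fin n → R) (B : Matrix (Fin n) (Fin n) R) (v j : Fin n → R)
    (ξ : Fin r → Fin n → R) (hl : ∀ c d, c ≠ d → IsUnit (l c - l d))
    (hB : ∀ c d, (l c - l d) * B c d + v c * j d = 0) :
    evg (Matrix.diagonal l) B v ξ f =
      evg (Matrix.diagonal l) (Matrix.diagonal fun c => B c c) v ξ f := by
  have hvj : ∀ d, v d * j d = 0 := by
    intro d
    have := hB d d
    rw [sub_self, zero_mul, zero_add] at this
    exact this
  have hu : ∀ c d, (l c - l d) * B c d = -(v c * j d) := fun c d =>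
    eq_neg_of_add_eq_zero_left (hB c d)
  have hBv : ∀ c d, c ≠ d → B c d * v d = 0 := by
    intro c d hcd
    refine (hl c d hcd).mul_left_cancel ?_
    calc (l c - l d) * (B c d * v d) = ((l c - l d) * B c d) * v d := by ring
      _ = -(v c * (v d * j d)) := by rw [hu]; ring
      _ = (l c - l d) * 0 := by rw [hvj]; ring
  have hBB : ∀ c d e, c ≠ d → d ≠ e → B c d * B d e = 0 := by
    intro c d e hcd hde
    refine (hl c d hcd).mul_left_cancel ((hl d e hde).mul_left_cancel ?_)
    calc (l d - l e) * ((l c - l d) * (B c d * B d e)) =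
          ((l c - l d) * B c d) * ((l d - l e) * B d e) := by ring
      _ = (v d * j d) * (v c * j e) := by rw [hu, hu]; ring
      _ = (l d - l e) * ((l c - l d) * 0) := by rw [hvj]; ring
  rw [tor_evg, tor_evg, MvPolynomial.aeval_def, MvPolynomial.aeval_def, MvPolynomial.eval₂_eq',
    MvPolynomial.eval₂_eq']
  refine Finset.sum_congr rfl fun m hm => ?_
  rw [MvPolynomial.mem_support_iff] at hm
  congr 1
  by_cases hx : ∀ i j : Fin n, i ≠ j → m (Sum.inl (0, i, j)) = 0
  · by_cases hy : ∀ i j : Fin n, i ≠ j → m (Sum.inl (1, i, j)) = 0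
    · refine Finset.prod_congr rfl fun i _ => ?_
      rcases i with ⟨a, i, j⟩ | i | ⟨s, i⟩
      · by_cases hij : i = j
        · subst hij
          fin_cases a
          · rfl
          · show (B i i) ^ _ = (Matrix.diagonal (fun c => B c c) i i) ^ _
            rw [Matrix.diagonal_apply_eq]
        · have h0 : m (Sum.inl (a, i, j)) = 0 := by
            fin_cases a
            · exact hx i j hij
            · exact hy i j hij
          rw [h0, pow_zero, pow_zero]
      · rfl
      · rfl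
    · push Not at hy
      obtain ⟨c, d, hcd, hne⟩ := hy
      have hr : ∏ x : Vg n r, torP (Matrix.diagonal l) (Matrix.diagonal fun c => B c c) v ξ x ^
          m x = 0 :=
        tor_prod0 _ _ (Sum.inl (1, c, d)) hne (Matrix.diagonal_apply_ne _ hcd)
      rw [hr]
      rcases tor_pos f hf m hm hx c d hcd hne with ⟨e, hde, he⟩ | hv
      · refine tor_prod2 _ _ (Sum.inl (1, c, d)) (Sum.inl (1, d, e)) ?_ hne he
          (hBB c d e hcd hde)
        intro h
        simp only [Sum.inl.injEq, Prod.mk.injEq, true_and] at h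
        exact hcd h.1
      · exact tor_prod2 _ _ (Sum.inl (1, c, d)) (Sum.inr (Sum.inl d)) (by simp) hne hv
          (hBv c d hcd)
  · push Not at hx
    obtain ⟨c, d, hcd, hne⟩ := hx
    have h3 : ∏ x : Vg n r, torP (Matrix.diagonal l) B v ξ x ^ m x = 0 :=
      tor_prod0 _ _ (Sum.inl (0, c, d)) hne (Matrix.diagonal_apply_ne _ hcd)
    have h4 : ∏ x : Vg n r, torP (Matrix.diagonal l) (Matrix.diagonal fun c => B c c) v ξ x ^
        m x = 0 :=
      tor_prod0 _ _ (Sum.inl (0, c, d)) hne (Matrix.diagonal_apply_ne _ hcd)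
    rw [h3, h4]

/-- naturality -/
theorem tor_nat {n r : ℕ} (f : MvPolynomial (Vg n r) ℂ) {R S : Type} [CommRing R]
    [Algebra ℂ R] [CommRing S] [Algebra ℂ S] (φ : R →ₐ[ℂ] S) (l b : Fin n → R) (v : Fin n → R)
    (ξ : Fin r → Fin n → R) :
    φ (evg (Matrix.diagonal l) (Matrix.diagonal b) v ξ f) =
      evg (Matrix.diagonal fun i => φ (l i)) (Matrix.diagonal fun i => φ (b i))
        (fun i => φ (v i)) (fun s i => φ (ξ s i)) f := by
  rw [tor_evg, tor_evg, ← AlgHom.comp_apply, MvPolynomial.comp_aeval]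
  congr 2
  funext x
  rcases x with ⟨a, i, j⟩ | i | ⟨s, i⟩
  · have key : ∀ w : Fin n → R, φ (Matrix.diagonal w i j) =
        Matrix.diagonal (fun i => φ (w i)) i j := by
      intro w
      rw [Matrix.diagonal_apply, Matrix.diagonal_apply]
      split_ifs
      · rfl
      · exact map_zero φ
    fin_cases a
    · exact key l
    · exact key b
  · rfl
  · rfl

/-- pairs of diagonal matrices -/
theorem tor_van {n r : ℕ} (f : MvPolynomial (Vg n r) ℂ) (hf : Van f) {R : Type} [CommRing R]
    [Algebra ℂ R] (l b : Fin n → R) (v : Fin n → R) (ξ : Fin r → Fin n → R) :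
    evg (Matrix.diagonal l) (Matrix.diagonal b) v ξ f = 0 := by
  let τ := Fin n ⊕ (Fin n ⊕ (Fin n ⊕ (Fin r × Fin n)))
  have h0 : evg (R := MvPolynomial τ ℂ)
      (Matrix.diagonal fun i => MvPolynomial.X (Sum.inl i))
      (Matrix.diagonal fun i => MvPolynomial.X (Sum.inr (Sum.inl i)))
      (fun i => MvPolynomial.X (Sum.inr (Sum.inr (Sum.inl i))))
      (fun s i => MvPolynomial.X (Sum.inr (Sum.inr (Sum.inr (s, i))))) f = 0 := by
    refine MvPolynomial.funext fun p => ?_
    rw [map_zero, ← MvPolynomial.coe_aeval_eq_eval, RingHom.coe_coe, tor_nat]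
    refine hf _ _ _ _ ?_
    rw [Matrix.diagonal_mul_diagonal, Matrix.diagonal_mul_diagonal]
    congr 1
    funext i
    exact mul_comm _ _
  have h1 := tor_nat f (MvPolynomial.aeval (Sum.elim l (Sum.elim b (Sum.elim v
    fun t => ξ t.1 t.2))) : MvPolynomial τ ℂ →ₐ[ℂ] R)
    (fun i => MvPolynomial.X (Sum.inl i)) (fun i => MvPolynomial.X (Sum.inr (Sum.inl i)))
    (fun i => MvPolynomial.X (Sum.inr (Sum.inr (Sum.inl i))))
    (fun s i => MvPolynomial.X (Sum.inr (Sum.inr (Sum.inr (s, i)))))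
  rw [h0, map_zero] at h1
  simp only [MvPolynomial.aeval_X, Sum.elim_inl, Sum.elim_inr] at h1
  exact h1.symm

theorem thm_Tor : St_Tor := by
  intro n r f hI hV R _ _ l B v j ξ hl hB
  rw [tor_diag f hI l B v j ξ hl hB]
  exact tor_van f hV l _ v ξ

end Pool.Agent.ACV
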