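import Pool.Agent.ACV.St

/-!
# ACV Vd: the Gram determinant of a matrix with n distinct eigenvalues
-/

set_option autoImplicit false
set_option linter.unusedVariables false

noncomputable section

namespace Pool.Agent.ACV

open Matrix

theorem vd_trace {L : Type} [Field L] {n : ℕ} (A : Matrix (Fin n) (Fin n) L) {κ : Type}
    [Fintype κ] (ℓ : κ → ℕ) (μ : κ → L) (b : Module.Basis (Σ i : κ, Fin (ℓ i)) L (Fin n → L))
    (hJ : JB A ℓ μ b) (h1 : ∀ i, ℓ i = 1) (a : ℕ) : (A ^ a).trace = ∑ i, μ i ^ a := by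
  classical
  have hb : ∀ x, A *ᵥ b x = μ x.1 • b x := by
    rintro ⟨i, c⟩
    have hi := h1 i
    rw [hJ.2 i c, dif_neg (by omega), add_zero]
  have hp : ∀ (k : ℕ) (x), (A ^ k) *ᵥ b x = μ x.1 ^ k • b x := by
    intro k
    induction k with
    | zero => intro x; rw [pow_zero, pow_zero, Matrix.one_mulVec, one_smul]
    | succ k ih =>
      intro x
      rw [pow_succ, ← Matrix.mulVec_mulVec, hb x, Matrix.mulVec_smul, ih x, smul_smul, pow_succ,
        mul_comm]
  have h2 : (A ^ a).trace = LinearMap.trace L (Fin n → L) (Matrix.toLin' (A ^ a)) :=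
    (Matrix.trace_toLin'_eq _).symm
  rw [h2, LinearMap.trace_eq_matrix_trace L b, Matrix.trace]
  have h3 : ∀ x, (LinearMap.toMatrix b b (Matrix.toLin' (A ^ a))).diag x = μ x.1 ^ a := by
    intro x
    rw [Matrix.diag_apply, LinearMap.toMatrix_apply, Matrix.toLin'_apply, hp a x, map_smul,
      Module.Basis.repr_self, Finsupp.smul_apply, Finsupp.single_eq_same, smul_eq_mul, mul_one]
  rw [Finset.sum_congr rfl fun x _ => h3 x, Fintype.sum_sigma]
  refine Finset.sum_congr rfl fun i _ => ?_
  show ∑ _y : Fin (ℓ i), μ i ^ a = μ i ^ a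
  rw [Finset.sum_const, Finset.card_univ, Fintype.card_fin, h1 i, one_smul]

theorem thm_Vd : St_Vd := by
  intro L _ _ n A κ _ ℓ μ b hJ
  have hsum : ∑ i, ℓ i = n := by
    have h1 := Module.finrank_eq_card_basis b
    rw [Module.finrank_fin_fun, Fintype.card_sigma] at h1
    simp only [Fintype.card_fin] at h1
    exact h1.symm
  have hcard : Fintype.card κ ≤ n := by
    rw [← hsum, Fintype.card_eq_sum_ones]
    exact Finset.sum_le_sum fun i _ => hJ.1 i
  have him : (Finset.univ.image μ).card ≤ Fintype.card κ := Finset.card_image_le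
  refine ⟨him.trans hcard, fun hn => ?_⟩
  have hk : Fintype.card κ = n := le_antisymm hcard (hn ▸ him)
  have h1 : ∀ i, ℓ i = 1 := by
    have h2 : ∑ i : κ, 1 = ∑ i, ℓ i := by rw [hsum, ← hk, Fintype.card_eq_sum_ones]
    have h3 := (Finset.sum_eq_sum_iff_of_le fun i _ => hJ.1 i).1 h2
    exact fun i => (h3 i (Finset.mem_univ i)).symm
  have hinj : Function.Injective μ := by
    have h2 : (Finset.univ.image μ).card = (Finset.univ : Finset κ).card := by
      rw [hn, Finset.card_univ, hk]
    have h3 := Finset.card_image_iff.1 h2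
    exact fun x y h => h3 (Finset.mem_coe.2 (Finset.mem_univ x)) (Finset.mem_coe.2 (Finset.mem_univ y)) h
  have e : Fin n ≃ κ := (Fintype.equivFinOfCardEq hk).symm
  have hG : (Matrix.of fun a b : Fin n => (A ^ ((a : ℕ) + b)).trace) =
      (Matrix.vandermonde (μ ∘ e))ᵀ * Matrix.vandermonde (μ ∘ e) := by
    ext a c
    rw [Matrix.of_apply, vd_trace A ℓ μ b hJ h1, Matrix.mul_apply, ← Equiv.sum_comp e]
    refine Finset.sum_congr rfl fun i _ => ?_
    rw [Matrix.transpose_apply, Matrix.vandermonde_apply, Matrix.vandermonde_apply, ← pow_add]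
    rfl
  unfold dsc
  rw [hG, Matrix.det_mul, Matrix.det_transpose]
  have h4 := Matrix.det_vandermonde_ne_zero_iff.2 (hinj.comp e.injective)
  exact mul_ne_zero h4 h4

end Pool.Agent.ACV
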