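import Pool.Agent.ACV.St

/-!
# ACV, module Xi: derivations and a Jordan basis
-/

set_option autoImplicit false

namespace Pool.Agent.ACV

open Matrix

section

variable {k : Type} [Field k] {L : Type} [Field L] [Algebra k L] {n : ℕ}

/-- the derivation on vectors -/
def xi_D (δ : Derivation k L L) (v : Fin n → L) : Fin n → L := fun i => δ (v i)

theorem xi_D_add (δ : Derivation k L L) (v w : Fin n → L) : xi_D δ (v + w) = xi_D δ v + xi_D δ w := by
  funext i
  simp [xi_D]

theorem xi_D_smul (δ : Derivation k L L) (c : L) (v : Fin n → L) :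
    xi_D δ (c • v) = δ c • v + c • xi_D δ v := by
  funext i
  simp only [xi_D, Pi.smul_apply, smul_eq_mul, Pi.add_apply, Derivation.leibniz]
  ring

theorem xi_D_sum (δ : Derivation k L L) {ι : Type} (s : Finset ι) (f : ι → Fin n → L) :
    xi_D δ (∑ i ∈ s, f i) = ∑ i ∈ s, xi_D δ (f i) := by
  funext j
  simp [xi_D, Finset.sum_apply, map_sum]

theorem xi_D_dot (δ : Derivation k L L) (v w : Fin n → L) :
    δ (v ⬝ᵥ w) = xi_D δ v ⬝ᵥ w + v ⬝ᵥ xi_D δ w := by
  simp only [dotProduct, map_sum, Derivation.leibniz, smul_eq_mul, xi_D, ← Finset.sum_add_distrib]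
  refine Finset.sum_congr rfl fun i _ => ?_
  ring

theorem xi_D_mulVec (δ : Derivation k L L) (M : Matrix (Fin n) (Fin n) L) (v : Fin n → L) :
    xi_D δ (M *ᵥ v) = (M.map δ) *ᵥ v + M *ᵥ xi_D δ v := by
  funext i
  have h1 := xi_D_dot δ (fun j => M i j) v
  exact h1

end

theorem thm_Xi (hStb : St_Stb) : St_Xi := by
  intro k _ L _ _ _ n A κ _ ℓ μ b hJ
  let P : L → Matrix (Fin n) (Fin n) L := fun c =>
    LinearMap.toMatrix' (b.constr L (fun x => if μ x.1 = c then b x else 0))
  have hP : ∀ c x, P c *ᵥ b x = if μ x.1 = c then b x else 0 := by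
    intro c x
    have h1 : P c *ᵥ b x = Matrix.toLin' (P c) (b x) := (Matrix.toLin'_apply _ _).symm
    rw [h1, Matrix.toLin'_toMatrix', Module.Basis.constr_basis]
  refine ⟨Submodule.span L (((Finset.univ.image μ).image P : Finset _) :
    Set (Matrix (Fin n) (Fin n) L)), ?_, ?_⟩
  · exact (finrank_span_finset_le_card _).trans Finset.card_image_le
  · intro δ
    let ξ : Matrix (Fin n) (Fin n) L :=
      LinearMap.toMatrix' (b.constr L (fun x => xi_D δ (b x)))
    have hξ : ∀ x, ξ *ᵥ b x = xi_D δ (b x) := by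
      intro x
      have h1 : ξ *ᵥ b x = Matrix.toLin' ξ (b x) := (Matrix.toLin'_apply _ _).symm
      rw [h1, Matrix.toLin'_toMatrix', Module.Basis.constr_basis]
    refine ⟨ξ, ?_, ?_⟩
    · have h1 : A.map δ - (ξ * A - A * ξ) = ∑ c ∈ Finset.univ.image μ, δ c • P c := by
        apply Matrix.toLin'.injective
        refine b.ext fun x => ?_
        rw [Matrix.toLin'_apply, Matrix.toLin'_apply, Matrix.sub_mulVec, Matrix.sub_mulVec,
          ← Matrix.mulVec_mulVec, ← Matrix.mulVec_mulVec, hξ, Matrix.sum_mulVec]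
        have h2 : ∀ c ∈ Finset.univ.image μ, (δ c • P c) *ᵥ b x =
            if μ x.1 = c then δ c • b x else 0 := by
          intro c _
          rw [Matrix.smul_mulVec, hP, smul_ite, smul_zero]
        rw [Finset.sum_congr rfl h2, Finset.sum_ite_eq, if_pos
          (Finset.mem_image_of_mem μ (Finset.mem_univ _))]
        have h3 : A.map δ *ᵥ b x = xi_D δ (A *ᵥ b x) - A *ᵥ xi_D δ (b x) := by
          rw [xi_D_mulVec, add_sub_cancel_right]
        rw [h3]
        have h4 : xi_D δ (A *ᵥ b x) - ξ *ᵥ (A *ᵥ b x) = δ (μ x.1) • b x := by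
          obtain ⟨i, a⟩ := x
          rw [hJ.2 i a, xi_D_add, Matrix.mulVec_add, xi_D_smul, Matrix.mulVec_smul, hξ]
          split_ifs with h
          · rw [hξ]
            abel
          · have h5 : xi_D δ (0 : Fin n → L) = 0 := by
              funext i
              simp [xi_D]
            rw [h5, Matrix.mulVec_zero]
            abel
        rw [← h4]
        abel
      rw [h1]
      refine Submodule.sum_mem _ fun c hc => Submodule.smul_mem _ _ (Submodule.subset_span ?_)
      exact Finset.mem_coe.mpr (Finset.mem_image_of_mem P hc)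
    · intro E hE
      have hv : ∀ v ∈ E, xi_D δ v - ξ *ᵥ v ∈ E := by
        intro v hv
        have h1 : v = ∑ x, b.repr v x • b x := (b.sum_repr v).symm
        have h2 : xi_D δ v - ξ *ᵥ v = ∑ x, δ (b.repr v x) • b x := by
          conv_lhs => rw [h1]
          rw [xi_D_sum, Matrix.mulVec_sum, ← Finset.sum_sub_distrib]
          refine Finset.sum_congr rfl fun x _ => ?_
          rw [xi_D_smul, Matrix.mulVec_smul, hξ, add_sub_cancel_right]
        rw [h2]
        refine Submodule.sum_mem _ fun x _ => ?_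
        by_cases hx : b.repr v x = 0
        · rw [hx, map_zero, zero_smul]
          exact Submodule.zero_mem _
        · exact Submodule.smul_mem _ _ (hStb L n A κ ℓ μ b hJ E hE v hv x hx)
      refine ⟨hv, ?_⟩
      intro j hj w hw
      have h1 : (xi_D δ j + j ᵥ* ξ) ⬝ᵥ w = 0 := by
        have h2 := hj _ (hv w hw)
        have h3 := xi_D_dot δ j w
        rw [hj w hw, map_zero] at h3
        rw [dotProduct_sub, sub_eq_zero] at h2
        rw [add_dotProduct, ← dotProduct_mulVec, ← h2]
        exact h3.symm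
      exact h1

end Pool.Agent.ACV
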