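import Pool.Agent.CTR.Spl
import Pool.Agent.ACV.Der
import Pool.Agent.ACV.JBx
import Pool.Agent.ACV.Stb
import Pool.Agent.ACV.Xi
import Pool.Agent.ACV.TA
import Pool.Agent.ACV.Vd
import Pool.Agent.ACV.Dm
import Pool.Agent.ACV.Ass
import Pool.Agent.ACV.CMl
import Pool.Agent.ACV.CI
import Pool.Agent.ACV.NZ
import Pool.Agent.ACV.Dsc
import Pool.Agent.ACV.Dg
import Pool.Agent.ACV.Tor
import Pool.Agent.ACV.Eqv
import Pool.Agent.ACV.Fin

/-!
# ACV: assembly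
-/

set_option autoImplicit false

namespace Pool.Agent.ACV

theorem all_Dm : St_Dm := thm_Dm thm_Der thm_JBx (thm_TA (thm_Xi thm_Stb)) thm_Vd

theorem all_NZ : St_NZ := thm_NZ (thm_CI (thm_CMl thm_Ass)) all_Dm

theorem all_Fin : St_Fin := thm_Fin Pool.Agent.CTR.thm_Spl all_NZ thm_Dsc thm_Dg thm_Tor thm_Eqv

end Pool.Agent.ACV
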