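import Mathlib

/-!
# ACV: definitions

Invariants of a commuting pair of matrices, one vector and several covectors (MP_c67a3f_ag); the almost
commuting scheme `[x, y] + v j = 0`.
-/

set_option autoImplicit false

noncomputable section

namespace Pool.Agent.ACV

open Matrix

/-! ### pairs of matrices, one vector, `r` covectors -/

/-- The variables: `inl (0, i, j)` is `x_ij`, `inl (1, i, j)` is `y_ij`, `inr (inl i)` is `v_i`, `inr (inr (s, i))` is the
`i`-th coordinate of the covector `ξ_s`. -/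
abbrev Vg (n r : ℕ) := (Fin 2 × Fin n × Fin n) ⊕ (Fin n ⊕ (Fin r × Fin n))

/-- The value at two matrices `A`, `B`, a vector `v` and covectors `ξ_s`. -/
def evg {n r : ℕ} {R : Type} [CommRing R] [Algebra ℂ R] (A B : Matrix (Fin n) (Fin n) R)
    (v : Fin n → R) (ξ : Fin r → Fin n → R) : MvPolynomial (Vg n r) ℂ →ₐ[ℂ] R :=
  MvPolynomial.aeval (Sum.elim (fun t => if t.1 = 0 then A t.2.1 t.2.2 else B t.2.1 t.2.2)
    (Sum.elim v fun t => ξ t.1 t.2))

/-- The ideal generated by the entries of `x y - y x`. -/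
def comE (n r : ℕ) : Ideal (MvPolynomial (Vg n r) ℂ) :=
  Ideal.span {f | ∃ i j, f = ((Matrix.of fun a b => MvPolynomial.X (Sum.inl (0, a, b))) *
      (Matrix.of fun a b => MvPolynomial.X (Sum.inl (1, a, b))) -
    (Matrix.of fun a b => MvPolynomial.X (Sum.inl (1, a, b))) *
      (Matrix.of fun a b => MvPolynomial.X (Sum.inl (0, a, b))) :
      Matrix (Fin n) (Fin n) (MvPolynomial (Vg n r) ℂ)) i j}

/-- Invariance under the general linear group. -/
def Inv {n r : ℕ} (f : MvPolynomial (Vg n r) ℂ) : Prop :=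
  ∀ (g : (Matrix (Fin n) (Fin n) ℂ)ˣ) (A B : Matrix (Fin n) (Fin n) ℂ) (v : Fin n → ℂ)
    (ξ : Fin r → Fin n → ℂ),
    evg (g.val * A * (g⁻¹ : (Matrix (Fin n) (Fin n) ℂ)ˣ).val)
      (g.val * B * (g⁻¹ : (Matrix (Fin n) (Fin n) ℂ)ˣ).val) (g.val *ᵥ v)
      (fun s => ξ s ᵥ* (g⁻¹ : (Matrix (Fin n) (Fin n) ℂ)ˣ).val) f = evg A B v ξ f

/-- The polynomial vanishes whenever the two matrices commute. -/
def Van {n r : ℕ} (f : MvPolynomial (Vg n r) ℂ) : Prop :=
  ∀ (A B : Matrix (Fin n) (Fin n) ℂ) (v : Fin n → ℂ) (ξ : Fin r → Fin n → ℂ),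
    A * B = B * A → evg A B v ξ f = 0

/-! ### the almost commuting scheme -/

/-- The variables: `inl (0, i, j)` is `x_ij`, `inl (1, i, j)` is `y_ij`, `inr (0, i)` is `v_i`, `inr (1, i)` is `j_i`. -/
abbrev Sg (n : ℕ) := (Fin 2 × Fin n × Fin n) ⊕ (Fin 2 × Fin n)

/-- The ring of polynomials. -/
abbrev RS (k : Type) [CommRing k] (n : ℕ) := MvPolynomial (Sg n) k

/-- The matrix `x`. -/
def sX (k : Type) [CommRing k] (n : ℕ) : Matrix (Fin n) (Fin n) (RS k n) :=
  fun i j => MvPolynomial.X (Sum.inl (0, i, j))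

/-- The matrix `y`. -/
def sY (k : Type) [CommRing k] (n : ℕ) : Matrix (Fin n) (Fin n) (RS k n) :=
  fun i j => MvPolynomial.X (Sum.inl (1, i, j))

/-- The vector `v`. -/
def sv (k : Type) [CommRing k] (n : ℕ) : Fin n → RS k n := fun i => MvPolynomial.X (Sum.inr (0, i))

/-- The covector `j`. -/
def sj (k : Type) [CommRing k] (n : ℕ) : Fin n → RS k n := fun i => MvPolynomial.X (Sum.inr (1, i))

/-- The entries of `x y - y x + v j`. -/
def eqn (k : Type) [CommRing k] (n : ℕ) (t : Fin n × Fin n) : RS k n :=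
  (sX k n * sY k n - sY k n * sX k n + vecMulVec (sv k n) (sj k n)) t.1 t.2

/-- The ideal of the almost commuting scheme. -/
def IJ (k : Type) [CommRing k] (n : ℕ) : Ideal (RS k n) := Ideal.span (Set.range (eqn k n))

/-- The Gram determinant of the powers of a matrix for the trace form (the discriminant of the characteristic
polynomial). -/
def dsc {R : Type} [CommRing R] {n : ℕ} (A : Matrix (Fin n) (Fin n) R) : R :=
  (Matrix.of fun a b : Fin n => (A ^ ((a : ℕ) + b)).trace).det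

/-- The coordinates of a quadruple. -/
def co {R : Type} {n : ℕ} (A B : Matrix (Fin n) (Fin n) R) (v j : Fin n → R) : Sg n → R :=
  Sum.elim (fun t => if t.1 = 0 then A t.2.1 t.2.2 else B t.2.1 t.2.2)
    (fun t => if t.1 = 0 then v t.2 else j t.2)

/-- A Jordan basis: `A b_(i,a) = μ_i b_(i,a) + b_(i,a+1)`, where `b_(i,a) = 0` for `a = ℓ_i > 0`. -/
def JB {L : Type} [Field L] {n : ℕ} (A : Matrix (Fin n) (Fin n) L) {κ : Type} (ℓ : κ → ℕ)
    (μ : κ → L) (b : Module.Basis (Σ i : κ, Fin (ℓ i)) L (Fin n → L)) : Prop :=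
  (∀ i, 0 < ℓ i) ∧ ∀ (i : κ) (a : Fin (ℓ i)), A *ᵥ b ⟨i, a⟩ = μ i • b ⟨i, a⟩ +
    (if h : (a : ℕ) + 1 < ℓ i then b ⟨i, ⟨a + 1, h⟩⟩ else 0)

/-- Subspaces stable under all matrices which commute with `A`. -/
def Stab {L : Type} [Field L] {n : ℕ} (A : Matrix (Fin n) (Fin n) L)
    (E : Submodule L (Fin n → L)) : Prop :=
  ∀ Z : Matrix (Fin n) (Fin n) L, Z * A = A * Z → ∀ w ∈ E, Z *ᵥ w ∈ E

end Pool.Agent.ACV
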