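import Mathlib

/-!
# Invariants of commuting pairs of traceless matrices, vectors and covectors: definitions
-/

set_option autoImplicit false

noncomputable section

namespace Pool.Agent.ACV.OV

open Matrix

/-- The coordinates of two matrices of size `n`, `p` vectors and `r` covectors: `inl (0, i, j)` is the entry `x_ij` of
the first matrix, `inl (1, i, j)` the entry `y_ij` of the second one, `inr (inl (s, i))` the `i`-th coordinate of the
`s`-th vector, `inr (inr (s, i))` that of the `s`-th covector. -/
abbrev Var (n p r : ℕ) : Type := (Fin 2 × Fin n × Fin n) ⊕ ((Fin p × Fin n) ⊕ (Fin r × Fin n))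

/-- The polynomial functions of two matrices, `p` vectors and `r` covectors. -/
abbrev Poly (n p r : ℕ) : Type := MvPolynomial (Var n p r) ℂ

/-- Two matrices `A`, `B`, `p` vectors `v_s` and `r` covectors `ξ_s` (complex numbers). -/
structure Point (n p r : ℕ) where
  A : Matrix (Fin n) (Fin n) ℂ
  B : Matrix (Fin n) (Fin n) ℂ
  v : Fin p → Fin n → ℂ
  ξ : Fin r → Fin n → ℂ

variable {n p r : ℕ}

/-- The coordinates of a point. -/
def Point.coord (P : Point n p r) : Var n p r → ℂ :=
  Sum.elim (fun t => if t.1 = 0 then P.A t.2.1 t.2.2 else P.B t.2.1 t.2.2)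
    (Sum.elim (fun t => P.v t.1 t.2) (fun t => P.ξ t.1 t.2))

/-- The action of an invertible matrix `g`: `(g A g⁻¹, g B g⁻¹, g v_s, ξ_s g⁻¹)`. -/
def Point.act (g : (Matrix (Fin n) (Fin n) ℂ)ˣ) (P : Point n p r) : Point n p r where
  A := g.val * P.A * g.inv
  B := g.val * P.B * g.inv
  v := fun s => g.val *ᵥ P.v s
  ξ := fun s => P.ξ s ᵥ* g.inv

/-- The value of a polynomial at a point. -/
def value (f : Poly n p r) (P : Point n p r) : ℂ := MvPolynomial.eval P.coord f

/-- Invariance under the general linear group. -/
def Invariant (f : Poly n p r) : Prop :=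
  ∀ (g : (Matrix (Fin n) (Fin n) ℂ)ˣ) (P : Point n p r), value f (P.act g) = value f P

/-- The two matrices commute and have trace zero. -/
def Point.Comm (P : Point n p r) : Prop := P.A * P.B = P.B * P.A ∧ P.A.trace = 0 ∧ P.B.trace = 0

/-- The first matrix, with indeterminate entries. -/
def x (n p r : ℕ) : Matrix (Fin n) (Fin n) (Poly n p r) := fun i j => MvPolynomial.X (Sum.inl (0, i, j))

/-- The second matrix, with indeterminate entries. -/
def y (n p r : ℕ) : Matrix (Fin n) (Fin n) (Poly n p r) := fun i j => MvPolynomial.X (Sum.inl (1, i, j))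

/-- The ideal generated by the entries of `x y - y x`. -/
def idealGl (n p r : ℕ) : Ideal (Poly n p r) :=
  Ideal.span {f | ∃ i j, f = (x n p r * y n p r - y n p r * x n p r) i j}

/-- The ideal generated by the entries of `x y - y x` and the traces of `x` and `y`, that is, the ideal of
`C(sl_n) × V^p × (V*)^r`, where `C(sl_n)` is the commuting scheme of `sl_n` and `V = ℂ^n`. -/
def idealSl (n p r : ℕ) : Ideal (Poly n p r) :=
  idealGl n p r ⊔ Ideal.span {(x n p r).trace, (y n p r).trace}

end Pool.Agent.ACV.OV
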