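import Pool.Agent.ACV.All
import Pool.Agent.ACV.OVDefs

/-!
# Invariants of commuting pairs of traceless matrices, vectors and covectors: proof
-/

set_option autoImplicit false

noncomputable section

namespace Pool.Agent.ACV.OV

open Matrix

variable {n p r : ℕ}

/-! ### the two changes of variables -/

open Pool.Agent.ACV in
theorem comE_map {m : ℕ} (F : MvPolynomial (Vg n m) ℂ →ₐ[ℂ] Poly n p r) (e : Fin n → Fin n → Poly n p r)
    (e' : Fin n → Fin n → Poly n p r) (he : ∀ i j, F (MvPolynomial.X (Sum.inl (0, i, j))) = e i j)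
    (he' : ∀ i j, F (MvPolynomial.X (Sum.inl (1, i, j))) = e' i j) (I : Ideal (Poly n p r))
    (hI : ∀ i j, (Matrix.of e * Matrix.of e' - Matrix.of e' * Matrix.of e) i j ∈ I)
    (f : MvPolynomial (Vg n m) ℂ) (hf : f ∈ comE n m) : F f ∈ I := by
  have h : comE n m ≤ I.comap F := by
    unfold comE
    rw [Ideal.span_le]
    rintro g ⟨i, j, rfl⟩
    rw [SetLike.mem_coe, Ideal.mem_comap]
    have h1 := hI i j
    simp only [Matrix.sub_apply, Matrix.mul_apply, Matrix.of_apply] at h1 ⊢
    simpa only [map_sub, map_sum, map_mul, he, he'] using h1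
  exact h hf

/-- `v_s ↦ v`. -/
def phi (n p r : ℕ) : Poly n p r →ₐ[ℂ] MvPolynomial (Pool.Agent.ACV.Vg n r) ℂ :=
  MvPolynomial.aeval (Sum.elim (fun t => MvPolynomial.X (Sum.inl t))
    (Sum.elim (fun t => MvPolynomial.X (Sum.inr (Sum.inl t.2)))
      (fun t => MvPolynomial.X (Sum.inr (Sum.inr t)))))

/-- `v ↦ v_0`. -/
def psi (n p r : ℕ) : MvPolynomial (Pool.Agent.ACV.Vg n r) ℂ →ₐ[ℂ] Poly n p r :=
  MvPolynomial.aeval (Sum.elim (fun t => MvPolynomial.X (Sum.inl t))
    (Sum.elim (fun i => if h : 0 < p then MvPolynomial.X (Sum.inr (Sum.inl (⟨0, h⟩, i))) else 0)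
      (fun t => MvPolynomial.X (Sum.inr (Sum.inr t)))))

/-- The transposed form of `phi`. -/
def phiT (n p r : ℕ) : Poly n p r →ₐ[ℂ] MvPolynomial (Pool.Agent.ACV.Vg n p) ℂ :=
  MvPolynomial.aeval (Sum.elim (fun t => MvPolynomial.X (Sum.inl (t.1, t.2.2, t.2.1)))
    (Sum.elim (fun t => MvPolynomial.X (Sum.inr (Sum.inr t)))
      (fun t => MvPolynomial.X (Sum.inr (Sum.inl t.2)))))

/-- The transposed form of `psi`. -/
def psiT (n p r : ℕ) : MvPolynomial (Pool.Agent.ACV.Vg n p) ℂ →ₐ[ℂ] Poly n p r :=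
  MvPolynomial.aeval (Sum.elim (fun t => MvPolynomial.X (Sum.inl (t.1, t.2.2, t.2.1)))
    (Sum.elim (fun i => if h : 0 < r then MvPolynomial.X (Sum.inr (Sum.inr (⟨0, h⟩, i))) else 0)
      (fun t => MvPolynomial.X (Sum.inr (Sum.inl t)))))

theorem psi_phi (hp : p ≤ 1) (f : Poly n p r) : psi n p r (phi n p r f) = f := by
  have h : (psi n p r).comp (phi n p r) = AlgHom.id ℂ _ := by
    apply MvPolynomial.algHom_ext
    rintro (t | t | t)
    · simp [psi, phi]
    · have h0 : 0 < p := lt_of_le_of_lt (Nat.zero_le _) t.1.2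
      have h1 : (⟨0, h0⟩ : Fin p) = t.1 := Fin.ext (by have := t.1.2; simp; omega)
      simp [psi, phi, h0, h1]
    · simp [psi, phi]
  exact DFunLike.congr_fun h f

theorem psiT_phiT (hr : r ≤ 1) (f : Poly n p r) : psiT n p r (phiT n p r f) = f := by
  have h : (psiT n p r).comp (phiT n p r) = AlgHom.id ℂ _ := by
    apply MvPolynomial.algHom_ext
    rintro (t | t | t)
    · simp [psiT, phiT]
    · simp [psiT, phiT]
    · have h0 : 0 < r := lt_of_le_of_lt (Nat.zero_le _) t.1.2
      have h1 : (⟨0, h0⟩ : Fin r) = t.1 := Fin.ext (by have := t.1.2; simp; omega)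
      simp [psiT, phiT, h0, h1]
  exact DFunLike.congr_fun h f

theorem evg_phi (f : Poly n p r) (A B : Matrix (Fin n) (Fin n) ℂ) (v : Fin n → ℂ)
    (ξ : Fin r → Fin n → ℂ) :
    Pool.Agent.ACV.evg A B v ξ (phi n p r f) = value f ⟨A, B, fun _ => v, ξ⟩ := by
  have h : (Pool.Agent.ACV.evg A B v ξ).comp (phi n p r) =
      MvPolynomial.aeval (Point.coord (⟨A, B, fun _ => v, ξ⟩ : Point n p r)) := by
    apply MvPolynomial.algHom_ext
    rintro (t | t | t) <;> simp [Pool.Agent.ACV.evg, phi, Point.coord]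
  have h1 := DFunLike.congr_fun h f
  rw [AlgHom.comp_apply] at h1
  rw [h1]
  rfl

theorem evg_phiT (f : Poly n p r) (A B : Matrix (Fin n) (Fin n) ℂ) (v : Fin n → ℂ)
    (ξ : Fin p → Fin n → ℂ) :
    Pool.Agent.ACV.evg A B v ξ (phiT n p r f) = value f ⟨A.transpose, B.transpose, ξ, fun _ => v⟩ := by
  have h : (Pool.Agent.ACV.evg A B v ξ).comp (phiT n p r) =
      MvPolynomial.aeval (Point.coord (⟨A.transpose, B.transpose, ξ, fun _ => v⟩ : Point n p r)) := by
    apply MvPolynomial.algHom_ext
    rintro (t | t | t) <;> simp [Pool.Agent.ACV.evg, phiT, Point.coord]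
  have h1 := DFunLike.congr_fun h f
  rw [AlgHom.comp_apply] at h1
  rw [h1]
  rfl

/-- The theorem for all pairs of matrices. -/
theorem glCase (h : p ≤ 1 ∨ r ≤ 1) (f : Poly n p r) (hf : Invariant f)
    (hv : ∀ P : Point n p r, P.A * P.B = P.B * P.A → value f P = 0) :
    f ∈ idealGl n p r := by
  rcases h with h | h
  · have h1 : Pool.Agent.ACV.Inv (phi n p r f) := fun g A B v ξ => by
      rw [evg_phi, evg_phi]
      exact hf g ⟨A, B, fun _ => v, ξ⟩
    have h2 : Pool.Agent.ACV.Van (phi n p r f) := fun A B v ξ hAB => by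
      rw [evg_phi]
      exact hv _ hAB
    have h3 := Pool.Agent.ACV.all_Fin n r _ h1 h2
    rw [← psi_phi h f]
    refine comE_map (psi n p r) (x n p r) (y n p r) (fun i j => by simp [psi, x])
      (fun i j => by simp [psi, y]) (idealGl n p r) (fun i j => Ideal.subset_span ⟨i, j, rfl⟩) _ h3
  · have h1 : Pool.Agent.ACV.Inv (phiT n p r f) := fun g A B v ξ => by
      rw [evg_phiT, evg_phiT]
      have h4 : g.inv.transpose * g.val.transpose = 1 := by
        rw [← Matrix.transpose_mul, g.val_inv, Matrix.transpose_one]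
      have h5 : g.val.transpose * g.inv.transpose = 1 := by
        rw [← Matrix.transpose_mul, g.inv_val, Matrix.transpose_one]
      have h6 := hf ⟨g.inv.transpose, g.val.transpose, h4, h5⟩
        ⟨A.transpose, B.transpose, ξ, fun _ => v⟩
      rw [← h6]
      congr 1
      simp only [Point.act, Point.mk.injEq]
      refine ⟨?_, ?_, ?_, ?_⟩
      · rw [Matrix.transpose_mul, Matrix.transpose_mul, Matrix.mul_assoc]
        rfl
      · rw [Matrix.transpose_mul, Matrix.transpose_mul, Matrix.mul_assoc]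
        rfl
      · funext s
        rw [Matrix.mulVec_transpose]
        rfl
      · funext s
        rw [Matrix.vecMul_transpose]
    have h2 : Pool.Agent.ACV.Van (phiT n p r f) := fun A B v ξ hAB => by
      rw [evg_phiT]
      refine hv _ ?_
      simp only
      rw [← Matrix.transpose_mul, ← Matrix.transpose_mul, hAB]
    have h3 := Pool.Agent.ACV.all_Fin n p _ h1 h2
    rw [← psiT_phiT h f]
    refine comE_map (psiT n p r) (fun i j => x n p r j i) (fun i j => y n p r j i)
      (fun i j => by simp [psiT, x]) (fun i j => by simp [psiT, y]) (idealGl n p r) (fun i j => ?_) _ h3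
    have h7 : (Matrix.of (fun i j => x n p r j i) * Matrix.of (fun i j => y n p r j i) -
        Matrix.of (fun i j => y n p r j i) * Matrix.of (fun i j => x n p r j i)) i j =
        -((x n p r * y n p r - y n p r * x n p r) j i) := by
      simp only [Matrix.sub_apply, Matrix.mul_apply, Matrix.of_apply, neg_sub]
      congr 1 <;> exact Finset.sum_congr rfl fun k _ => mul_comm _ _
    rw [h7]
    exact (Ideal.neg_mem_iff _).2 (Ideal.subset_span ⟨j, i, rfl⟩)

/-! ### traceless matrices -/

/-- The traceless part of a matrix of polynomials. -/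
def tl (Z : Matrix (Fin n) (Fin n) (Poly n p r)) : Matrix (Fin n) (Fin n) (Poly n p r) :=
  fun i j => Z i j - if i = j then MvPolynomial.C ((n : ℂ)⁻¹) * Z.trace else 0

/-- The traceless part of a complex matrix. -/
def tc (Z : Matrix (Fin n) (Fin n) ℂ) : Matrix (Fin n) (Fin n) ℂ :=
  fun i j => Z i j - if i = j then (n : ℂ)⁻¹ * Z.trace else 0

theorem tc_eq (Z : Matrix (Fin n) (Fin n) ℂ) : tc Z = Z - ((n : ℂ)⁻¹ * Z.trace) • 1 := by
  ext i j
  simp only [tc, Matrix.sub_apply, Matrix.smul_apply, Matrix.one_apply, smul_eq_mul]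
  split_ifs <;> simp

theorem tc_trace (Z : Matrix (Fin n) (Fin n) ℂ) : (tc Z).trace = 0 := by
  rw [tc_eq, Matrix.trace_sub, Matrix.trace_smul, Matrix.trace_one, Fintype.card_fin]
  rcases Nat.eq_zero_or_pos n with h | h
  · subst h
    simp [Matrix.trace]
  · have h1 : (n : ℂ) ≠ 0 := by exact_mod_cast h.ne'
    rw [smul_eq_mul]
    field_simp
    ring

theorem tc_comm (A B : Matrix (Fin n) (Fin n) ℂ) (h : A * B = B * A) :
    tc A * tc B = tc B * tc A := by
  rw [tc_eq, tc_eq]
  have h1 : Commute A B := h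
  have h2 : ∀ (Z : Matrix (Fin n) (Fin n) ℂ) (c : ℂ), Commute Z (c • 1) := fun Z c =>
    (Commute.one_right Z).smul_right c
  exact ((h1.sub_right (h2 A _)).sub_left ((h2 _ _).symm)).eq

/-- The substitution `x ↦ x - tr x / n`, `y ↦ y - tr y / n`. -/
def pr (n p r : ℕ) : Poly n p r →ₐ[ℂ] Poly n p r :=
  MvPolynomial.aeval (Sum.elim
    (fun t => if t.1 = 0 then tl (x n p r) t.2.1 t.2.2 else tl (y n p r) t.2.1 t.2.2)
    (fun t => MvPolynomial.X (Sum.inr t)))

/-- The point with the traceless parts of the matrices. -/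
def Point.tc (P : Point n p r) : Point n p r := ⟨OV.tc P.A, OV.tc P.B, P.v, P.ξ⟩

theorem value_pr (f : Poly n p r) (P : Point n p r) : value (pr n p r f) P = value f P.tc := by
  have h : (MvPolynomial.aeval P.coord : Poly n p r →ₐ[ℂ] ℂ).comp (pr n p r) =
      MvPolynomial.aeval P.tc.coord := by
    apply MvPolynomial.algHom_ext
    rintro (⟨c, i, j⟩ | t | t)
    · have hc : c = 0 ∨ c = 1 := by
        fin_cases c <;> simp
      rcases hc with rfl | rfl
      · simp only [AlgHom.comp_apply, pr, MvPolynomial.aeval_X, Sum.elim_inl, if_true, tl, map_sub,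
          Point.coord, Point.tc, OV.tc, x]
        congr 1
        split_ifs
        · simp [Matrix.trace, x]
        · simp
      · simp only [AlgHom.comp_apply, pr, MvPolynomial.aeval_X, Sum.elim_inl, one_ne_zero, if_false,
          tl, map_sub, Point.coord, Point.tc, OV.tc, y]
        congr 1
        split_ifs
        · simp [Matrix.trace, y]
        · simp
    · simp [pr, Point.coord, Point.tc]
    · simp [pr, Point.coord, Point.tc]
  have h1 := DFunLike.congr_fun h f
  rw [AlgHom.comp_apply] at h1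
  exact h1

theorem pr_sub (f : Poly n p r) : pr n p r f - f ∈ idealSl n p r := by
  set T : Ideal (Poly n p r) := Ideal.span {(x n p r).trace, (y n p r).trace} with hT
  have hX : (x n p r).trace ∈ T := Ideal.subset_span (by simp)
  have hY : (y n p r).trace ∈ T := Ideal.subset_span (by simp)
  have h : (Ideal.Quotient.mkₐ ℂ T).comp (pr n p r) = Ideal.Quotient.mkₐ ℂ T := by
    apply MvPolynomial.algHom_ext
    have h2 : ∀ (Z : Matrix (Fin n) (Fin n) (Poly n p r)) (i j : Fin n), Z.trace ∈ T →
        tl Z i j - Z i j ∈ T := by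
      intro Z i j hZ
      have h3 : tl Z i j - Z i j = -(if i = j then MvPolynomial.C ((n : ℂ)⁻¹) * Z.trace else 0) := by
        simp only [tl]
        ring
      rw [h3]
      split_ifs
      · exact T.neg_mem (T.mul_mem_left _ hZ)
      · simp
    rintro (⟨c, i, j⟩ | t)
    · rw [AlgHom.comp_apply, Ideal.Quotient.mkₐ_eq_mk, Ideal.Quotient.eq]
      have hc : c = 0 ∨ c = 1 := by
        fin_cases c <;> simp
      rcases hc with rfl | rfl
      · simpa [pr, x] using h2 (x n p r) i j hX
      · simpa [pr, y] using h2 (y n p r) i j hY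
    · rw [AlgHom.comp_apply]
      simp [pr]
  have h3 : pr n p r f - f ∈ T := by
    rw [← Ideal.Quotient.eq]
    exact DFunLike.congr_fun h f
  exact (le_sup_right : T ≤ idealSl n p r) h3

theorem tc_conj (g : (Matrix (Fin n) (Fin n) ℂ)ˣ) (Z : Matrix (Fin n) (Fin n) ℂ) :
    tc (g.val * Z * g.inv) = g.val * tc Z * g.inv := by
  have h1 : (g.val * Z * g.inv).trace = Z.trace := by
    rw [Matrix.trace_mul_comm, ← Matrix.mul_assoc, g.inv_val, Matrix.one_mul]
  rw [tc_eq, tc_eq, h1, mul_sub, sub_mul, mul_smul_comm, smul_mul_assoc, mul_one, g.val_inv]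

/-- Let `f` be a polynomial in the entries of two traceless matrices `x`, `y` of size `n`, the coordinates of `p` vectors
and those of `r` covectors, where `p ≤ 1` or `r ≤ 1`. If `f` is invariant under `GL_n` and vanishes whenever `x` and `y`
commute, then `f` is in the ideal generated by the entries of `x y - y x` (and the traces of `x`, `y`). -/
theorem main (n p r : ℕ) (h : p ≤ 1 ∨ r ≤ 1) (f : Poly n p r) (hf : Invariant f)
    (hv : ∀ P : Point n p r, P.Comm → value f P = 0) : f ∈ idealSl n p r := by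
  have h1 : Invariant (pr n p r f) := fun g P => by
    rw [value_pr, value_pr, ← hf g P.tc]
    congr 1
    simp only [Point.tc, Point.act, tc_conj]
  have h2 : ∀ P : Point n p r, P.A * P.B = P.B * P.A → value (pr n p r f) P = 0 := fun P hP => by
    rw [value_pr]
    exact hv _ ⟨tc_comm _ _ hP, tc_trace _, tc_trace _⟩
  have h3 : pr n p r f ∈ idealSl n p r :=
    (le_sup_left : idealGl n p r ≤ idealSl n p r) (glCase h _ h1 h2)
  have h4 : f = pr n p r f - (pr n p r f - f) := by ring
  rw [h4]
  exact Ideal.sub_mem _ h3 (pr_sub f)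

end Pool.Agent.ACV.OV
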