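import Pool.Agent.ACV.Defs

/-!
# ACV: statements

THEOREM (MP_c67a3f_ag). Let `f` be a polynomial in two matrices `x`, `y` of size `n`, a vector `v` and covectors
`ξ_1, .., ξ_r` over the complex numbers, invariant under `GL_n`, which vanishes whenever `x y = y x`. Then `f` is in
the ideal generated by the entries of `x y - y x`. That is, the scheme `(C(gl_n) × V × (V*)^r) // GL_n` is reduced for all
`r`; equivalently the nilradical of the coordinate ring of the commuting scheme of `gl_n` (or `sl_n`) contains no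
irreducible representation with highest weight with exactly one negative part.

PLAN. Let `J` be generated by the `n²` entries of `x y - y x + v j` in the polynomial ring `S` in the `2 n² + 2 n`
variables `x, y, v, j`. (1) dimension: `dim S/P ≤ n² + n + m` for primes `P ⊇ J`, `m` the number of the distinct
eigenvalues of `x` at the generic point of `P` (Der, JBx, Stb, Xi, TA, Vd, Dm). (2) so `J` is a complete intersection
and the discriminant `D` of `x` is not a zero divisor modulo `J` (Ass, CMl, CI, NZ). (3) after inverting `D` and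
adjoining the eigenvalues of `x`, `x` can be diagonalized locally, and then every `f` as above vanishes: the off
diagonal entries of `y` are multiples of `v_c j_d`, and `v_c j_c = 0` (Dsc, Dg, Tor, Eqv). So `f ∈ J` extended; put `j = 0`
(Fin).
-/

set_option autoImplicit false
set_option linter.unusedVariables false

noncomputable section

namespace Pool.Agent.ACV

open Matrix

/-! ### dimension -/

/-- **Der.** Dimension and derivations.

Proof. Let `R = k[x_i] / P`. Noether normalization (`exists_finite_inj_algHom_of_fg`): `R` is finite over a polynomial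
ring `k[z_1, .., z_d]` contained in it, so `d = ringKrullDim R`. `L` is algebraic over `k(z_1, .., z_d)`, and `k` has
characteristic `0`, so the derivation `∂/∂z_l` of `k(z)` extends to a `k`-derivation `δ_l` of `L`. The vectors
`(δ_l a_i)_i`, `a_i` the image of `x_i`, are linearly independent over `L`: if `∑ c_l δ_l` kills all `a_i`, it kills
`R` and so all `z_m`, hence `c_m = 0`. They are in `T`. -/
def St_Der : Prop := ∀ (k : Type) [Field k] [CharZero k] (σ : Type) [Finite σ]
  (P : Ideal (MvPolynomial σ k)) [P.IsPrime]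
  (T : Submodule (AlgebraicClosure (FractionRing (MvPolynomial σ k ⧸ P)))
    (σ → AlgebraicClosure (FractionRing (MvPolynomial σ k ⧸ P)))),
  (∀ δ : Derivation k (AlgebraicClosure (FractionRing (MvPolynomial σ k ⧸ P)))
      (AlgebraicClosure (FractionRing (MvPolynomial σ k ⧸ P))),
    (fun i => δ (algebraMap (MvPolynomial σ k ⧸ P)
      (AlgebraicClosure (FractionRing (MvPolynomial σ k ⧸ P)))
      (Ideal.Quotient.mk P (MvPolynomial.X i)))) ∈ T) →
  ringKrullDim (MvPolynomial σ k ⧸ P) ≤
    Module.finrank (AlgebraicClosure (FractionRing (MvPolynomial σ k ⧸ P))) T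

/-- **JBx.** Every matrix over an algebraically closed field has a Jordan basis.

Proof. `L^n` is a finitely generated torsion module over `L[t]` (via `A`), so it is a direct sum of modules
`L[t] / (t - μ_i)^(ℓ_i)`, `ℓ_i > 0`; take `b_(i,a) = (t - μ_i)^a`. -/
def St_JBx : Prop := ∀ (L : Type) [Field L] [IsAlgClosed L] (n : ℕ)
  (A : Matrix (Fin n) (Fin n) L), ∃ (κ : Type) (_ : Fintype κ) (ℓ : κ → ℕ) (μ : κ → L)
  (b : Module.Basis (Σ i : κ, Fin (ℓ i)) L (Fin n → L)), JB A ℓ μ b

/-- **Stb.** Stable subspaces are spanned by vectors of the Jordan basis.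

Proof. Let `w ∈ E`, `w = ∑ c_(i,a) b_(i,a)`, `c_(i,a) ≠ 0`. The projection to the span of the `b_(i,·)` (same `i`) commutes
with `A`, so `w_i = ∑_a c_(i,a) b_(i,a) ∈ E`. Let `a_0 ≤ a` be minimal with `c_(i,a_0) ≠ 0`. `N = A - μ_i` shifts the
`b_(i,·)`, and `E` is stable under `N`. Applying `N^(ℓ_i - 1 - a_0)`, `N^(ℓ_i - 2 - a_0)`, .. to `w_i` one gets
`b_(i,ℓ_i - 1) ∈ E`, `b_(i,ℓ_i - 2) ∈ E`, .., `b_(i,a_0) ∈ E`; then `b_(i,a) = N^(a - a_0) b_(i,a_0) ∈ E`. -/
def St_Stb : Prop := ∀ (L : Type) [Field L] (n : ℕ) (A : Matrix (Fin n) (Fin n) L) (κ : Type)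
  [Fintype κ] (ℓ : κ → ℕ) (μ : κ → L) (b : Module.Basis (Σ i : κ, Fin (ℓ i)) L (Fin n → L)),
  JB A ℓ μ b → ∀ E : Submodule L (Fin n → L), Stab A E →
  ∀ w ∈ E, ∀ x, b.repr w x ≠ 0 → b x ∈ E

/-- **Xi.** Derivations and a Jordan basis.

Proof. `Pp` is the span of the matrices `p_c`, `c` in the image of `μ`, where `p_c b_(i,a) = b_(i,a)` if `μ_i = c` and `0`
otherwise. For `δ` let `ξ` be the matrix with `ξ b_x = δ b_x` (coordinatewise) for all `x`. Applying `δ` to
`A b_(i,a) = μ_i b_(i,a) + b_(i,a+1)`: `(δ A) b_(i,a) + A ξ b_(i,a) = (δ μ_i) b_(i,a) + ξ A b_(i,a)`, so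
`δ A - (ξ A - A ξ) = ∑_c (δ c) p_c`. Let `E` be stable. `v ∈ E` is a combination `∑ c_x b_x` of the `b_x ∈ E` (Stb), and
`δ v - ξ v = ∑ (δ c_x) b_x ∈ E`. If `j` vanishes on `E`: for `b_x ∈ E`, `0 = δ (j · b_x) = (δ j) · b_x + j · ξ b_x`, and the
`b_x ∈ E` span `E`. -/
def St_Xi : Prop := ∀ (k : Type) [Field k] (L : Type) [Field L] [DecidableEq L] [Algebra k L]
  (n : ℕ) (A : Matrix (Fin n) (Fin n) L) (κ : Type) [Fintype κ] (ℓ : κ → ℕ) (μ : κ → L)
  (b : Module.Basis (Σ i : κ, Fin (ℓ i)) L (Fin n → L)), JB A ℓ μ b →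
  ∃ Pp : Submodule L (Matrix (Fin n) (Fin n) L),
    Module.finrank L Pp ≤ (Finset.univ.image μ).card ∧
    ∀ δ : Derivation k L L, ∃ ξ : Matrix (Fin n) (Fin n) L,
      A.map δ - (ξ * A - A * ξ) ∈ Pp ∧
      ∀ E : Submodule L (Fin n → L), Stab A E →
        (∀ v ∈ E, (fun i => δ (v i)) - ξ *ᵥ v ∈ E) ∧
        ∀ j : Fin n → L, (∀ w ∈ E, j ⬝ᵥ w = 0) →
          ∀ w ∈ E, ((fun i => δ (j i)) + j ᵥ* ξ) ⬝ᵥ w = 0

/-- **TA.** The tangent space at the generic point.

Proof. Let `𝔷` be the space of the matrices commuting with `A`, `E = {Z v | Z ∈ 𝔷}`, a stable subspace containing `v`,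
`E' = {j' | j' vanishes on E}`, `dim E + dim E' = n`. `j ∈ E'`: for `Z ∈ 𝔷`,
`j · Z v = tr (Z v j) = - tr (Z (A B - B A)) = - tr ((Z A - A Z) B) = 0`. Let `Pp` be from Xi and
`Θ (ξ, p, e, e') = (ξ A - A ξ + p, ξ v + e, - j ξ + e')` on `M_n × Pp × E × E'`. Its kernel contains the
`(Z, 0, - Z v, j Z)`, `Z ∈ 𝔷` (`j Z ∈ E'` as `E` is stable), so its image has dimension at most `n² + m + n - dim 𝔷`, with
`m = card (image μ)`. Let `T` be the space of the `(a, b', c, d)` (coordinates `co a b' c d`) with `(a, c, d)` in the image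
of `Θ` and `a B - B a + A b' - b' A + c j + v d = 0` (`c j = vecMulVec c j`). The kernel of `T → im Θ` is `𝔷`, so
`dim T ≤ n² + m + n`. For a derivation `δ` take `ξ` from Xi; apply `δ` to `A B - B A + v j = 0`. -/
def St_TA : Prop := ∀ (k : Type) [Field k] (L : Type) [Field L] [DecidableEq L] [Algebra k L]
  (n : ℕ) (A B : Matrix (Fin n) (Fin n) L) (v j : Fin n → L),
  A * B - B * A + vecMulVec v j = 0 → ∀ (κ : Type) [Fintype κ] (ℓ : κ → ℕ) (μ : κ → L)
  (b : Module.Basis (Σ i : κ, Fin (ℓ i)) L (Fin n → L)), JB A ℓ μ b →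
  ∃ T : Submodule L (Sg n → L), Module.finrank L T ≤ n ^ 2 + n + (Finset.univ.image μ).card ∧
    ∀ δ : Derivation k L L, (fun i => δ (co A B v j i)) ∈ T

/-- **Vd.** The Gram determinant of a matrix with `n` distinct eigenvalues.

Proof. The `ℓ_i > 0` have the sum `n`, so `card (image μ) ≤ card κ ≤ n`. If it is `n`, all `ℓ_i` are `1` and the `μ_i`
are distinct, the trace of `A^a` is `∑ μ_i^a`, so the Gram matrix is `Vᵀ V` with the Vandermonde matrix `V` of the `μ_i`
(in some order of `κ`), with a nonzero determinant. -/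
def St_Vd : Prop := ∀ (L : Type) [Field L] [DecidableEq L] (n : ℕ)
  (A : Matrix (Fin n) (Fin n) L) (κ : Type) [Fintype κ] (ℓ : κ → ℕ) (μ : κ → L)
  (b : Module.Basis (Σ i : κ, Fin (ℓ i)) L (Fin n → L)), JB A ℓ μ b →
  (Finset.univ.image μ).card ≤ n ∧ ((Finset.univ.image μ).card = n → dsc A ≠ 0)

/-- **Dm.** The dimension of the almost commuting scheme.

Proof. `L` the algebraic closure of the fraction field of `RS k n ⧸ P`, `A, B, v, j` the images of `x, y, v, j`. JBx gives a
Jordan basis of `A`, TA gives `T`, Der gives `ringKrullDim ≤ dim T ≤ n² + n + m`; Vd. (`dsc A` is the image of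
`dsc (sX k n)`, and it is zero iff this is in `P`.) -/
def St_Dm : Prop := ∀ (k : Type) [Field k] [CharZero k] (n : ℕ) (P : Ideal (RS k n)) [P.IsPrime],
  IJ k n ≤ P → ringKrullDim (RS k n ⧸ P) ≤ ((n ^ 2 + 2 * n : ℕ) : WithBot ℕ∞) ∧
    (dsc (sX k n) ∈ P → ringKrullDim (RS k n ⧸ P) + 1 ≤ ((n ^ 2 + 2 * n : ℕ) : WithBot ℕ∞))

/-! ### complete intersections -/

/-- **Ass.** Associated primes and regular sequences.

Proof. Induction on the length. Let `x` be the first element, `p` an associated prime of `M`. (i) `x ∉ p`. (ii) `M / x M`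
has an associated prime `q` containing `p` and `x`: let `N = {m | p m = 0} ≠ 0`. `N` is not contained in `x M`: otherwise
every `m ∈ N` is `x m'` with `x p m' = 0`, so `p m' = 0` and `N = x N`, `N = 0` by Nakayama. Take `m ∈ N`, `m ∉ x M`; the
submodule generated by the class of `m` in `M / x M` has an associated prime, which contains `p` and `x`. (iii) so
`p < q` and `dim R/p ≥ 1 + dim R/q`; induction for `M / x M` (`IsRegular` of a list unfolds to it). -/
def St_Ass : Prop := ∀ (R : Type) [CommRing R] [IsLocalRing R] [IsNoetherianRing R] (M : Type)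
  [AddCommGroup M] [Module R M] [Module.Finite R M] (rs : List R),
  (∀ r ∈ rs, r ∈ IsLocalRing.maximalIdeal R) → RingTheory.Sequence.IsRegular M rs →
  ∀ p ∈ associatedPrimes R M, ((rs.length : ℕ) : WithBot ℕ∞) ≤ ringKrullDim (R ⧸ p)

/-- **CMl.** Parameters in a local ring of depth `s`.

Proof. Claim: for every `i ≤ t`, `f_1, .., f_i` is a regular sequence of `R`. Given this for `i`, the module
`R_i = R/(f_1, .., f_i)` has a regular sequence of length `s - i` in the maximal ideal (Rees' theorem in Mathlib,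
`exists_isRegular_tfae` in `RingTheory/Depth/Rees.lean`: such sequences exist iff `Ext^j(k, -) = 0` for `j < s - i`; the
long exact sequence of `0 → R_(i-1) → R_(i-1) → R_i → 0` loses one degree, see `subsingleton_ext_X3` in
`Pool/Agent/Helper40/Licci/ExtShift.lean`). So by Ass `dim R/p ≥ s - i` for all associated primes `p` of `R_i`. Let `g` be
`f_(i+1)` (or `D` if `i = t`). If `g` is a zero divisor of `R_i` it is in such a `p`, so
`dim R/(f_1, .., f_i, g) ≥ s - i`. But the dimension drops by at most one for each further element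
(`ringKrullDim_le_ringKrullDim_add_card`), so by the hypothesis it is at most `s - i - 1`. -/
def St_CMl : Prop := ∀ (R : Type) [CommRing R] [IsLocalRing R] [IsNoetherianRing R] (s t : ℕ)
  (rs : List R), (∀ r ∈ rs, r ∈ IsLocalRing.maximalIdeal R) → RingTheory.Sequence.IsRegular R rs →
  rs.length = s → ∀ (f : Fin t → R) (D : R), (∀ i, f i ∈ IsLocalRing.maximalIdeal R) →
  D ∈ IsLocalRing.maximalIdeal R →
  ringKrullDim (R ⧸ (Ideal.span (Set.range f) ⊔ Ideal.span {D})) + ((t + 1 : ℕ) : WithBot ℕ∞) ≤
    ((s : ℕ) : WithBot ℕ∞) →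
  ∀ g : R, D * g ∈ Ideal.span (Set.range f) → g ∈ Ideal.span (Set.range f)

/-- **CI.** The graded form.

Proof. Let `R` be the localization of `S = MvPolynomial σ k` at the ideal of the origin. The variables are a regular
sequence of length `card σ` of `R`. The primes of `R` which contain the `f_i` and `D` are the `P R` with `P` a prime of `S`
contained in the ideal of the origin; the dimension of `R / P R` is at most that of `S / P`. So by CMl `D` is not a
zero divisor modulo the `f_i` in `R`. Let `D g ∈ (f)`; as `(f)` and `D` are homogeneous, this holds for the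
homogeneous components of `g`, so assume that `g` is homogeneous. Then `u g ∈ (f)` for some `u` with a nonzero constant
term `u_0`; the component of degree `deg g` of `u g` is `u_0 g`, so `g ∈ (f)`. -/
def St_CI : Prop := ∀ (k : Type) [Field k] (σ : Type) [Fintype σ] (τ : Type) [Fintype τ]
  (f : τ → MvPolynomial σ k) (d : τ → ℕ) (D : MvPolynomial σ k) (e : ℕ),
  (∀ i, (f i).IsHomogeneous (d i) ∧ 0 < d i) → D.IsHomogeneous e → 0 < e →
  (∀ P : Ideal (MvPolynomial σ k), P.IsPrime → (∀ i, f i ∈ P) → D ∈ P →
    ringKrullDim (MvPolynomial σ k ⧸ P) + ((Fintype.card τ + 1 : ℕ) : WithBot ℕ∞) ≤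
      ((Fintype.card σ : ℕ) : WithBot ℕ∞)) →
  ∀ g : MvPolynomial σ k, D * g ∈ Ideal.span (Set.range f) → g ∈ Ideal.span (Set.range f)

/-- **NZ.** The discriminant is not a zero divisor modulo the ideal of the almost commuting scheme.

Proof. For `n ≤ 1`, `dsc` is `1` (`tr (x^0) = 1` if `n = 1`). Let `n ≥ 2`. The `eqn t` are homogeneous of degree `2`,
`dsc (sX k n)` is homogeneous of degree `∑_a (a + σ a) = n (n - 1) > 0` (`tr (x^a)` is homogeneous of degree `a`). `Sg n`
has `2 n² + 2 n` elements, there are `n²` equations. CI and the second part of Dm. -/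
def St_NZ : Prop := ∀ (k : Type) [Field k] [CharZero k] (n : ℕ) (g : RS k n),
  dsc (sX k n) * g ∈ IJ k n → g ∈ IJ k n

/-! ### diagonalization -/

/-- **Dsc.** If the discriminant is a unit, the eigenvalues have unit differences.

Proof. If `l c - l d` is not a unit, it is in the maximal ideal; let `F` be an algebraic closure of the residue field. The
image `A'` of `A` over `F` has the characteristic polynomial `∏ (X - l'_i)` with `l'_c = l'_d`. Over `F` the trace of
`A'^a` is the sum of the `l'_i^a` (triangular form), so the Gram matrix is `Vᵀ V` with the Vandermonde matrix of the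
`l'_i`, whose determinant is `0`. But `dsc A'` is the image of a unit. -/
def St_Dsc : Prop := ∀ (R : Type) [CommRing R] [IsLocalRing R] (n : ℕ)
  (A : Matrix (Fin n) (Fin n) R) (l : Fin n → R),
  A.charpoly = ∏ i, (Polynomial.X - Polynomial.C (l i)) → IsUnit (dsc A) →
  ∀ c d, c ≠ d → IsUnit (l c - l d)

/-- **Dg.** Diagonalization over a local ring.

Proof. Let `N_c = ∏_(d ≠ c) (A - l_d)`. By Cayley-Hamilton `(A - l_c) N_c = 0`. Modulo the maximal ideal the `l_d` are
distinct eigenvalues, and `N_c ≠ 0` modulo the maximal ideal (the minimal polynomial of a matrix with `n` distinct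
eigenvalues has degree `n`). Let the `c`-th column of `g` be a column of `N_c` which is not zero modulo the maximal
ideal. `A g = g diag(l)`. Modulo the maximal ideal the columns of `g` are eigenvectors for distinct eigenvalues, so
`det g` is a unit. -/
def St_Dg : Prop := ∀ (R : Type) [CommRing R] [IsLocalRing R] (n : ℕ)
  (A : Matrix (Fin n) (Fin n) R) (l : Fin n → R),
  A.charpoly = ∏ i, (Polynomial.X - Polynomial.C (l i)) → (∀ c d, c ≠ d → IsUnit (l c - l d)) →
  ∃ g : Matrix (Fin n) (Fin n) R, IsUnit g.det ∧ A * g = g * Matrix.diagonal l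

/-- **Tor.** Invariants at a diagonal matrix.

Proof. Let `F` be the polynomial in `l_c`, `B_cd`, `v_c`, `ξ_sc` obtained from `f` by `x ↦ diag(l)`. It is invariant under
diagonal matrices, so each of its monomials (with nonzero coefficient) has weight zero, where `l_c` has weight `0`,
`B_cd` has weight `ε_c - ε_d`, `v_c` has weight `ε_c`, `ξ_sc` has weight `- ε_c` in `ℤ^n` (`ℂ` is infinite). (i) a monomial
which contains an off diagonal `B_cd` vanishes at the given point: as the weight is zero, the index `d` must occur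
positively: the monomial contains a product `B_cd B_de` with `e ≠ d`, or `B_cd v_d`. Up to units `B_cd` is `v_c j_d` and
`B_de` is `v_d j_e`, and `v_d j_d = 0` (the hypothesis for `c = d`). (ii) the sum of the monomials without off diagonal
`B_cd` is the polynomial `f (diag, diag, v, ξ)`, which is zero as `f` vanishes at commuting pairs. -/
def St_Tor : Prop := ∀ (n r : ℕ) (f : MvPolynomial (Vg n r) ℂ), Inv f → Van f →
  ∀ (R : Type) [CommRing R] [Algebra ℂ R] (l : Fin n → R) (B : Matrix (Fin n) (Fin n) R)
  (v j : Fin n → R) (ξ : Fin r → Fin n → R), (∀ c d, c ≠ d → IsUnit (l c - l d)) →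
  (∀ c d, (l c - l d) * B c d + v c * j d = 0) →
  evg (Matrix.diagonal l) B v ξ f = 0

/-- **Eqv.** Invariance over all algebras.

Proof. Let `G` be the localization at `det g` of the polynomial ring over `ℂ` in the entries of `g`, `A`, `B`, `v`, `ξ`. It
is enough to treat the universal case over `G`, with `h = g⁻¹`. The difference of the two sides is `p / det(g)^M` with a
polynomial `p`; `p det g` vanishes at all complex points by invariance, so `p = 0` (`MvPolynomial.funext`). -/
def St_Eqv : Prop := ∀ (n r : ℕ) (f : MvPolynomial (Vg n r) ℂ), Inv f →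
  ∀ (R : Type) [CommRing R] [Algebra ℂ R] (g h : Matrix (Fin n) (Fin n) R), g * h = 1 →
  ∀ (A B : Matrix (Fin n) (Fin n) R) (v : Fin n → R) (ξ : Fin r → Fin n → R),
    evg (g * A * h) (g * B * h) (g *ᵥ v) (fun s => ξ s ᵥ* h) f = evg A B v ξ f

/-- **Fin.** The theorem.

Proof. Let `Q = RS ℂ n ⧸ IJ`, `Q₁` the polynomial ring over `Q` in the coordinates of the `ξ_s`, `f'` the value of `f` at the
images of `x, y, v` and the `ξ_s` in `Q₁`. CLAIM `f' = 0`. The image `δ` of `dsc (sX)` is not a zero divisor in `Q` (NZ), so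
not in `Q₁` (coefficients). So it is enough that the image of `f'` in `Q₂ = Localization.Away δ` of `Q₁` is zero; assume
that `Q₂ ≠ 0`. There is an extension `Q₃ ⊇ Q₂` in which the characteristic polynomial of `x` is `∏ (X - l_i)`
(`Pool.Agent.CTR.St_Spl`; natural degree `n`). It is enough that the image of `f'` is zero in the localizations `R` of
`Q₃` at its maximal ideals. In `R`, `dsc x` is a unit, so the `l_c - l_d` are units (Dsc), `x g = g diag(l)` (Dg). With
`h = g⁻¹`, `y' = h y g`, `v' = h v`, `j' = j g`, `ξ'_s = ξ_s g` the relation `x y - y x + v j = 0` becomes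
`(l_c - l_d) y'_cd + v'_c j'_d = 0`, so `f (diag(l), y', v', ξ') = 0` by Tor and `f (x, y, v, ξ) = 0` by Eqv.
Finally, the homomorphism from `Q₁` to `MvPolynomial (Vg n r) ℂ ⧸ comE n r` with `x, y, v, ξ ↦` their classes and
`j ↦ 0` is well defined and maps `f'` to the class of `f`. -/
def St_Fin : Prop := ∀ (n r : ℕ) (f : MvPolynomial (Vg n r) ℂ), Inv f → Van f → f ∈ comE n r

end Pool.Agent.ACV
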